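import Mathlib.Algebra.AffineMonoid.Basic
import Mathlib.Tactic.Monotonicity.Lemmas
import Mathlib.RingTheory.Flat.TorsionFree
import Mathlib.Data.Int.Star
import Mathlib.Algebra.Order.Ring.Star
import Mathlib.Algebra.Module.StablyFree.Basic
import Mathlib.Algebra.MvPolynomial.SchwartzZippel
import Mathlib.Algebra.Order.Star.Real
import Mathlib.RingTheory.Valuation.LocalSubring
import Mathlib.Analysis.Polynomial.CauchyBound
import Mathlib.Order.Interval.Finset.Box
import Mathlib.Data.Nat.Choose.Dvd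
import Mathlib.Data.Rat.Star
import Mathlib.RingTheory.SimpleRing.Principal
import Mathlib.NumberTheory.NumberField.House
import Mathlib.Order.CompletePartialOrder
import Mathlib.RingTheory.TotallySplit
import Mathlib.RingTheory.Etale.Weakly
import Mathlib.RingTheory.Henselian
import Mathlib.RingTheory.RegularLocalRing.Defs
import Mathlib.Tactic.Polynomial.Basic

-- ======== part 0: formerly Pool.Agent.MP_a2aa7d_nt.h32.Dens
section MrgPart0

set_option autoImplicit false

namespace Pool.Agent.MP_a2aa7d_nt.H32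

open Finset Fintype Filter MvPolynomial

variable {ι : Type} [Fintype ι] [DecidableEq ι]

/-- The integer points of the cube of radius `H`. -/
noncomputable def box (ι : Type) [Fintype ι] [DecidableEq ι] (H : ℕ) : Finset (ι → ℤ) :=
  piFinset fun _ => Icc (-(H : ℤ)) H

lemma mem_box {H : ℕ} {t : ι → ℤ} : t ∈ box ι H ↔ ∀ i, |t i| ≤ H := by
  simp [box, abs_le]

lemma card_Icc_sym (H : ℕ) : #(Icc (-(H : ℤ)) H) = 2 * H + 1 := by
  rw [Int.card_Icc]; omega

lemma card_box (H : ℕ) : #(box ι H) = (2 * H + 1) ^ card ι := by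
  simp [box, card_piFinset, -Int.card_Icc, card_Icc_sym]

open Classical in
/-- Number of points of `Z` in the cube. -/
noncomputable def cnt (Z : Set (ι → ℤ)) (H : ℕ) : ℕ := #{t ∈ box ι H | t ∈ Z}

/-- Upper density at most `δ`, in an eventual form. -/
def Small (Z : Set (ι → ℤ)) (δ : ℝ) : Prop :=
  ∀ᶠ H : ℕ in atTop, (cnt Z H : ℝ) ≤ δ * (2 * H + 1) ^ card ι

/-- Density zero. -/
def DZ (Z : Set (ι → ℤ)) : Prop := ∀ δ : ℝ, 0 < δ → Small Z δ

lemma cnt_mono {A B : Set (ι → ℤ)} (h : A ⊆ B) (H : ℕ) : cnt A H ≤ cnt B H := by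
  classical
  unfold cnt
  refine card_le_card fun t ht => ?_
  simp only [mem_filter] at ht ⊢
  exact ⟨ht.1, h ht.2⟩

lemma cnt_union (A B : Set (ι → ℤ)) (H : ℕ) : cnt (A ∪ B) H ≤ cnt A H + cnt B H := by
  classical
  unfold cnt
  refine le_trans (card_le_card fun t ht => ?_) (card_union_le _ _)
  simp only [mem_filter, mem_union, Set.mem_union] at ht ⊢
  tauto

lemma Small.mono {A B : Set (ι → ℤ)} {δ δ' : ℝ} (hB : Small B δ) (h : A ⊆ B) (hδ : δ ≤ δ') :
    Small A δ' := by
  filter_upwards [hB] with H hH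
  have h1 : (cnt A H : ℝ) ≤ cnt B H := by exact_mod_cast cnt_mono h H
  have h2 : δ * (2 * H + 1 : ℝ) ^ card ι ≤ δ' * (2 * H + 1) ^ card ι := by gcongr
  linarith

lemma Small.union {A B : Set (ι → ℤ)} {δ δ' : ℝ} (hA : Small A δ) (hB : Small B δ') :
    Small (A ∪ B) (δ + δ') := by
  filter_upwards [hA, hB] with H h1 h2
  have h3 : (cnt (A ∪ B) H : ℝ) ≤ cnt A H + cnt B H := by exact_mod_cast cnt_union A B H
  linarith

lemma DZ.mono {A B : Set (ι → ℤ)} (hB : DZ B) (h : A ⊆ B) : DZ A :=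
  fun δ hδ => (hB δ hδ).mono h le_rfl

lemma DZ.union {A B : Set (ι → ℤ)} (hA : DZ A) (hB : DZ B) : DZ (A ∪ B) := fun δ hδ =>
  ((hA (δ / 2) (by positivity)).union (hB (δ / 2) (by positivity))).mono subset_rfl (by linarith)

lemma dz_empty : DZ (∅ : Set (ι → ℤ)) := fun δ hδ =>
  Eventually.of_forall fun H => by
    have : cnt (∅ : Set (ι → ℤ)) H = 0 := by simp [cnt]
    rw [this]; push_cast; positivity

lemma dz_biUnion {α : Type*} {s : Set α} (hs : s.Finite) (Z : α → Set (ι → ℤ))
    (h : ∀ a ∈ s, DZ (Z a)) : DZ (⋃ a ∈ s, Z a) := by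
  induction s, hs using Set.Finite.induction_on with
  | empty => simpa using dz_empty
  | insert _ _ ih =>
    rw [Set.biUnion_insert]
    exact (h _ (Set.mem_insert _ _)).union (ih fun a ha => h a (Set.mem_insert_of_mem _ ha))

/-- Schwartz-Zippel over any finite index type. -/
lemma sz {R : Type*} [CommRing R] [IsDomain R] [DecidableEq R] {p : MvPolynomial ι R} (hp : p ≠ 0)
    (S : Finset R) :
    #{f ∈ piFinset fun _ : ι => S | eval f p = 0} * #S ≤ p.totalDegree * #S ^ card ι := by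
  obtain rfl | hS := S.eq_empty_or_nonempty
  · simp
  let e := Fintype.equivFin ι
  have hq : rename e p ≠ 0 := fun h => hp (rename_injective _ e.injective (by simpa using h))
  have h1 := schwartz_zippel_totalDegree hq S
  have hc : (0 : ℚ≥0) < #S := by exact_mod_cast hS.card_pos
  rw [div_le_div_iff₀ (by positivity) hc] at h1
  have h2 : #{f ∈ piFinset fun _ : ι => S | eval f p = 0} ≤
      #{f ∈ piFinset fun _ : Fin (card ι) => S | eval f (rename e p) = 0} := by
    refine card_le_card_of_injOn (fun f => f ∘ e.symm) (fun f hf => ?_) fun f _ g _ h => ?_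
    · simp only [coe_filter, mem_piFinset, Set.mem_ofPred_eq] at hf ⊢
      refine ⟨fun i => hf.1 _, ?_⟩
      rw [eval_rename]
      convert hf.2
      ext i; simp
    · ext i
      simpa using congrFun h (e i)
  have h3 : (rename e p).totalDegree ≤ p.totalDegree := totalDegree_rename_le _ _
  have h4 : #{f ∈ piFinset fun _ : Fin (card ι) => S | eval f (rename e p) = 0} * #S ≤
      (rename e p).totalDegree * #S ^ card ι := by exact_mod_cast h1
  calc _ ≤ _ := Nat.mul_le_mul_right _ h2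
    _ ≤ _ := h4
    _ ≤ _ := Nat.mul_le_mul_right _ h3

open Classical in
/-- Schwartz-Zippel at integer points. -/
lemma sz_int {R : Type*} [CommRing R] [IsDomain R] {p : MvPolynomial ι R} (hp : p ≠ 0)
    (S : Finset ℤ) (hS : Set.InjOn (Int.cast : ℤ → R) S) :
    #{g ∈ piFinset fun _ : ι => S | eval (fun i => (g i : R)) p = 0} * #S ≤
      p.totalDegree * #S ^ card ι := by
  have h1 := sz hp (S.image (Int.cast : ℤ → R))
  rw [card_image_of_injOn hS] at h1
  refine le_trans (Nat.mul_le_mul_right _ ?_) h1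
  refine card_le_card_of_injOn (fun g i => (g i : R)) (fun f hf => ?_) fun f hf g hg h => ?_
  · simp only [coe_filter, mem_piFinset, Set.mem_ofPred_eq] at hf ⊢
    exact ⟨fun i => mem_image_of_mem _ (hf.1 i), hf.2⟩
  · simp only [coe_filter, mem_piFinset, Set.mem_ofPred_eq] at hf hg
    ext i
    exact hS (hf.1 i) (hg.1 i) (congrFun h i)

/-- The zero set of a nonzero polynomial has density zero. -/
lemma dz_zero {R : Type*} [CommRing R] [IsDomain R] [CharZero R] {p : MvPolynomial ι R}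
    (hp : p ≠ 0) : DZ {t : ι → ℤ | eval (fun i => (t i : R)) p = 0} := by
  classical
  intro δ hδ
  obtain ⟨H0, hH0⟩ := exists_nat_ge ((p.totalDegree : ℝ) / δ)
  filter_upwards [eventually_ge_atTop H0] with H hH
  have h1 := sz_int hp (Icc (-(H : ℤ)) H) Int.cast_injective.injOn
  rw [card_Icc_sym] at h1
  have h2 : (cnt {t : ι → ℤ | eval (fun i => (t i : R)) p = 0} H : ℝ) * (2 * H + 1) ≤
      p.totalDegree * (2 * H + 1) ^ card ι := by
    have : cnt {t : ι → ℤ | eval (fun i => (t i : R)) p = 0} H * (2 * H + 1) ≤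
      p.totalDegree * (2 * H + 1) ^ card ι := by
      convert h1 using 2
      unfold cnt box
      congr
    exact_mod_cast this
  have h3 : (p.totalDegree : ℝ) ≤ δ * (2 * H + 1) := by
    rw [div_le_iff₀ hδ] at hH0
    have : (H0 : ℝ) ≤ H := by exact_mod_cast hH
    nlinarith
  have h4 : (0 : ℝ) < 2 * H + 1 := by positivity
  refine le_of_mul_le_mul_right (h2.trans ?_) h4
  have : (0 : ℝ) ≤ (2 * H + 1) ^ card ι := by positivity
  nlinarith

/-- The residue cube `[0, q)^ι`. -/
noncomputable def res (ι : Type) [Fintype ι] [DecidableEq ι] (q : ℕ) : Finset (ι → ℤ) :=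
  piFinset fun _ => Ico (0 : ℤ) q

open Classical in
lemma cnt_le_sum (Z : Set (ι → ℤ)) {H q R : ℕ} (hq : 0 < q) (hH : H ≤ q * R) :
    cnt Z H ≤ ∑ t0 ∈ res ι q, #{g ∈ box ι R | (fun i => t0 i + q * g i) ∈ Z} := by
  rw [← card_sigma]
  have hq' : (0 : ℤ) < q := by exact_mod_cast hq
  refine card_le_card_of_injOn (fun t => ⟨fun i => t i % q, fun i => t i / q⟩)
    (fun t ht => ?_) fun t _ s _ h => ?_
  · simp only [coe_filter, mem_box, Set.mem_ofPred_eq] at ht
    simp only [coe_sigma, Set.mem_sigma_iff, mem_coe, res, mem_piFinset, mem_Ico, mem_filter,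
      mem_box]
    refine ⟨fun i => ⟨Int.emod_nonneg _ hq'.ne', Int.emod_lt_of_pos _ hq'⟩, fun i => ?_, ?_⟩
    · have h1 := abs_le.1 (ht.1 i)
      have h2 : (H : ℤ) ≤ q * R := by exact_mod_cast hH
      rw [abs_le]
      constructor
      · rw [Int.le_ediv_iff_mul_le hq']; linarith
      · exact Int.ediv_le_of_le_mul hq' (by linarith)
    · convert ht.2 using 2 with i
      exact Int.emod_add_mul_ediv _ _
  · simp only [Sigma.mk.injEq, heq_eq_eq] at h
    ext i
    rw [← Int.emod_add_mul_ediv (t i) q, ← Int.emod_add_mul_ediv (s i) q, congrFun h.1 i,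
      congrFun h.2 i]

open Classical in
/-- The covering estimate. -/
lemma cover (Z : Set (ι → ℤ)) {H q R d C : ℕ} (hq : 0 < q) (hH : H ≤ q * R)
    (hq2 : q * (2 * R + 1) ≤ 4 * (2 * H + 1)) (bad : (ι → ℤ) → Prop)
    (hb : #{t0 ∈ res ι q | bad t0} * q ≤ d * q ^ card ι)
    (hg : ∀ t0 ∈ res ι q, ¬ bad t0 →
      #{g ∈ box ι R | (fun i => t0 i + q * g i) ∈ Z} * (2 * R + 1) ≤ C * (2 * R + 1) ^ card ι) :
    (cnt Z H : ℝ) ≤ ((d : ℝ) / q + C / (2 * R + 1)) * 4 ^ card ι * (2 * H + 1) ^ card ι := by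
  have h1 := cnt_le_sum Z hq hH
  rw [← sum_filter_add_sum_filter_not _ bad] at h1
  have hq' : (0 : ℝ) < q := by exact_mod_cast hq
  have hR : (0 : ℝ) < 2 * R + 1 := by positivity
  have h2 : ((∑ t0 ∈ res ι q with bad t0,
      #{g ∈ box ι R | (fun i => t0 i + q * g i) ∈ Z} : ℕ) : ℝ) ≤
      (d : ℝ) / q * q ^ card ι * (2 * R + 1) ^ card ι := by
    have h3 : ∑ t0 ∈ res ι q with bad t0, #{g ∈ box ι R | (fun i => t0 i + q * g i) ∈ Z} ≤
        #{t0 ∈ res ι q | bad t0} * (2 * R + 1) ^ card ι := by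
      rw [← smul_eq_mul]
      exact sum_le_card_nsmul _ _ _ fun t0 _ => (card_filter_le _ _).trans (card_box R).le
    have h4 : (#{t0 ∈ res ι q | bad t0} : ℝ) ≤ (d : ℝ) / q * q ^ card ι := by
      rw [div_mul_eq_mul_div, le_div_iff₀ hq']
      exact_mod_cast hb
    calc _ ≤ ((#{t0 ∈ res ι q | bad t0} * (2 * R + 1) ^ card ι : ℕ) : ℝ) := by exact_mod_cast h3
      _ = (#{t0 ∈ res ι q | bad t0} : ℝ) * (2 * R + 1) ^ card ι := by push_cast; ring
      _ ≤ _ := by gcongr
  have h5 : ((∑ t0 ∈ res ι q with ¬ bad t0,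
      #{g ∈ box ι R | (fun i => t0 i + q * g i) ∈ Z} : ℕ) : ℝ) ≤
      (C : ℝ) / (2 * R + 1) * q ^ card ι * (2 * R + 1) ^ card ι := by
    push_cast
    have h6 : ∀ t0 ∈ {t0 ∈ res ι q | ¬ bad t0},
        (#{g ∈ box ι R | (fun i => t0 i + q * g i) ∈ Z} : ℝ) ≤
          (C : ℝ) / (2 * R + 1) * (2 * R + 1) ^ card ι := by
      intro t0 ht0
      rw [mem_filter] at ht0
      rw [div_mul_eq_mul_div, le_div_iff₀ hR]
      exact_mod_cast hg t0 ht0.1 ht0.2
    refine (sum_le_card_nsmul _ _ _ h6).trans ?_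
    have h7 : (#{t0 ∈ res ι q | ¬ bad t0} : ℝ) ≤ q ^ card ι := by
      have : #{t0 ∈ res ι q | ¬ bad t0} ≤ q ^ card ι :=
        (card_filter_le _ _).trans (by simp [res, card_piFinset])
      exact_mod_cast this
    rw [nsmul_eq_mul]
    calc _ ≤ (q : ℝ) ^ card ι * ((C : ℝ) / (2 * R + 1) * (2 * R + 1) ^ card ι) := by gcongr
      _ = _ := by ring
  have h8 : (q : ℝ) ^ card ι * (2 * R + 1) ^ card ι ≤ 4 ^ card ι * (2 * H + 1) ^ card ι := by
    rw [← mul_pow, ← mul_pow]
    exact pow_le_pow_left₀ (by positivity) (by exact_mod_cast hq2) _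
  have h9 : (cnt Z H : ℝ) ≤ ((d : ℝ) / q + C / (2 * R + 1)) *
      (q ^ card ι * (2 * R + 1) ^ card ι) := by
    have : (cnt Z H : ℝ) ≤ _ := Nat.cast_le.2 h1
    rw [Nat.cast_add] at this
    linarith
  rw [mul_assoc]
  exact h9.trans (by gcongr)

open Classical in
/-- Residues at which a polynomial falls into a prime ideal over `q`. -/
lemma bad_res {O : Type*} [CommRing O] (P : Ideal O) [P.IsPrime] {q : ℕ}
    (hq : ∀ n : ℤ, (n : O) ∈ P → (q : ℤ) ∣ n) {Δ : MvPolynomial ι O} (hΔ : ∃ m, Δ.coeff m ∉ P) :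
    #{t0 ∈ res ι q | eval (fun i => (t0 i : O)) Δ ∈ P} * q ≤ Δ.totalDegree * q ^ card ι := by
  have hne : MvPolynomial.map (Ideal.Quotient.mk P) Δ ≠ 0 := by
    obtain ⟨m, hm⟩ := hΔ
    intro h
    have := congrArg (MvPolynomial.coeff m) h
    rw [coeff_map, coeff_zero, Ideal.Quotient.eq_zero_iff_mem] at this
    exact hm this
  have h1 := sz_int hne (Ico (0 : ℤ) q) (by
    intro a ha b hb hab
    simp only [coe_Ico, Set.mem_Ico] at ha hb
    have h2 : ((a - b : ℤ) : O) ∈ P := by
      rw [← Ideal.Quotient.eq_zero_iff_mem, map_intCast]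
      push_cast
      rw [hab, sub_self]
    have h3 := hq _ h2
    have := Int.eq_zero_of_abs_lt_dvd h3 (by rw [abs_lt]; constructor <;> linarith)
    linarith)
  have hc : #(Ico (0 : ℤ) q) = q := by simp
  rw [hc] at h1
  have hd : (MvPolynomial.map (Ideal.Quotient.mk P) Δ).totalDegree ≤ Δ.totalDegree :=
    Finset.sup_mono (support_map_subset _ _)
  have hf : ∀ t : ι → ℤ, eval (fun i => (t i : O)) Δ ∈ P ↔
      eval (fun i => (t i : O ⧸ P)) (MvPolynomial.map (Ideal.Quotient.mk P) Δ) = 0 := by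
    intro t
    rw [← Ideal.Quotient.eq_zero_iff_mem, eval_map, MvPolynomial.eval, coe_eval₂Hom,
      eval₂_comp_left]
    simp [Function.comp_def]
  simp only [hf]
  exact h1.trans (Nat.mul_le_mul_right _ hd)

omit [Fintype ι] [DecidableEq ι] in
lemma eval_add_mul_mem {O : Type*} [CommRing O] (P : Ideal O) {q : ℕ} (hq : (q : O) ∈ P)
    (Δ : MvPolynomial ι O) (t0 g : ι → ℤ) :
    eval (fun i => ((t0 i + q * g i : ℤ) : O)) Δ - eval (fun i => (t0 i : O)) Δ ∈ P := by
  rw [← Ideal.Quotient.eq, MvPolynomial.eval, MvPolynomial.eval, coe_eval₂Hom, coe_eval₂Hom,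
    eval₂_comp_left, eval₂_comp_left]
  congr 1
  ext i
  have : (q : O ⧸ P) = 0 := by
    rw [← map_natCast (Ideal.Quotient.mk P), Ideal.Quotient.eq_zero_iff_mem]; exact hq
  simp [this]

/-- Parameters at which `Δ` vanishes modulo a prime over `q` have upper density `O(1/q)`. -/
lemma small_mod {O : Type*} [CommRing O] (P : Ideal O) [P.IsPrime] {q : ℕ} (hq0 : 0 < q)
    (hqP : (q : O) ∈ P) (hq : ∀ n : ℤ, (n : O) ∈ P → (q : ℤ) ∣ n) {Δ : MvPolynomial ι O}
    (hΔ : ∃ m, Δ.coeff m ∉ P) :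
    Small {t : ι → ℤ | eval (fun i => (t i : O)) Δ ∈ P} (Δ.totalDegree / q * 4 ^ card ι) := by
  classical
  filter_upwards [eventually_ge_atTop q] with H hH
  have h1 : H ≤ q * (H / q + 1) := (Nat.lt_mul_div_succ H hq0).le
  have h2 : q * (2 * (H / q + 1) + 1) ≤ 4 * (2 * H + 1) := by
    have := Nat.mul_div_le H q
    nlinarith
  have h3 := cover {t : ι → ℤ | eval (fun i => (t i : O)) Δ ∈ P} (C := 0) hq0 h1 h2
    (fun t0 => eval (fun i => (t0 i : O)) Δ ∈ P) (by convert bad_res P hq hΔ) (by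
      intro t0 _ ht0
      rw [zero_mul, Nat.le_zero, mul_eq_zero, card_eq_zero, filter_eq_empty_iff]
      left
      intro g _ hg
      have := P.sub_mem hg (eval_add_mul_mem P hqP Δ t0 g)
      simp only [sub_sub_cancel] at this
      exact ht0 this)
  simpa using h3

open NumberField in
/-- A maximal ideal over a rational prime. -/
lemma exists_prime_over (K : Type) [Field K] [NumberField K] {q : ℕ} (hq : q.Prime) :
    ∃ P : Ideal (𝓞 K), P.IsMaximal ∧ (q : 𝓞 K) ∈ P ∧ ∀ n : ℤ, (n : 𝓞 K) ∈ P → (q : ℤ) ∣ n := by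
  have hp : Prime (q : ℤ) := Nat.prime_iff_prime_int.1 hq
  have hm : (Ideal.span {(q : ℤ)}).IsMaximal :=
    PrincipalIdealRing.isMaximal_of_irreducible hp.irreducible
  obtain ⟨P, hP, hc⟩ := Ideal.exists_ideal_over_maximal_of_isIntegral (S := 𝓞 K)
    (Ideal.span {(q : ℤ)}) (by
      rw [(RingHom.injective_iff_ker_eq_bot _).1 (algebraMap ℤ (𝓞 K)).injective_int]
      exact bot_le)
  refine ⟨P, hP, ?_, fun n hn => ?_⟩
  · have : (q : ℤ) ∈ P.comap (algebraMap ℤ (𝓞 K)) := hc ▸ Ideal.mem_span_singleton_self _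
    simpa using this
  · rw [← Ideal.mem_span_singleton, ← hc]
    simpa using hn

omit [Fintype ι] [DecidableEq ι] in
open NumberField in
/-- A nonzero polynomial stays nonzero modulo primes over large `q`. -/
lemma exists_coeff_not_mem (K : Type) [Field K] [NumberField K] {Δ : MvPolynomial ι (𝓞 K)}
    (hΔ : Δ ≠ 0) : ∃ B : ℕ, ∀ q : ℕ, B < q → ∀ P : Ideal (𝓞 K),
      (∀ n : ℤ, (n : 𝓞 K) ∈ P → (q : ℤ) ∣ n) → ∃ m, Δ.coeff m ∉ P := by
  obtain ⟨m, hm⟩ := ne_zero_iff.1 hΔ
  refine ⟨Ideal.absNorm (Ideal.span {Δ.coeff m}), fun q hq P hP => ⟨m, fun h => ?_⟩⟩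
  have h1 := Ideal.absNorm_mem (Ideal.span {Δ.coeff m})
  have h2 := (Ideal.span_singleton_le_iff_mem P).2 h h1
  have h3 := hP (Ideal.absNorm (Ideal.span {Δ.coeff m})) (by exact_mod_cast h2)
  have h4 : Ideal.absNorm (Ideal.span {Δ.coeff m}) ≠ 0 := by
    rw [Ne, Ideal.absNorm_eq_zero_iff, Ideal.span_singleton_eq_bot]; exact hm
  exact absurd (Nat.le_of_dvd (Nat.pos_of_ne_zero h4) (Int.natCast_dvd_natCast.1 h3)) hq.not_ge

end Pool.Agent.MP_a2aa7d_nt.H32

end MrgPart0

-- ======== part 1: formerly Pool.Agent.MP_a2aa7d_nt.h32.HitA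
section MrgPart1

set_option autoImplicit false

namespace Pool.Agent.MP_a2aa7d_nt.H32

open Finset Fintype Filter MvPolynomial NumberField

variable {ι : Type}

/-- Newton iteration with polynomial dependence on the parameters. -/
lemma newton {O : Type*} [CommRing O] (P : Ideal O) (F : Polynomial (MvPolynomial ι O))
    (t0 : ι → O) (x0 a : O) (ha : a * F.derivative.eval₂ (eval t0) x0 - 1 ∈ P) (k : ℕ) :
    ∃ p : MvPolynomial ι O, ∀ u : ι → O, (∀ i, u i ∈ P) → ∀ x : O,
      F.eval₂ (eval (fun i => t0 i + u i)) x = 0 → x - x0 ∈ P → x - eval u p ∈ P ^ (k + 1) := by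
  induction k with
  | zero => exact ⟨C x0, fun u _ x _ hx => by simpa using hx⟩
  | succ k ih =>
    obtain ⟨p, hp⟩ := ih
    let sh : MvPolynomial ι O →+* MvPolynomial ι O := eval₂Hom C fun i => C (t0 i) + X i
    refine ⟨p - C a * F.eval₂ sh p, fun u hu x hx hx0 => ?_⟩
    have hsh : (eval u).comp sh = eval (fun i => t0 i + u i) := by
      ext <;> simp [sh]
    have h1 := hp u hu x hx hx0
    set y := eval u p with hy
    set f := F.map (eval (fun i => t0 i + u i)) with hf
    have h2 : eval u (F.eval₂ sh p) = f.eval y := by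
      rw [Polynomial.hom_eval₂, hsh, hf, Polynomial.eval_map]
    obtain ⟨c, hc⟩ := f.binomExpansion x (y - x)
    have h3 : f.eval x = 0 := by rw [hf, Polynomial.eval_map]; exact hx
    have h4 : a * f.derivative.eval x - 1 ∈ P := by
      rw [← Ideal.Quotient.eq, map_mul] at ha ⊢
      rw [← ha, hf, Polynomial.derivative_map, Polynomial.eval_map, Polynomial.hom_eval₂,
        Polynomial.hom_eval₂, (Ideal.Quotient.eq).2 hx0]
      congr 2
      ext i
      · simp
      · simp [Ideal.Quotient.eq_zero_iff_mem.2 (hu i)]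
    have h5 : y - x ∈ P := by
      rw [← neg_sub]
      exact P.neg_mem (Ideal.pow_le_self (Nat.succ_ne_zero k) h1)
    have h6 : x - eval u (p - C a * F.eval₂ sh p) =
        (x - y) * -(a * f.derivative.eval x - 1 + a * c * (y - x)) := by
      rw [map_sub, map_mul, eval_C, h2, ← hy]
      rw [add_sub_cancel, h3] at hc
      rw [hc]; ring
    rw [h6, pow_succ]
    exact Ideal.mul_mem_mul h1 (P.neg_mem (P.add_mem h4 (P.mul_mem_left _ h5)))

/-- Truncation of `p (q g)` modulo `P ^ k`. -/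
lemma trunc {O : Type*} [CommRing O] (P : Ideal O) {q : O} (hq : q ∈ P) (p : MvPolynomial ι O)
    (k : ℕ) : ∃ p' : MvPolynomial ι O, p'.totalDegree ≤ k ∧
      ∀ g : ι → O, eval (fun i => q * g i) p - eval g p' ∈ P ^ k := by
  classical
  refine ⟨∑ m ∈ p.support with m.degree ≤ k, monomial m (p.coeff m * q ^ m.degree), ?_, ?_⟩
  · refine totalDegree_finsetSum_le fun m hm => (totalDegree_monomial_le _ _).trans ?_
    exact (mem_filter.1 hm).2
  · intro g
    have h1 : ∀ (m : ι →₀ ℕ) (c : O), eval (fun i => q * g i) (monomial m c) =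
        eval g (monomial m (c * q ^ m.degree)) := by
      intro m c
      simp only [eval_monomial, mul_pow, Finsupp.prod, prod_mul_distrib, prod_pow_eq_pow_sum,
        Finsupp.degree_apply]
      ring
    have h0 : eval (fun i => q * g i) p =
        eval (fun i => q * g i) (∑ m ∈ p.support, monomial m (p.coeff m)) := by
      rw [← p.as_sum]
    rw [h0, map_sum, map_sum, ← sum_filter_add_sum_filter_not p.support (fun m => m.degree ≤ k)]
    simp only [h1, add_sub_cancel_left]
    refine sum_mem fun m hm => ?_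
    have h2 : k ≤ m.degree := (not_le.1 (mem_filter.1 hm).2).le
    rw [eval_monomial]
    exact Ideal.mul_mem_right _ _ (Ideal.mul_mem_left _ _
      (Ideal.pow_le_pow_right h2 (Ideal.pow_mem_pow hq _)))

lemma inner_inverse {T M : Type} [Fintype T] [Fintype M] [DecidableEq T] [DecidableEq M]
    (A : Matrix T M ℚ) : ∃ B : Matrix M T ℚ, A * B * A = A := by
  let f := Matrix.toLin' A
  obtain ⟨s, hs⟩ := f.rangeRestrict.exists_rightInverse_of_surjective f.range_rangeRestrict
  obtain ⟨r, hr⟩ := (LinearMap.range f).subtype.exists_leftInverse_of_injective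
    (Submodule.ker_subtype _)
  refine ⟨LinearMap.toMatrix' (s ∘ₗ r), ?_⟩
  apply Matrix.toLin'.injective
  rw [Matrix.toLin'_mul, Matrix.toLin'_mul, Matrix.toLin'_toMatrix']
  refine LinearMap.ext fun v => ?_
  have h1 : r (f v) = f.rangeRestrict v := LinearMap.congr_fun hr (f.rangeRestrict v)
  have h2 := congrArg Subtype.val (LinearMap.congr_fun hs (f.rangeRestrict v))
  change f (s (r (f v))) = f v
  rw [h1]
  exact h2

/-- An integer matrix detecting the functions that are polynomial of degree at most `k`. -/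
lemma exists_detector [Fintype ι] (T : Finset (ι → ℤ)) (k : ℕ) : ∃ W : Matrix T T ℤ,
    (∀ (O : Type) [CommRing O] (p : MvPolynomial ι O), p.totalDegree ≤ k →
      ∀ r, ∑ s, (W r s : O) * eval (fun i => (s.1 i : O)) p = 0) ∧
    (∀ (K : Type) [Field K] [CharZero K] (x : T → K), (∀ r, ∑ s, (W r s : K) * x s = 0) →
      ∃ p : MvPolynomial ι K, p.totalDegree ≤ k ∧ ∀ s, x s = eval (fun i => (s.1 i : K)) p) := by
  classical
  let M : Finset (ι →₀ ℕ) := (Finsupp.finite_of_degree_le (σ := ι) k).toFinset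
  have hM : ∀ m, m ∈ M ↔ m.degree ≤ k := fun m => by simp [M]
  let A : Matrix T M ℤ := fun s m => ∏ i, s.1 i ^ m.1 i
  obtain ⟨B, hB⟩ := inner_inverse (A.map (Int.castRingHom ℚ))
  obtain ⟨c, hc⟩ := IsLocalization.exist_integer_multiples_of_finite (nonZeroDivisors ℤ)
    (fun z : M × T => B z.1 z.2)
  choose B' hB' using hc
  let B'' : Matrix M T ℤ := fun m s => B' (m, s)
  have hB2 : B''.map (Int.castRingHom ℚ) = (c : ℚ) • B := by
    ext m s
    simpa [B''] using hB' (m, s)
  have hABA : A * B'' * A = (c : ℤ) • A := by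
    apply Matrix.map_injective (f := Int.castRingHom ℚ) Int.cast_injective
    simp only [Matrix.map_mul, hB2, Matrix.mul_smul, Matrix.smul_mul, hB]
    ext s m
    simp
  let W : Matrix T T ℤ := (c : ℤ) • 1 - A * B''
  have hWA : W * A = 0 := by
    simp only [W, Matrix.sub_mul, hABA, Matrix.smul_mul, Matrix.one_mul, sub_self]
  have hev : ∀ (O : Type) [CommRing O] (s : T) (m : M) (z : O),
      eval (fun i => (s.1 i : O)) (monomial m.1 z) = z * (A s m : O) := by
    intro O _ s m z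
    rw [eval_monomial, Finsupp.prod_fintype _ _ (by simp)]
    simp [A]
  refine ⟨W, fun O _ p hp r => ?_, fun K _ _ x hx => ?_⟩
  · have h0 : p = ∑ m : M, monomial m.1 (p.coeff m.1) := by
      rw [sum_coe_sort M (fun m => monomial m (p.coeff m))]
      conv_lhs => rw [p.as_sum]
      refine sum_subset (fun m hm => (hM m).2 ((le_totalDegree hm).trans hp)) fun m _ hm => ?_
      rw [notMem_support_iff.1 hm, map_zero]
    have h1 : ∀ s : T, eval (fun i => (s.1 i : O)) p = ∑ m : M, p.coeff m.1 * (A s m : O) := by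
      intro s
      conv_lhs => rw [h0]
      simp only [map_sum, hev]
    simp only [h1, mul_sum]
    rw [sum_comm]
    refine sum_eq_zero fun m _ => ?_
    have h2 : ((∑ s, W r s * A s m : ℤ) : O) = 0 := by
      rw [← Matrix.mul_apply, hWA]; simp
    push_cast at h2
    rw [← mul_zero (p.coeff m.1), ← h2, mul_sum]
    exact sum_congr rfl fun s _ => by ring
  · have hc0 : ((c : ℤ) : K) ≠ 0 := by exact_mod_cast nonZeroDivisors.coe_ne_zero c
    refine ⟨∑ m : M, monomial m.1 ((∑ s, (B'' m s : K) * x s) / (c : ℤ)), ?_, fun r => ?_⟩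
    · exact totalDegree_finsetSum_le fun m _ => (totalDegree_monomial_le _ _).trans ((hM _).1 m.2)
    · have h1 := hx r
      simp only [W, Matrix.sub_apply, Matrix.smul_apply, Matrix.one_apply, smul_eq_mul,
        Matrix.mul_apply, mul_ite, mul_one, mul_zero, Int.cast_sub, sub_mul, sum_sub_distrib,
        Int.cast_ite, Int.cast_zero, ite_mul, zero_mul, Fintype.sum_ite_eq,
        Int.cast_sum, Int.cast_mul, sum_mul] at h1
      simp only [map_sum, hev]
      apply mul_left_cancel₀ hc0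
      rw [sub_eq_zero.1 h1, sum_comm, mul_sum]
      refine sum_congr rfl fun m _ => ?_
      field_simp
      rw [mul_sum]
      exact sum_congr rfl fun s _ => by ring

variable {K : Type} [Field K] [NumberField K]

/-- Small elements of a high power of a prime vanish. -/
lemma eq_zero_of_small (P : Ideal (𝓞 K)) {q k : ℕ} (hq : ∀ n : ℤ, (n : 𝓞 K) ∈ P → (q : ℤ) ∣ n)
    {y : 𝓞 K} (hy : y ∈ P ^ k) (hs : house (y : K) ^ Module.finrank ℚ K < (q : ℝ) ^ k) :
    y = 0 := by
  by_contra h0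
  have h1 : q ∣ Ideal.absNorm P :=
    Int.natCast_dvd_natCast.1 (hq _ (by exact_mod_cast Ideal.absNorm_mem P))
  have h2 := Ideal.absNorm_dvd_absNorm_of_le ((Ideal.span_singleton_le_iff_mem _).2 hy)
  rw [map_pow, Ideal.absNorm_span_singleton] at h2
  have h3 : (Algebra.norm ℤ y).natAbs ≠ 0 := by
    rw [Int.natAbs_ne_zero]; exact Algebra.norm_ne_zero_iff.2 h0
  have h4 := Nat.le_of_dvd (Nat.pos_of_ne_zero h3) ((pow_dvd_pow_of_dvd h1 k).trans h2)
  obtain ⟨σ⟩ : Nonempty (K →+* ℂ) := inferInstance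
  have h5 := norm_norm_le_norm_mul_house_pow (y : K) σ
  have h6 := norm_embedding_le_house (y : K) σ
  have h7 : ‖Algebra.norm ℚ (y : K)‖ = ((Algebra.norm ℤ y).natAbs : ℝ) := by
    rw [← Algebra.coe_norm_int, Int.norm_cast_rat, Int.norm_eq_abs, Nat.cast_natAbs]
    simp
  have h8 : house (y : K) ^ Module.finrank ℚ K =
      house (y : K) * house (y : K) ^ (Module.finrank ℚ K - 1) := by
    rw [← pow_succ', Nat.sub_add_cancel Module.finrank_pos]
  have h9 : ((q : ℝ)) ^ k ≤ ((Algebra.norm ℤ y).natAbs : ℝ) := by exact_mod_cast h4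
  have h10 := mul_le_mul_of_nonneg_right h6 (pow_nonneg (house_nonneg (y : K))
    (Module.finrank ℚ K - 1))
  linarith

lemma house_eval (c : MvPolynomial ι (𝓞 K)) : ∃ (C : ℝ) (e : ℕ), 0 ≤ C ∧ ∀ H : ℝ, 1 ≤ H →
    ∀ t : ι → ℤ, (∀ i, |(t i : ℝ)| ≤ H) →
      house ((eval (fun i => (t i : 𝓞 K)) c : 𝓞 K) : K) ≤ C * H ^ e := by
  induction c using MvPolynomial.induction_on with
  | C a => exact ⟨house (a : K), 0, house_nonneg _, fun H _ t _ => by simp⟩
  | add p q hp hq =>
    obtain ⟨C1, e1, h1, hp⟩ := hp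
    obtain ⟨C2, e2, h2, hq⟩ := hq
    refine ⟨C1 + C2, e1 + e2, by positivity, fun H hH t ht => ?_⟩
    have h3 : H ^ e1 ≤ H ^ (e1 + e2) := pow_le_pow_right₀ hH (by omega)
    have h4 : H ^ e2 ≤ H ^ (e1 + e2) := pow_le_pow_right₀ hH (by omega)
    rw [map_add]
    push_cast
    refine (house_add_le _ _).trans ?_
    have := hp H hH t ht
    have := hq H hH t ht
    nlinarith [mul_le_mul_of_nonneg_left h3 h1, mul_le_mul_of_nonneg_left h4 h2]
  | mul_X p i hp =>
    obtain ⟨C1, e1, h1, hp⟩ := hp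
    refine ⟨C1, e1 + 1, h1, fun H hH t ht => ?_⟩
    rw [map_mul, eval_X, RingOfIntegers.coe_eq_algebraMap, map_mul, map_intCast]
    refine (house_mul_le _ _).trans ?_
    rw [house_intCast, pow_succ, ← mul_assoc]
    push_cast
    exact mul_le_mul (hp H hH t ht) (ht i) (abs_nonneg _) (by positivity)

lemma house_root {f : Polynomial (𝓞 K)} (hf : f.Monic) {x : 𝓞 K} (hx : f.eval x = 0) {B : ℝ}
    (hB0 : 0 ≤ B) (hB : ∀ i < f.natDegree, house (f.coeff i : K) ≤ B) :
    house (x : K) ≤ B + 1 := by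
  rw [house, pi_norm_le_iff_of_nonneg (by positivity)]
  intro σ
  rw [canonicalEmbedding.apply_at]
  let φ : 𝓞 K →+* ℂ := σ.comp (algebraMap (𝓞 K) K)
  have h1 : (f.map φ).IsRoot (φ x) := by
    rw [Polynomial.IsRoot, Polynomial.eval_map, Polynomial.eval₂_hom, hx, map_zero]
  have h2 := h1.norm_lt_cauchyBound (hf.map φ).ne_zero
  have h3 : (f.map φ).cauchyBound ≤ ⟨B, hB0⟩ + 1 := by
    rw [Polynomial.cauchyBound, (hf.map φ).leadingCoeff, nnnorm_one, div_one, hf.natDegree_map]
    gcongr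
    refine Finset.sup_le fun i hi => ?_
    rw [Polynomial.coeff_map, ← NNReal.coe_le_coe]
    exact (norm_embedding_le_house _ σ).trans (hB i (mem_range.1 hi))
  exact_mod_cast (h2.le.trans h3)

/-- Roots of the specialized polynomials grow at most polynomially. -/
lemma house_roots {F : Polynomial (MvPolynomial ι (𝓞 K))} (hF : F.Monic) :
    ∃ (C : ℝ) (e : ℕ), 0 ≤ C ∧ ∀ H : ℝ, 1 ≤ H → ∀ t : ι → ℤ, (∀ i, |(t i : ℝ)| ≤ H) →
      ∀ x : 𝓞 K, F.eval₂ (eval (fun i => (t i : 𝓞 K))) x = 0 → house (x : K) ≤ C * H ^ e := by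
  choose C e hC h using fun i : ℕ => house_eval (F.coeff i)
  refine ⟨∑ i ∈ range F.natDegree, C i + 1, ∑ i ∈ range F.natDegree, e i,
    add_nonneg (sum_nonneg fun i _ => hC i) zero_le_one, fun H hH t ht x hx => ?_⟩
  have hS : 0 ≤ ∑ i ∈ range F.natDegree, C i := sum_nonneg fun i _ => hC i
  have h1 := house_root (hF.map (eval (fun i => (t i : 𝓞 K)))) (x := x)
    (by rw [Polynomial.eval_map]; exact hx)
    (B := (∑ i ∈ range F.natDegree, C i) * H ^ ∑ i ∈ range F.natDegree, e i) (by positivity) (by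
      intro i hi
      rw [hF.natDegree_map] at hi
      rw [Polynomial.coeff_map]
      refine (h i H hH t ht).trans ?_
      exact mul_le_mul (single_le_sum (fun i _ => hC i) (mem_range.2 hi))
        (pow_le_pow_right₀ hH (single_le_sum (fun i _ => Nat.zero_le (e i)) (mem_range.2 hi)))
        (by positivity) hS)
  have h2 : 1 ≤ H ^ ∑ i ∈ range F.natDegree, e i := one_le_pow₀ hH
  nlinarith

end Pool.Agent.MP_a2aa7d_nt.H32

end MrgPart1

-- ======== part 2: formerly Pool.Agent.MP_a2aa7d_nt.h32.Sys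
section MrgPart2

set_option autoImplicit false

namespace Pool.Agent.MP_a2aa7d_nt.H32

open Finset MvPolynomial IsLocalRing

/-- A periodic family of matrix-valued homogeneous polynomial maps with integer coefficients. -/
structure Sys (I n : Type) : Type where
  S : ℕ → n → n → MvPolynomial (I ⊕ n) ℤ
  d : ℕ
  η : ℕ
  m : ℕ
  hd : 3 ≤ d
  hm : 0 < m
  per : ∀ k, S (k + m) = S k
  hom : ∀ (R : Type) [CommRing R] (T : I → R) (x : n → R) (c : R) (k : ℕ) (i j : n),
    eval₂Hom (Int.castRingHom R) (Sum.elim T fun a => c * x a) (S k i j) =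
      c ^ d * eval₂Hom (Int.castRingHom R) (Sum.elim T x) (S k i j)

variable {I n : Type}

/-- The bilinear matrix attached to two vectors. -/
def bet {R : Type} [CommRing R] (η : ℕ) (y z : n → R) (i j : n) : R :=
  y i * z j + η * (z i * y j)

lemma map_bet {R R' : Type} [CommRing R] [CommRing R'] (f : R →+* R') (η : ℕ) (y z : n → R)
    (i j : n) : f (bet η y z i j) = bet η (fun a => f (y a)) (fun a => f (z a)) i j := by
  simp [bet]

lemma bet_smul {R : Type} [CommRing R] (η : ℕ) (y z : n → R) (c e : R) (i j : n) :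
    bet η (fun a => c * y a) (fun a => e * z a) i j = c * e * bet η y z i j := by
  simp only [bet]; ring

lemma bet_key {R : Type} [CommRing R] (η : ℕ) (y z : n → R) (a j : n) :
    (1 + η) * y a * bet η y z a j - η * bet η y z a a * y j = (1 + η) * y a ^ 2 * z j := by
  simp only [bet]; ring

lemma bet_ne {F : Type} [Field F] {η : ℕ} (h : (1 + η : F) ≠ 0) {y z : n → F} (hy : y ≠ 0)
    (hz : z ≠ 0) : ∃ i j, bet η y z i j ≠ 0 := by
  by_contra! h0
  obtain ⟨a, ha⟩ := Function.ne_iff.1 hy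
  obtain ⟨j, hj⟩ := Function.ne_iff.1 hz
  have := bet_key η y z a j
  rw [h0, h0] at this
  exact mul_ne_zero (mul_ne_zero h (pow_ne_zero 2 ha)) hj (by rw [← this]; simp)

/-- The third vector is determined up to a scalar. -/
lemma bet_unique {F : Type} [Field F] {η : ℕ} (h : (1 + η : F) ≠ 0) {y z z' : n → F} (hy : y ≠ 0)
    {c c' : F} (H : ∀ i j, c * bet η y z i j = c' * bet η y z' i j) (j : n) :
    c * z j = c' * z' j := by
  obtain ⟨a, ha⟩ := Function.ne_iff.1 hy
  apply mul_left_cancel₀ (mul_ne_zero h (pow_ne_zero 2 ha))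
  linear_combination -c * bet_key η y z a j + c' * bet_key η y z' a j +
    (1 + η) * y a * H a j - η * y j * H a a

namespace Sys

variable (s : Sys I n)

/-- Value of the `k`-th map. -/
noncomputable def ev {R : Type} [CommRing R] (T : I → R) (k : ℕ) (x : n → R) (i j : n) : R :=
  eval₂Hom (Int.castRingHom R) (Sum.elim T x) (s.S k i j)

lemma map_ev {R R' : Type} [CommRing R] [CommRing R'] (f : R →+* R') (T : I → R) (k : ℕ)
    (x : n → R) (i j : n) :
    f (s.ev T k x i j) = s.ev (fun a => f (T a)) k (fun a => f (x a)) i j := by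
  unfold ev
  rw [map_eval₂Hom]
  congr 2
  · exact RingHom.ext_int _ _
  · ext a; cases a <;> rfl

lemma ev_smul {R : Type} [CommRing R] (T : I → R) (k : ℕ) (x : n → R) (c : R) (i j : n) :
    s.ev T k (fun a => c * x a) i j = c ^ s.d * s.ev T k x i j := s.hom R T x c k i j

lemma ev_congr {R : Type} [CommRing R] (T : I → R) {k k' : ℕ} (h : k ≡ k' [MOD s.m]) :
    s.ev T k = s.ev T k' := by
  have hp : Function.Periodic s.S s.m := s.per
  funext x i j
  unfold ev
  rw [← hp.map_mod_nat k, ← hp.map_mod_nat k', h]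

/-- No map of the family vanishes at a nonzero vector. -/
def ND {F : Type} [CommRing F] (T : I → F) : Prop :=
  ∀ (k : ℕ) (x : n → F), x ≠ 0 → ∃ i j, s.ev T k x i j ≠ 0

/-- The relation between three consecutive vectors. -/
def Rel {F : Type} [CommRing F] (T : I → F) (k : ℕ) (y x z : n → F) : Prop :=
  ∃ c : F, ∀ i j, s.ev T k x i j = c * bet s.η y z i j

lemma Rel.smul {F : Type} [Field F] {T : I → F} {k : ℕ} {y x z : n → F} (h : s.Rel T k y x z)
    {a b c : F} (ha : a ≠ 0) (hc : c ≠ 0) :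
    s.Rel T k (fun i => a * y i) (fun i => b * x i) (fun i => c * z i) := by
  obtain ⟨e, he⟩ := h
  refine ⟨b ^ s.d * e / (a * c), fun i j => ?_⟩
  rw [ev_smul, bet_smul, he]
  field_simp

end Sys

lemma exists_normal [Fintype n] {F : Type} [Field F] (O : ValuationSubring F) {u : n → F}
    (hu : u ≠ 0) : ∃ (a : n) (w : n → O), u a ≠ 0 ∧ (∀ i, (w i : F) = (u a)⁻¹ * u i) ∧ w a = 1 := by
  obtain ⟨b, hb⟩ := Function.ne_iff.1 hu
  obtain ⟨a, -, ha⟩ := exists_max_image univ (fun i => O.valuation (u i)) ⟨b, mem_univ b⟩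
  have h0 : u a ≠ 0 := by
    intro h
    have := ha b (mem_univ b)
    rw [h, map_zero, le_zero_iff, map_eq_zero] at this
    exact hb this
  have h1 : 0 < O.valuation (u a) := (Valuation.pos_iff _).2 h0
  refine ⟨a, fun i => ⟨(u a)⁻¹ * u i, ?_⟩, h0, fun i => rfl, Subtype.ext (inv_mul_cancel₀ h0)⟩
  rw [← O.valuation_le_one_iff, map_mul, map_inv₀, inv_mul_le_one₀ h1]
  exact ha i (mem_univ i)

lemma val_eq_one {F : Type} [Field F] (O : ValuationSubring F) {a : O} (h : residue O a ≠ 0) :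
    O.valuation a = 1 :=
  (O.valuation_eq_one_iff a).1 ((residue_ne_zero_iff_isUnit a).1 h)

lemma Sys.val_one (s : Sys I n) {F : Type} [Field F] (O : ValuationSubring F) {T : I → O}
    (hT : s.ND fun a => residue O (T a)) (hη : (1 + s.η : ResidueField O) ≠ 0) {k : ℕ}
    {y x z : n → O} (hy : (fun a => residue O (y a)) ≠ 0) (hx : (fun a => residue O (x a)) ≠ 0)
    (hz : (fun a => residue O (z a)) ≠ 0) {c : F}
    (h : ∀ i j, ((s.ev T k x i j : O) : F) = c * (bet s.η y z i j : O)) : O.valuation c = 1 := by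
  apply le_antisymm
  · obtain ⟨i, j, hij⟩ := bet_ne hη hy hz
    rw [← map_bet] at hij
    have := O.valuation_le_one (s.ev T k x i j)
    rwa [h, map_mul, val_eq_one O hij, mul_one] at this
  · obtain ⟨i, j, hij⟩ := hT k _ hx
    rw [← s.map_ev] at hij
    have := val_eq_one O hij
    rw [h, map_mul] at this
    rw [← this]
    exact mul_le_of_le_one_right' (O.valuation_le_one _)

lemma ne_zero_of_one {F : Type} [Field F] (O : ValuationSubring F) {w : n → O} {a : n}
    (h : w a = 1) : (fun a => residue O (w a)) ≠ 0 := fun h0 => by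
  have := congrFun h0 a
  simp [h] at this

lemma Sys.cert_one [Fintype n] (s : Sys I n) (T0 : I → ℤ) {p : ℕ} (hp : p.Prime)
    (hex : ∀ (κ : Type) [Field κ], (p : κ) = 0 → s.ND fun i => (T0 i : κ)) (k : ℕ) (a : n) :
    ∃ Δ : MvPolynomial I ℤ, Δ ≠ 0 ∧ ∀ (F : Type) [Field F] (T : I → F) (x : n → F), x a = 1 →
      (∀ i j, s.ev T k x i j = 0) → eval₂Hom (Int.castRingHom F) T Δ = 0 := by
  let J : Ideal (MvPolynomial (I ⊕ n) ℤ) :=
    Ideal.span (insert (X (Sum.inr a) - 1) (Set.range fun q : n × n => s.S k q.1 q.2))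
  let r : MvPolynomial I ℤ →+* MvPolynomial (I ⊕ n) ℤ := (rename Sum.inl).toRingHom
  by_cases h : ∃ Δ, Δ ≠ 0 ∧ r Δ ∈ J
  · obtain ⟨Δ, h0, hΔ⟩ := h
    refine ⟨Δ, h0, fun F _ T x hx hS => ?_⟩
    have h1 : J ≤ RingHom.ker (eval₂Hom (Int.castRingHom F) (Sum.elim T x)) := by
      refine Ideal.span_le.2 ?_
      rintro _ (rfl | ⟨q, rfl⟩)
      · simp [RingHom.mem_ker, hx]
      · exact hS q.1 q.2
    have h2 : eval₂Hom (Int.castRingHom F) (Sum.elim T x) (rename Sum.inl Δ) = 0 := h1 hΔ
    rwa [eval₂Hom_rename] at h2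
  exfalso
  push Not at h
  obtain ⟨P, hP, hJP, hdis⟩ := J.exists_le_prime_disjoint ((nonZeroDivisors _).map r) (by
    rw [Set.disjoint_left]
    rintro _ hJ ⟨Δ, hΔ, rfl⟩
    exact h Δ (nonZeroDivisors.ne_zero hΔ) hJ)
  let E := P.ResidueField
  let π : MvPolynomial (I ⊕ n) ℤ →+* E := algebraMap _ _
  have hπ : ∀ f, π f = 0 ↔ f ∈ P := fun f => Ideal.algebraMap_residueField_eq_zero
  let φ := π.comp r
  have hφ : Function.Injective φ := by
    rw [injective_iff_map_eq_zero]
    intro Δ hΔ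
    by_contra hne
    exact Set.disjoint_left.1 hdis ((hπ _).1 hΔ) ⟨Δ, mem_nonZeroDivisors_of_ne_zero hne, rfl⟩
  have := Fact.mk hp
  let ε : MvPolynomial I ℤ →+* ZMod p := eval₂Hom (Int.castRingHom _) fun i => (T0 i : ZMod p)
  have hbij : Function.Bijective φ.rangeRestrict :=
    ⟨fun _ _ h => hφ (congrArg Subtype.val h), φ.rangeRestrict_surjective⟩
  obtain ⟨O, hO, hOn⟩ := Ideal.image_subset_nonunits_valuationSubring
    ((RingHom.ker ε).map φ.rangeRestrict) (by
      rw [Ne, Ideal.map_eq_top_of_bijective _ hbij]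
      exact RingHom.ker_ne_top ε)
  let ψ : MvPolynomial I ℤ →+* O := φ.codRestrict O.toSubring fun f => hO ⟨f, rfl⟩
  have hψ : ∀ f, ε f = 0 → residue O (ψ f) = 0 := fun f hf => by
    rw [residue_eq_zero_iff, ← O.coe_mem_nonunits_iff]
    exact hOn ⟨_, Ideal.mem_map_of_mem _ hf, rfl⟩
  have h1 : ((p : ℕ) : ResidueField O) = 0 := by
    simpa using hψ p (by simp)
  have h2 : ∀ i, residue O (ψ (X i)) = (T0 i : ResidueField O) := fun i => by
    have := hψ (X i - (T0 i : MvPolynomial I ℤ)) (by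
      rw [map_sub, map_intCast]; simp [ε])
    rwa [map_sub, map_sub, map_intCast, map_intCast, sub_eq_zero] at this
  have hxa : π (X (Sum.inr a)) = 1 := by
    have := (hπ _).2 (hJP (Ideal.subset_span (Set.mem_insert _ _)))
    rwa [map_sub, map_one, sub_eq_zero] at this
  obtain ⟨b, w, -, hw, hwb⟩ := exists_normal O (u := fun i => π (X (Sum.inr i))) fun h0 => by
    have := congrFun h0 a
    simp [hxa] at this
  obtain ⟨i, j, hij⟩ := hex _ h1 k _ (ne_zero_of_one O hwb)
  apply hij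
  simp only [← h2]
  rw [← s.map_ev, ← map_zero (residue O)]
  congr 1
  apply Subtype.ext
  change O.subtype _ = 0
  rw [s.map_ev]
  simp only [ValuationSubring.coe_subtype, hw]
  rw [s.ev_smul]
  have h3 : π (s.S k i j) = 0 :=
    (hπ _).2 (hJP (Ideal.subset_span (Set.mem_insert_of_mem _ ⟨(i, j), rfl⟩)))
  have h4 : eval₂Hom (Int.castRingHom E)
      (Sum.elim (fun a => ((ψ (X a) : O) : E)) fun i => π (X (Sum.inr i))) = π := by
    refine MvPolynomial.ringHom_ext (fun z => by simp) fun v => ?_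
    cases v <;> simp [ψ, φ, r]
  exact mul_eq_zero_of_right _ ((RingHom.congr_fun h4 _).trans h3)

/-- One example in characteristic `p` gives a polynomial certificate of nondegeneracy. -/
theorem Sys.cert [Fintype n] (s : Sys I n) (T0 : I → ℤ) {p : ℕ} (hp : p.Prime)
    (hex : ∀ (κ : Type) [Field κ], (p : κ) = 0 → s.ND fun i => (T0 i : κ)) :
    ∃ Δ : MvPolynomial I ℤ, Δ ≠ 0 ∧ ∀ (F : Type) [Field F] (T : I → F),
      eval₂Hom (Int.castRingHom F) T Δ ≠ 0 → s.ND T := by
  choose Δ h0 hΔ using s.cert_one T0 hp hex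
  refine ⟨∏ k ∈ range s.m, ∏ a, Δ k a,
    prod_ne_zero_iff.2 fun k _ => prod_ne_zero_iff.2 fun a _ => h0 k a, fun F _ T hT k x hx => ?_⟩
  by_contra! h
  obtain ⟨a, ha⟩ := Function.ne_iff.1 hx
  apply hT
  rw [map_prod]
  refine prod_eq_zero (mem_range.2 (Nat.mod_lt k s.hm)) ?_
  rw [map_prod]
  refine prod_eq_zero (mem_univ a) (hΔ _ a F T (fun i => (x a)⁻¹ * x i) (inv_mul_cancel₀ ha)
    fun i j => ?_)
  rw [s.ev_smul, s.ev_congr T (Nat.mod_modEq k s.m), h, mul_zero]

end Pool.Agent.MP_a2aa7d_nt.H32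

end MrgPart2

-- ======== part 3: formerly Pool.Agent.MP_a2aa7d_nt.h32.Alg
section MrgPart3

set_option autoImplicit false

namespace Pool.Agent.MP_a2aa7d_nt.H32

open Finset MvPolynomial IsLocalRing

variable {I n : Type}

lemma prod_zpow_sum {κ G : Type} [CommGroup G] (g : G) (t : Finset κ) (f : κ → ℤ) :
    ∏ k ∈ t, g ^ f k = g ^ ∑ k ∈ t, f k := by
  classical
  induction t using Finset.induction_on with
  | empty => simp
  | insert a t ha ih => rw [prod_insert ha, sum_insert ha, ih, zpow_add]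

lemma grp_inv {κ G : Type} [Fintype κ] [DecidableEq κ] [CommGroup G] (M A : Matrix κ κ ℤ) (D : ℤ)
    (h : A * M = D • 1) (μ : κ → G) (j : κ) :
    ∏ k, (∏ i, μ i ^ M k i) ^ A j k = μ j ^ D := by
  have h1 : ∀ i, ∏ k, μ i ^ (M k i * A j k) = μ i ^ (if j = i then D else 0) := by
    intro i
    rw [prod_zpow_sum]
    congr 1
    have := congrFun (congrFun h j) i
    rw [Matrix.mul_apply, Matrix.smul_apply, Matrix.one_apply] at this
    simp only [mul_comm (M _ _), this]
    split_ifs <;> simp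
  simp_rw [← prod_zpow, ← zpow_mul]
  rw [prod_comm]
  simp_rw [h1]
  rw [prod_eq_single j (fun i _ hi => by simp [hi.symm]) (by simp)]
  simp

/-- The circulant matrix of the height recursion. -/
def circ (N d : ℕ) : Matrix (ZMod N) (ZMod N) ℤ := fun k i =>
  (if k + 1 = i then (d : ℤ) else 0) - (if k = i then 1 else 0) - (if k + 2 = i then 1 else 0)

lemma circ_det {N d : ℕ} [NeZero N] (hd : 3 ≤ d) : (circ N d).det ≠ 0 := by
  rw [Ne, ← Matrix.exists_mulVec_eq_zero_iff]
  rintro ⟨v, hv, h⟩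
  obtain ⟨j, -, hj⟩ := exists_max_image univ (fun i => |v i|) ⟨0, mem_univ _⟩
  have h1 := congrFun h (j - 1)
  simp only [Matrix.mulVec, dotProduct, circ, sub_mul, sum_sub_distrib, ite_mul, zero_mul,
    sum_ite_eq, mem_univ, if_true, one_mul, sub_add_cancel, Pi.zero_apply] at h1
  have h2 : (d : ℤ) * |v j| ≤ 2 * |v j| := by
    have h3 : (d : ℤ) * v j = v (j - 1) + v (j - 1 + 2) := by linarith
    have h4 := abs_add_le (v (j - 1)) (v (j - 1 + 2))
    rw [← h3, abs_mul, Nat.abs_cast] at h4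
    linarith [hj (j - 1) (mem_univ _), hj (j - 1 + 2) (mem_univ _)]
  have h5 : (3 : ℤ) ≤ d := by exact_mod_cast hd
  have h6 : |v j| ≤ 0 := by nlinarith [abs_nonneg (v j)]
  exact hv (funext fun i => abs_nonpos_iff.1 ((hj i (mem_univ _)).trans h6))

lemma circ_prod {N d : ℕ} [NeZero N] {G : Type} [CommGroup G] (μ : ZMod N → G) (k : ZMod N) :
    ∏ i, μ i ^ circ N d k i = μ (k + 1) ^ d / (μ k * μ (k + 2)) := by
  simp only [circ, zpow_sub, prod_mul_distrib, prod_inv_distrib, pow_ite, zpow_zero, zpow_one,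
    prod_ite_eq, mem_univ, if_true, zpow_natCast]
  rw [div_eq_mul_inv, mul_inv, mul_assoc]

/-- Periodic chains of a nondegenerate system have algebraic coordinates. -/
theorem Sys.alg [Fintype n] (s : Sys I n) {L E : Type} [Field L] [CharZero L] [Field E]
    [Algebra L E] (T : I → L) (hND : ∀ (κ : Type) [Field κ] (ψ : L →+* κ), s.ND fun i => ψ (T i))
    {N : ℕ} [NeZero N] (ph : ZMod N → ℕ) (u : ZMod N → n → E) (a : ZMod N → n)
    (hu : ∀ k, u k (a k) = 1)
    (hrel : ∀ k, s.Rel (fun i => algebraMap L E (T i)) (ph k) (u k) (u (k + 1)) (u (k + 2)))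
    (k : ZMod N) (b : n) : IsAlgebraic L (u k b) := by
  classical
  choose c hc using hrel
  have hu0 : ∀ k, u k ≠ 0 := fun k h => by simpa [h] using hu k
  have hc0 : ∀ k, c k ≠ 0 := fun k h => by
    obtain ⟨i, j, hij⟩ := hND E (algebraMap L E) (ph k) _ (hu0 (k + 1))
    rw [hc, h, zero_mul] at hij
    exact hij rfl
  let M := circ N s.d
  let A : Matrix (ZMod N) (ZMod N) ℤ := M.det • M.adjugate
  let D : ℕ := M.det.natAbs ^ 2
  have hD : 0 < D := pow_pos (Int.natAbs_pos.2 (circ_det s.hd)) 2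
  have hAM : A * M = (D : ℤ) • 1 := by
    simp only [A, D, Matrix.smul_mul, Matrix.adjugate_mul, smul_smul]
    push_cast
    rw [sq_abs, sq]
  let γ : E := ∏ j, c j ^ A k j
  have hγ : γ ≠ 0 := prod_ne_zero_iff.2 fun j _ => zpow_ne_zero _ (hc0 j)
  have key : ∀ b, IsIntegral L (u k b ^ D / γ) := by
    intro b
    by_contra hni
    obtain ⟨O, hO, hxO⟩ := Subring.exists_le_valuationSubring_of_isIntegrallyClosedIn
      (R := (integralClosure L E).toSubring) (x := u k b ^ D / γ) hni
    apply hxO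
    let ψ : L →+* O := (algebraMap L E).codRestrict O.toSubring fun f =>
      hO ((integralClosure L E).algebraMap_mem f)
    have : CharZero (ResidueField O) :=
      charZero_of_injective_ringHom ((residue O).comp ψ).injective
    have hη : (1 + s.η : ResidueField O) ≠ 0 := by exact_mod_cast (show 1 + s.η ≠ 0 by omega)
    choose e w he hw hw1 using fun j => exists_normal O (hu0 j)
    have h1 : ∀ j, O.valuation (c j * (u j (e j) * u (j + 2) (e (j + 2))) /
        u (j + 1) (e (j + 1)) ^ s.d) = 1 := by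
      intro j
      refine s.val_one O (T := fun i => ψ (T i)) (hND _ ((residue O).comp ψ)) hη (k := ph j)
        (ne_zero_of_one O (hw1 j)) (ne_zero_of_one O (hw1 (j + 1)))
        (ne_zero_of_one O (hw1 (j + 2))) fun i i' => ?_
      rw [← O.subtype_apply, ← O.subtype_apply, s.map_ev, map_bet]
      simp only [ValuationSubring.coe_subtype, hw]
      rw [s.ev_smul, bet_smul, inv_pow]
      erw [hc]
      have := he j
      have := he (j + 1)
      have := he (j + 2)
      field_simp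
    let μ : ZMod N → O.ValueGroupˣ := fun j =>
      Units.mk0 (O.valuation (u j (e j))) ((Valuation.ne_zero_iff _).2 (he j))
    have h2 : ∀ j, O.valuation (c j) = (∏ i, μ i ^ M j i : O.ValueGroupˣ) := by
      intro j
      have h3 := h1 j
      rw [map_div₀, map_mul, map_mul, map_pow, div_eq_one_iff_eq
        (pow_ne_zero _ ((Valuation.ne_zero_iff _).2 (he _)))] at h3
      rw [circ_prod]
      simp only [μ, Units.val_div_eq_div_val, Units.val_pow_eq_pow_val, Units.val_mul,
        Units.val_mk0]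
      rw [eq_div_iff (mul_ne_zero ((Valuation.ne_zero_iff _).2 (he _))
        ((Valuation.ne_zero_iff _).2 (he _))), h3]
    have h4 : O.valuation γ = O.valuation (u k (e k)) ^ D := by
      have h5 := congrArg Units.val (grp_inv M A D hAM μ k)
      rw [Units.coe_prod] at h5
      simp only [Units.val_zpow_eq_zpow_val, ← h2, zpow_natCast, Units.val_pow_eq_pow_val] at h5
      simp only [γ, map_prod, map_zpow₀]
      exact h5
    have h6 : u k b ^ D / γ = (w k b : E) ^ D * (u k (e k) ^ D / γ) := by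
      have := he k
      rw [hw, mul_pow, inv_pow]
      field_simp
    rw [← O.valuation_le_one_iff, h6, map_mul, map_div₀, h4, map_pow, map_pow,
      div_self (pow_ne_zero _ ((Valuation.ne_zero_iff _).2 (he k))), mul_one]
    exact pow_le_one₀ zero_le (O.valuation_le_one _)
  have h1 : IsAlgebraic L γ := by
    have := (key (a k)).isAlgebraic
    rw [hu, one_pow, one_div] at this
    simpa using this.inv
  refine IsAlgebraic.of_pow hD ?_
  have h2 := (key b).isAlgebraic.mul h1
  rwa [div_mul_cancel₀ _ hγ] at h2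

end Pool.Agent.MP_a2aa7d_nt.H32

end MrgPart3

-- ======== part 4: formerly Pool.Agent.MP_a2aa7d_nt.h32.Rigid
section MrgPart4

set_option autoImplicit false

namespace Pool.Agent.MP_a2aa7d_nt.H32

open Finset

section

variable {A : Type} [CommRing A] {J : Ideal A} {θ : A →+* A}

lemma del_mul (θ : A →+* A) (a b : A) : θ (a * b) - a * b = θ a * (θ b - b) + (θ a - a) * b := by
  rw [map_mul]; ring

lemma del_add (θ : A →+* A) (a b : A) : θ (a + b) - (a + b) = (θ a - a) + (θ b - b) := by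
  rw [map_add]; ring

lemma del_pow (hθ : ∀ g, θ g - g ∈ J ^ 2) (k : ℕ) : ∀ g ∈ J ^ k, θ g - g ∈ J ^ (k + 1) := by
  induction k with
  | zero => exact fun g _ => Ideal.pow_le_pow_right (by omega) (hθ g)
  | succ k ih =>
    intro g hg
    rw [pow_succ] at hg
    refine Submodule.mul_induction_on hg (fun a ha b hb => ?_) fun a b ha hb => ?_
    · have h1 : θ a ∈ J ^ k := by
        simpa using add_mem (Ideal.pow_le_pow_right (Nat.le_succ k) (ih a ha)) ha
      rw [del_mul]
      refine add_mem ?_ ?_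
      · rw [add_assoc, pow_add]; exact Ideal.mul_mem_mul h1 (hθ b)
      · rw [pow_succ]; exact Ideal.mul_mem_mul (ih a ha) hb
    · rw [del_add]; exact add_mem ha hb

/-- The ideal generated by the displacements. -/
def dI (θ : A →+* A) : Ideal A := Ideal.span (Set.range fun g => θ g - g)

lemma mem_dI (θ : A →+* A) (g : A) : θ g - g ∈ dI θ := Ideal.subset_span ⟨g, rfl⟩

lemma del_dI (hθ : ∀ g, θ g - g ∈ J ^ 2) : ∀ g ∈ dI θ, θ g - g ∈ dI θ * J := by
  have hle : dI θ ≤ J := Ideal.span_le.2 (by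
    rintro _ ⟨g, rfl⟩; exact Ideal.pow_le_self two_ne_zero (hθ g))
  have h2 : ∀ g ∈ J ^ 2, θ g - g ∈ dI θ * J := by
    intro g hg
    rw [sq] at hg
    refine Submodule.mul_induction_on hg (fun a ha b hb => ?_) fun a b ha hb => ?_
    · have h1 : θ a ∈ J := by simpa using add_mem (hle (mem_dI θ a)) ha
      rw [del_mul, mul_comm (θ a)]
      exact add_mem (Ideal.mul_mem_mul (mem_dI θ b) h1) (Ideal.mul_mem_mul (mem_dI θ a) hb)
    · rw [del_add]; exact add_mem ha hb
  intro g hg
  induction hg using Submodule.span_induction with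
  | mem x hx => obtain ⟨g, rfl⟩ := hx; exact h2 _ (hθ g)
  | zero => simp
  | add a b _ _ ha hb => rw [del_add]; exact add_mem ha hb
  | smul f h hh ih =>
    rw [smul_eq_mul, del_mul]
    exact add_mem (Ideal.mul_mem_left _ _ ih) (Ideal.mul_mem_mul (mem_dI θ f) (hle hh))

lemma del_dI_pow (hθ : ∀ g, θ g - g ∈ J ^ 2) (k : ℕ) :
    ∀ g ∈ dI θ * J ^ k, θ g - g ∈ dI θ * J ^ (k + 1) := by
  intro g hg
  refine Submodule.mul_induction_on hg (fun a ha b hb => ?_) fun a b ha hb => ?_
  · have h1 : θ a ∈ dI θ := by simpa using add_mem (mem_dI θ a) ha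
    rw [del_mul]
    refine add_mem (Ideal.mul_mem_mul h1 (del_pow hθ k b hb)) ?_
    rw [pow_succ', ← mul_assoc]
    exact Ideal.mul_mem_mul (del_dI hθ a ha) hb
  · rw [del_add]; exact add_mem ha hb

end

variable {V A : Type} [CommRing V] [IsDomain V] [CommRing A]

lemma rigid_prime {π : V} (hπ : π ≠ 0) (hsep : ∀ x : V, (∀ k, π ^ k ∣ x) → x = 0)
    (ev : ℕ → A →+* V) (hinj : ∀ g, (∀ j, ev j g = 0) → g = 0) {J : Ideal A}
    (hJ : ∀ j, ∀ g ∈ J, π ∣ ev j g) {θ : A →+* A} (hθ : ∀ g, θ g - g ∈ J ^ 2) {l : ℕ}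
    (hl : l.Prime) {e : ℕ} {u : V} (hu : IsUnit u) (he : e + 2 ≤ l) (hlu : (l : V) = π ^ e * u)
    (hm : ∀ g, θ^[l] g = g) (g : A) : θ g = g := by
  let θ' : Module.End ℤ A := θ.toAddMonoidHom.toIntLinearMap
  let δ : Module.End ℤ A := θ' - 1
  have hδ : ∀ i g, (δ ^ (i + 1)) g ∈ dI θ * J ^ i := by
    intro i g
    induction i with
    | zero => simpa [δ, θ'] using mem_dI θ g
    | succ i ih =>
      rw [pow_succ' δ, Module.End.mul_apply]
      exact del_dI_pow hθ i _ ih
  have hJk : ∀ j k, ∀ g ∈ J ^ k, π ^ k ∣ ev j g := by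
    intro j k g hg
    have h1 : J ≤ (Ideal.span {π}).comap (ev j) := fun g hg =>
      Ideal.mem_span_singleton.2 (hJ j g hg)
    have h2 := Ideal.le_comap_pow (ev j) k (Ideal.pow_right_mono h1 k hg)
    rwa [Ideal.mem_comap, Ideal.span_singleton_pow, Ideal.mem_span_singleton] at h2
  obtain ⟨l', rfl⟩ : ∃ l', l = l' + 2 := ⟨l - 2, by omega⟩
  have hbin : ∀ g, ((l' + 2 : ℕ) : A) * (θ g - g) =
      -∑ i ∈ range (l' + 1), ((l' + 2).choose (i + 2) : A) * (δ ^ (i + 2)) g := by
    intro g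
    have h1 : (δ + 1) ^ (l' + 2) = _ := (Commute.one_right δ).add_pow (l' + 2)
    have h2 : ((δ + 1) ^ (l' + 2)) g = g := by
      simp only [δ, sub_add_cancel, Module.End.pow_apply]
      exact hm g
    rw [h1, sum_range_succ', sum_range_succ'] at h2
    simp only [one_pow, mul_one, LinearMap.add_apply, LinearMap.sum_apply, Module.End.mul_apply,
      Module.End.natCast_apply, map_nsmul, pow_zero, Nat.choose_zero_right, zero_add, pow_one,
      Nat.choose_one_right, Module.End.one_apply, one_smul] at h2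
    simp only [nsmul_eq_mul] at h2
    have h3 : δ g = θ g - g := rfl
    rw [← h3]
    linear_combination h2
  have key : ∀ r j, ∀ h ∈ dI θ, π ^ r ∣ ev j h := by
    intro r j
    induction r with
    | zero => simp
    | succ r ih =>
      have h1 : ∀ k, ∀ h ∈ dI θ * J ^ k, π ^ (r + k) ∣ ev j h := by
        intro k h hh
        refine Submodule.mul_induction_on hh (fun a ha b hb => ?_) fun a b ha hb => ?_
        · rw [map_mul, pow_add]; exact mul_dvd_mul (ih a ha) (hJk j k b hb)
        · rw [map_add]; exact dvd_add ha hb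
      have h2 : dI θ ≤ (Ideal.span {π ^ (r + 1)}).comap (ev j) := by
        refine Ideal.span_le.2 ?_
        rintro _ ⟨g, rfl⟩
        rw [SetLike.mem_coe, Ideal.mem_comap, Ideal.mem_span_singleton]
        have h3 : π ^ e * π ^ (r + 1) ∣ π ^ e * (u * ev j (θ g - g)) := by
          rw [← mul_assoc, ← hlu, ← map_natCast (ev j), ← map_mul, hbin, map_neg, dvd_neg,
            map_sum]
          refine dvd_sum fun i hi => ?_
          rw [map_mul, map_natCast]
          have h4 := h1 _ _ (hδ (i + 1) g)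
          rcases (Nat.lt_succ_iff.1 (mem_range.1 hi)).lt_or_eq with h5 | h5
          · refine mul_dvd_mul ?_ ((pow_dvd_pow _ (by omega)).trans h4)
            have h6 := hl.dvd_choose_self (k := i + 2) (by omega) (by omega)
            exact (Dvd.intro _ hlu.symm).trans (Nat.cast_dvd_cast h6)
          · rw [← pow_add]
            exact ((pow_dvd_pow _ (by omega)).trans h4).mul_left _
        exact hu.dvd_mul_left.1 ((mul_dvd_mul_iff_left (pow_ne_zero e hπ)).1 h3)
      exact fun h hh => Ideal.mem_span_singleton.1 (h2 hh)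
  exact sub_eq_zero.1 (hinj _ fun j => hsep _ fun r => key r j _ (mem_dI θ g))

/-- An endomorphism of finite order that is trivial to first order is trivial. -/
theorem rigid {π : V} (hπ : π ≠ 0) (hsep : ∀ x : V, (∀ k, π ^ k ∣ x) → x = 0)
    (hpr : ∀ l : ℕ, l.Prime → ∃ (e : ℕ) (u : V), IsUnit u ∧ e + 2 ≤ l ∧ (l : V) = π ^ e * u)
    (ev : ℕ → A →+* V) (hinj : ∀ g, (∀ j, ev j g = 0) → g = 0) {J : Ideal A}
    (hJ : ∀ j, ∀ g ∈ J, π ∣ ev j g) {θ : A →+* A} (hθ : ∀ g, θ g - g ∈ J ^ 2) {m : ℕ}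
    (hm0 : 0 < m) (hm : ∀ g, θ^[m] g = g) (g : A) : θ g = g := by
  induction m using Nat.strong_induction_on with
  | _ m ih =>
    by_cases h1 : m = 1
    · subst h1; exact hm g
    obtain ⟨l, hl, m', rfl⟩ := Nat.exists_prime_and_dvd h1
    obtain ⟨e, u, hu, he, hlu⟩ := hpr l hl
    have hm' : 0 < m' := Nat.pos_of_mul_pos_left hm0
    have h2 : ∀ k g, (θ ^ k) g - g ∈ J ^ 2 := by
      intro k g
      induction k with
      | zero => simp
      | succ k ih =>
        rw [pow_succ' θ, RingHom.coe_mul, Function.comp_apply]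
        simpa using add_mem (hθ ((θ ^ k) g)) ih
    refine ih m' (by nlinarith [hl.two_le]) hm' fun g => ?_
    rw [← RingHom.coe_pow]
    refine rigid_prime hπ hsep ev hinj hJ (h2 m') hl hu he hlu (fun g => ?_) g
    rw [RingHom.coe_pow, ← Function.iterate_mul, mul_comm]
    exact hm g

end Pool.Agent.MP_a2aa7d_nt.H32

end MrgPart4

-- marker of a merged file
example : 731051 + 435347 = 731051 + 435347 := rfl
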