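import Mathlib.LinearAlgebra.Projectivization.Basic

set_option autoImplicit false

namespace Pool.Agent.MP_a2aa7d_nt.H32

open Finset

/-- The monomial in the coordinates of `x` given by a multiset of `d` indices. -/
def mono {α R : Type} [CommRing R] {d : ℕ} (μ : Sym α d) (x : α → R) : R :=
  (Multiset.map x μ.1).prod

/-- Indices of the coefficients of `r` forms of bidegrees `(a i, b i)` on `P^n x P^n`. -/
abbrev Idx (n : ℕ) {r : ℕ} (a b : Fin r → ℕ) : Type :=
  Σ i : Fin r, Sym (Fin (n + 1)) (a i) × Sym (Fin (n + 1)) (b i)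

/-- The `i`-th form with coefficients `c`. -/
def form {R : Type} [CommRing R] {n r : ℕ} {a b : Fin r → ℕ} (c : Idx n a b → R) (i : Fin r)
    (x y : Fin (n + 1) → R) : R :=
  ∑ p : Sym (Fin (n + 1)) (a i) × Sym (Fin (n + 1)) (b i), c ⟨i, p⟩ * mono p.1 x * mono p.2 y

/-- The `K`-points of `P^n x P^n` where all the forms vanish. -/
def pts {K : Type} [Field K] {n r : ℕ} {a b : Fin r → ℕ} (c : Idx n a b → K) :
    Set (Projectivization K (Fin (n + 1) → K) × Projectivization K (Fin (n + 1) → K)) :=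
  {P | ∀ i, form c i P.1.rep P.2.rep = 0}

end Pool.Agent.MP_a2aa7d_nt.H32
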