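import Mathlib.RingTheory.Polynomial.Eisenstein.Basic
import Mathlib.Algebra.GroupWithZero.Submonoid.CancelMulZero
import Mathlib.RingTheory.Artinian.Instances
import Mathlib.RingTheory.PicardGroup
import Mathlib.Algebra.MvPolynomial.Funext
import Mathlib.LinearAlgebra.FreeModule.IdealQuotient
import Mathlib.RingTheory.DedekindDomain.AdicValuation
import Mathlib.RingTheory.Polynomial.IsIntegral
import Mathlib.RingTheory.Polynomial.Resultant.Basic
import Mathlib.NumberTheory.Bertrand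
import Mathlib.RingTheory.MvPolynomial.IrreducibleQuadratic
import Pool.Agent.MP_a2aa7d_nt.h32.Rigid
import Pool.Agent.MP_a2aa7d_nt.h32.Defs

-- ======== part 0: formerly Pool.Agent.MP_a2aa7d_nt.h32.Hit
section MrgPart0

set_option autoImplicit false

namespace Pool.Agent.MP_a2aa7d_nt.H32

open Finset Fintype Filter MvPolynomial NumberField

variable {ι : Type}

lemma totalDegree_subst {O K : Type*} [CommRing O] [CommRing K] (f : O →+* K)
    (l : ι → MvPolynomial ι K) (hl : ∀ i, (l i).totalDegree ≤ 1) (c : MvPolynomial ι O) :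
    (eval₂Hom (C.comp f) l c).totalDegree ≤ c.totalDegree := by
  rw [coe_eval₂Hom, eval₂_eq]
  refine totalDegree_finsetSum_le fun m hm => (totalDegree_mul _ _).trans ?_
  rw [RingHom.comp_apply, totalDegree_C, zero_add]
  refine (totalDegree_finsetProd _ _).trans (le_trans ?_ (le_totalDegree hm))
  refine sum_le_sum fun i _ => (totalDegree_pow _ _).trans ?_
  simpa using Nat.mul_le_mul_left (m i) (hl i)

variable {K : Type} [Field K] [NumberField K]

/-- The composite of `F` with a polynomial branch is a nonzero polynomial of bounded degree. -/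
lemma branch (F : Polynomial (MvPolynomial ι (𝓞 K)))
    (hroot : ∀ ρ : MvPolynomial ι K, F.eval₂ (MvPolynomial.map (algebraMap (𝓞 K) K)) ρ ≠ 0)
    (k : ℕ) : ∃ E : ℕ, ∀ (t0 : ι → ℤ) (q : ℕ), q ≠ 0 → ∀ p : MvPolynomial ι K,
      p.totalDegree ≤ k → ∃ G : MvPolynomial ι K, G ≠ 0 ∧ G.totalDegree ≤ E ∧
        ∀ (g : ι → ℤ) (x : 𝓞 K), F.eval₂ (eval (fun i => ((t0 i + q * g i : ℤ) : 𝓞 K))) x = 0 →
          (x : K) = eval (fun i => (g i : K)) p → eval (fun i => (g i : K)) G = 0 := by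
  refine ⟨∑ i ∈ F.support, ((F.coeff i).totalDegree + i * k), fun t0 q hq p hp => ?_⟩
  let ψ : MvPolynomial ι (𝓞 K) →+* MvPolynomial ι K :=
    eval₂Hom (C.comp (algebraMap (𝓞 K) K)) fun i => C (t0 i : K) + C (q : K) * X i
  refine ⟨F.eval₂ ψ p, fun h => ?_, ?_, fun g x hx hp => ?_⟩
  · let τ : MvPolynomial ι K →+* MvPolynomial ι K :=
      eval₂Hom C fun i => C (q : K)⁻¹ * (X i - C (t0 i : K))
    have hq' : (q : K) ≠ 0 := by exact_mod_cast hq
    have h1 : τ.comp ψ = MvPolynomial.map (algebraMap (𝓞 K) K) := by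
      refine MvPolynomial.ringHom_ext (fun r => by simp [τ, ψ]) fun i => ?_
      simp only [τ, ψ, RingHom.comp_apply, eval₂Hom_X', map_add, map_mul, eval₂Hom_C, map_X]
      rw [← mul_assoc, ← C_mul, mul_inv_cancel₀ hq', C_1, one_mul, add_sub_cancel]
    apply hroot (τ p)
    rw [← h1, ← Polynomial.hom_eval₂, h, map_zero]
  · rw [Polynomial.eval₂_eq_sum, Polynomial.sum]
    refine totalDegree_finsetSum_le fun i hi => (totalDegree_mul _ _).trans ?_
    refine le_trans ?_ (single_le_sum (f := fun i => (F.coeff i).totalDegree + i * k)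
      (fun _ _ => Nat.zero_le _) hi)
    refine add_le_add (totalDegree_subst _ _ (fun i => ?_) _)
      ((totalDegree_pow _ _).trans (Nat.mul_le_mul_left _ hp))
    refine (totalDegree_add _ _).trans (max_le (by rw [totalDegree_C]; exact zero_le_one) ?_)
    refine (totalDegree_mul _ _).trans ?_
    rw [totalDegree_C, totalDegree_X]
  · have h1 : (eval (fun i => (g i : K))).comp ψ =
        (algebraMap (𝓞 K) K).comp (eval (fun i => ((t0 i + q * g i : ℤ) : 𝓞 K))) := by
      refine MvPolynomial.ringHom_ext (fun r => by simp [ψ]) fun i => by simp [ψ]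
    rw [Polynomial.hom_eval₂, h1, ← hp, RingOfIntegers.coe_eq_algebraMap, ← Polynomial.hom_eval₂,
      hx, map_zero]

variable [Fintype ι] [DecidableEq ι]

open Classical in
/-- One residue class of roots meets the grid in few points. -/
lemma one_class {F : Polynomial (MvPolynomial ι (𝓞 K))} (hF : F.Monic)
    (hroot : ∀ ρ : MvPolynomial ι K, F.eval₂ (MvPolynomial.map (algebraMap (𝓞 K) K)) ρ ≠ 0) :
    ∃ E : ℕ, ∀ R : ℕ, ∃ q0 : ℕ, ∀ q : ℕ, q0 < q → ∀ P : Ideal (𝓞 K), (q : 𝓞 K) ∈ P →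
      (∀ n : ℤ, (n : 𝓞 K) ∈ P → (q : ℤ) ∣ n) → ∀ t0 ∈ res ι q, ∀ x0 a : 𝓞 K,
      a * F.derivative.eval₂ (eval (fun i => (t0 i : 𝓞 K))) x0 - 1 ∈ P →
      #{g ∈ box ι R | ∃ x : 𝓞 K, F.eval₂ (eval (fun i => ((t0 i + q * g i : ℤ) : 𝓞 K))) x = 0 ∧
        x - x0 ∈ P} * (2 * R + 1) ≤ E * (2 * R + 1) ^ card ι := by
  obtain ⟨C, e, hC, hCe⟩ := house_roots hF
  set n := Module.finrank ℚ K with hn
  obtain ⟨E, hE⟩ := branch F hroot (e * n + 1)
  refine ⟨E, fun R => ?_⟩
  choose W hW1 hW2 using fun T : Finset (ι → ℤ) => exists_detector T (e * n + 1)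
  let B : ℝ := ∑ T ∈ (box ι R).powerset, ∑ r, ∑ s, |(W T r s : ℝ)|
  obtain ⟨q0, hq0⟩ := exists_nat_ge ((B * C * (R + 1) ^ e) ^ n)
  refine ⟨q0, fun q hq P hqP hP t0 ht0 x0 a ha => ?_⟩
  set T := {g ∈ box ι R | ∃ x : 𝓞 K,
    F.eval₂ (eval (fun i => ((t0 i + q * g i : ℤ) : 𝓞 K))) x = 0 ∧ x - x0 ∈ P} with hT
  have hmem : ∀ s : T, ∃ x : 𝓞 K,
      F.eval₂ (eval (fun i => ((t0 i + q * s.1 i : ℤ) : 𝓞 K))) x = 0 ∧ x - x0 ∈ P :=
    fun s => (mem_filter.1 s.2).2
  have hTsub : T ⊆ box ι R := filter_subset _ _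
  choose x hx hx0 using hmem
  obtain ⟨p1, hp1⟩ := newton P F (fun i => (t0 i : 𝓞 K)) x0 a ha (e * n)
  obtain ⟨p2, hp2, hp3⟩ := trunc P hqP p1 (e * n + 1)
  have h1 : ∀ s : T, x s - eval (fun i => (s.1 i : 𝓞 K)) p2 ∈ P ^ (e * n + 1) := by
    intro s
    have h2 := hp1 (fun i => q * (s.1 i : 𝓞 K)) (fun i => P.mul_mem_right _ hqP) (x s)
      (by simpa using hx s) (hx0 s)
    simpa using add_mem h2 (hp3 fun i => (s.1 i : 𝓞 K))
  have hq1 : (1 : ℝ) ≤ q := by exact_mod_cast (show 1 ≤ q by omega)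
  have hqR : (1 : ℝ) ≤ q * (R + 1) := by
    have : (0 : ℝ) ≤ R := by positivity
    nlinarith
  have hxs : ∀ s : T, house (x s : K) ≤ C * (q * (R + 1)) ^ e := by
    intro s
    refine hCe _ hqR (fun i => t0 i + q * s.1 i) (fun i => ?_) _ (hx s)
    have h2 := mem_box.1 (mem_filter.1 s.2).1 i
    have h3 := mem_Ico.1 (mem_piFinset.1 ht0 i)
    have h4 : |t0 i + q * s.1 i| ≤ q * (R + 1) := by
      refine (abs_add_le _ _).trans ?_
      rw [abs_mul, abs_of_nonneg h3.1, Nat.abs_cast]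
      have := mul_le_mul_of_nonneg_left h2 (Int.natCast_nonneg q)
      linarith
    exact_mod_cast h4
  have h3 : ∀ r, ∑ s, (W T r s : 𝓞 K) * x s = 0 := by
    intro r
    refine eq_zero_of_small P hP (k := e * n + 1) ?_ ?_
    · have h4 := hW1 T (𝓞 K) p2 hp2 r
      rw [← sub_zero (∑ s, _), ← h4, ← sum_sub_distrib]
      exact sum_mem fun s _ => by rw [← mul_sub]; exact Ideal.mul_mem_left _ _ (h1 s)
    · have h4 : house ((∑ s, (W T r s : 𝓞 K) * x s : 𝓞 K) : K) ≤ B * (C * (q * (R + 1)) ^ e) := by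
        rw [RingOfIntegers.coe_eq_algebraMap, map_sum]
        refine (house_sum_le_sum_house _ _).trans ?_
        have h5 : ∑ s, |(W T r s : ℝ)| ≤ B := by
          refine le_trans ?_ (single_le_sum (f := fun T => ∑ r, ∑ s, |(W T r s : ℝ)|)
            (fun _ _ => by positivity) (mem_powerset.2 hTsub))
          exact single_le_sum (f := fun r => ∑ s, |(W T r s : ℝ)|) (fun _ _ => by positivity)
            (mem_univ r)
        refine le_trans ?_ (mul_le_mul_of_nonneg_right h5 (by positivity))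
        rw [sum_mul]
        refine sum_le_sum fun s _ => ?_
        rw [map_mul, map_intCast]
        refine (house_mul_le _ _).trans ?_
        rw [house_intCast]
        push_cast
        exact mul_le_mul_of_nonneg_left (hxs s) (abs_nonneg _)
      refine (pow_le_pow_left₀ (house_nonneg _) h4 _).trans_lt ?_
      have h6 : (B * (C * (q * (R + 1)) ^ e)) ^ n = (B * C * (R + 1) ^ e) ^ n * q ^ (e * n) := by
        rw [pow_mul, ← mul_pow, mul_pow (q : ℝ)]; congr 1; ring
      have h7 : (q0 : ℝ) < q := by exact_mod_cast hq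
      rw [← hn, h6, pow_succ']
      exact mul_lt_mul_of_pos_right (hq0.trans_lt h7) (by positivity)
  obtain ⟨p, hp, hpx⟩ := hW2 T K (fun s => x s) fun r => by
    have := congrArg (algebraMap (𝓞 K) K) (h3 r)
    simpa using this
  obtain ⟨G, hG0, hGE, hG⟩ := hE t0 q (by omega) p hp
  have h4 := sz_int hG0 (Icc (-(R : ℤ)) R) Int.cast_injective.injOn
  rw [card_Icc_sym] at h4
  refine le_trans (Nat.mul_le_mul_right _ (card_le_card fun g hg => ?_))
    (h4.trans (Nat.mul_le_mul_right _ hGE))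
  exact mem_filter.2 ⟨(mem_filter.1 hg).1, hG g _ (hx ⟨g, hg⟩) (hpx ⟨g, hg⟩)⟩

open Classical in
lemma all_classes {F U V : Polynomial (MvPolynomial ι (𝓞 K))} (hF : F.Monic)
    {Δ : MvPolynomial ι (𝓞 K)} (hUV : F * U + F.derivative * V = Polynomial.C Δ)
    (hroot : ∀ ρ : MvPolynomial ι K, F.eval₂ (MvPolynomial.map (algebraMap (𝓞 K) K)) ρ ≠ 0) :
    ∃ E : ℕ, ∀ R : ℕ, ∃ q0 : ℕ, ∀ q : ℕ, q0 < q → ∀ P : Ideal (𝓞 K), P.IsMaximal →
      (q : 𝓞 K) ∈ P → (∀ n : ℤ, (n : 𝓞 K) ∈ P → (q : ℤ) ∣ n) → ∀ t0 ∈ res ι q,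
      eval (fun i => (t0 i : 𝓞 K)) Δ ∉ P →
      #{g ∈ box ι R | ∃ x : 𝓞 K, F.eval₂ (eval (fun i => ((t0 i + q * g i : ℤ) : 𝓞 K))) x = 0}
        * (2 * R + 1) ≤ E * (2 * R + 1) ^ card ι := by
  obtain ⟨E, hE⟩ := one_class hF hroot
  refine ⟨F.natDegree * E, fun R => ?_⟩
  obtain ⟨q0, hq0⟩ := hE R
  refine ⟨q0, fun q hq P hP hqP hqd t0 ht0 hΔ => ?_⟩
  let φ : MvPolynomial ι (𝓞 K) →+* 𝓞 K ⧸ P :=
    (Ideal.Quotient.mk P).comp (eval (fun i => (t0 i : 𝓞 K)))
  let f := F.map φ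
  have hf : f ≠ 0 := (hF.map φ).ne_zero
  let T : 𝓞 K ⧸ P → Finset (ι → ℤ) := fun z => {g ∈ box ι R | ∃ x : 𝓞 K,
    F.eval₂ (eval (fun i => ((t0 i + q * g i : ℤ) : 𝓞 K))) x = 0 ∧ x - z.out ∈ P}
  have h1 : {g ∈ box ι R | ∃ x : 𝓞 K,
      F.eval₂ (eval (fun i => ((t0 i + q * g i : ℤ) : 𝓞 K))) x = 0} ⊆
      f.roots.toFinset.biUnion T := by
    intro g hg
    obtain ⟨hg, x, hx⟩ := mem_filter.1 hg
    refine mem_biUnion.2 ⟨Ideal.Quotient.mk P x, ?_, mem_filter.2 ⟨hg, x, hx, ?_⟩⟩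
    · rw [Multiset.mem_toFinset, Polynomial.mem_roots hf, Polynomial.IsRoot, Polynomial.eval_map]
      have h2 : φ = (Ideal.Quotient.mk P).comp
          (eval (fun i => ((t0 i + q * g i : ℤ) : 𝓞 K))) := by
        refine RingHom.ext fun c => ?_
        exact ((Ideal.Quotient.eq).2 (eval_add_mul_mem P hqP c t0 g)).symm
      rw [h2, ← Polynomial.hom_eval₂, hx, map_zero]
    · rw [← Ideal.Quotient.eq, Ideal.Quotient.mk_out]
  have h2 : ∀ z ∈ f.roots.toFinset, #(T z) * (2 * R + 1) ≤ E * (2 * R + 1) ^ card ι := by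
    intro z hz
    rw [Multiset.mem_toFinset, Polynomial.mem_roots hf, Polynomial.IsRoot, Polynomial.eval_map,
      ← Ideal.Quotient.mk_out z, ← Polynomial.hom_eval₂, Ideal.Quotient.eq_zero_iff_mem] at hz
    have h3 : F.derivative.eval₂ (eval (fun i => (t0 i : 𝓞 K))) z.out ∉ P := by
      intro h
      apply hΔ
      have := congrArg (Polynomial.eval₂ (eval (fun i => (t0 i : 𝓞 K))) z.out) hUV
      rw [Polynomial.eval₂_add, Polynomial.eval₂_mul, Polynomial.eval₂_mul,
        Polynomial.eval₂_C] at this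
      rw [← this]
      exact add_mem (P.mul_mem_right _ hz) (P.mul_mem_right _ h)
    obtain ⟨a, i, hi, ha⟩ := hP.exists_inv h3
    refine hq0 q hq P hqP hqd t0 ht0 z.out a ?_
    rw [← ha, sub_add_cancel_left]
    exact P.neg_mem hi
  refine (Nat.mul_le_mul_right _ ((card_le_card h1).trans card_biUnion_le)).trans ?_
  rw [sum_mul]
  refine (sum_le_card_nsmul _ _ _ h2).trans ?_
  rw [smul_eq_mul, mul_assoc]
  refine Nat.mul_le_mul_right _ ((Multiset.toFinset_card_le _).trans ?_)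
  exact (Polynomial.card_roots' f).trans (Polynomial.natDegree_map_le)

/-- A form of Hilbert's irreducibility theorem. -/
theorem hit {F U V : Polynomial (MvPolynomial ι (𝓞 K))} (hF : F.Monic)
    {Δ : MvPolynomial ι (𝓞 K)} (hΔ : Δ ≠ 0) (hUV : F * U + F.derivative * V = Polynomial.C Δ)
    (hroot : ∀ ρ : MvPolynomial ι K, F.eval₂ (MvPolynomial.map (algebraMap (𝓞 K) K)) ρ ≠ 0) :
    DZ {t : ι → ℤ | ∃ x : 𝓞 K, F.eval₂ (eval (fun i => (t i : 𝓞 K))) x = 0} := by
  classical
  obtain ⟨E, hE⟩ := all_classes hF hUV hroot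
  obtain ⟨B, hB⟩ := exists_coeff_not_mem K hΔ
  intro δ hδ
  obtain ⟨R0, hR0⟩ := exists_nat_ge ((E : ℝ) * 4 ^ card ι / δ)
  set R := R0 + 1 with hR
  obtain ⟨q0, hq0⟩ := hE R
  obtain ⟨q1, hq1⟩ := exists_nat_ge ((Δ.totalDegree : ℝ) * 4 ^ card ι / (δ / 2))
  filter_upwards [eventually_ge_atTop (R * (q0 + q1 + B + 2))] with H hH
  obtain ⟨q, hq, h1, h2⟩ := Nat.exists_prime_lt_and_le_two_mul (H / R + 1) (Nat.succ_ne_zero _)
  obtain ⟨P, hP, hqP, hqd⟩ := exists_prime_over K hq
  have hRpos : 0 < R := by omega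
  have h3 : q0 + q1 + B + 2 ≤ H / R := (Nat.le_div_iff_mul_le hRpos).2 (by linarith)
  have h4 : R * (H / R) ≤ H := Nat.mul_div_le H R
  have h5 : H < R * (H / R + 1) := Nat.lt_mul_div_succ H hRpos
  have h6 : H ≤ q * R := by nlinarith
  have h7 : q * (2 * R + 1) ≤ 4 * (2 * H + 1) := by
    have : H / R ≤ H := Nat.div_le_self _ _
    have : 2 * R ≤ H := by nlinarith
    nlinarith
  have h8 := cover {t : ι → ℤ | ∃ x : 𝓞 K, F.eval₂ (eval (fun i => (t i : 𝓞 K))) x = 0}
    (C := E) hq.pos h6 h7 (fun t0 => eval (fun i => (t0 i : 𝓞 K)) Δ ∈ P)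
    (by convert bad_res P hqd (hB q (by omega) P hqd)) (fun t0 ht0 h => by
      convert hq0 q (by omega) P hP hqP hqd t0 ht0 h using 4
      rfl)
  refine h8.trans (mul_le_mul_of_nonneg_right ?_ (by positivity))
  have hq' : (0 : ℝ) < q := by exact_mod_cast hq.pos
  have h9 : (Δ.totalDegree : ℝ) / q * 4 ^ card ι ≤ δ / 2 := by
    rw [div_le_iff₀ (by positivity)] at hq1
    rw [div_mul_eq_mul_div, div_le_iff₀ hq']
    have : (q1 : ℝ) ≤ q := by exact_mod_cast (show q1 ≤ q by omega)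
    nlinarith
  have h10 : (E : ℝ) / (2 * R + 1) * 4 ^ card ι ≤ δ / 2 := by
    rw [div_le_iff₀ hδ] at hR0
    rw [div_mul_eq_mul_div, div_le_iff₀ (by positivity), hR]
    push_cast
    nlinarith
  rw [add_mul]
  linarith

end Pool.Agent.MP_a2aa7d_nt.H32

end MrgPart0

-- ======== part 1: formerly Pool.Agent.MP_a2aa7d_nt.h32.Elim
section MrgPart1

set_option autoImplicit false

namespace Pool.Agent.MP_a2aa7d_nt.H32

open Finset Fintype Filter MvPolynomial NumberField

variable {ι : Type} {K : Type} [Field K] [NumberField K]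

attribute [local instance] MvPolynomial.algebraMvPolynomial in
lemma intClosed [Finite ι] : IsIntegrallyClosed (MvPolynomial ι (𝓞 K)) := by
  have : IsIntegrallyClosed (MvPolynomial ι K) := UniqueFactorizationMonoid.instIsIntegrallyClosed
  have hi : Function.Injective (algebraMap (MvPolynomial ι (𝓞 K)) (MvPolynomial ι K)) :=
    map_injective _ (IsFractionRing.injective _ _)
  have : FaithfulSMul (MvPolynomial ι (𝓞 K)) (MvPolynomial ι K) :=
    (faithfulSMul_iff_algebraMap_injective _ _).2 hi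
  suffices IsIntegrallyClosedIn (MvPolynomial ι (𝓞 K)) (MvPolynomial ι K) from
    .of_isIntegrallyClosed_of_isIntegrallyClosedIn _ (MvPolynomial ι K)
  refine isIntegrallyClosedIn_iff.mpr ⟨hi, fun {p} hp => ?_⟩
  have h := MvPolynomial.isIntegral_iff_isIntegral_coeff.1 hp
  exact (mem_range_map_iff_coeffs_subset).2 fun c hc => by
    obtain ⟨n, -, rfl⟩ := mem_coeffs_iff.1 hc
    exact IsIntegrallyClosed.isIntegral_iff.1 (h n)

/-- An algebraic function that is not rational yields an input for `hit`. -/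
lemma exists_input [Finite ι] {E : Type} [Field E] [Algebra (MvPolynomial ι (𝓞 K)) E]
    (hi : Function.Injective (algebraMap (MvPolynomial ι (𝓞 K)) E)) {α : E}
    (halg : IsAlgebraic (MvPolynomial ι (𝓞 K)) α)
    (hnot : ∀ r b : MvPolynomial ι (𝓞 K), b ≠ 0 → algebraMap _ E b * α ≠ algebraMap _ E r) :
    ∃ (F U V : Polynomial (MvPolynomial ι (𝓞 K))) (Δ b : MvPolynomial ι (𝓞 K)), F.Monic ∧ Δ ≠ 0 ∧
      F * U + F.derivative * V = Polynomial.C Δ ∧
      (∀ ρ : MvPolynomial ι K, F.eval₂ (MvPolynomial.map (algebraMap (𝓞 K) K)) ρ ≠ 0) ∧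
      Polynomial.aeval (algebraMap _ E b * α) F = 0 := by
  let R := MvPolynomial ι (𝓞 K)
  have : IsIntegrallyClosed R := intClosed
  have : FaithfulSMul R E := (faithfulSMul_iff_algebraMap_injective _ _).2 hi
  let L := FractionRing R
  let _ : Algebra L E := FractionRing.liftAlgebra R E
  have : IsScalarTower R L E := FractionRing.isScalarTower_liftAlgebra R E
  obtain ⟨b, hb, hint⟩ := halg.exists_integral_multiple
  rw [Algebra.smul_def] at hint
  set β := algebraMap R E b * α with hβ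
  have hmin := minpoly.isIntegrallyClosed_eq_field_fractions' L hint
  have hirr : Irreducible (minpoly L β) := minpoly.irreducible hint.tower_top
  have hF := minpoly.monic hint
  set F := minpoly R β with hFd
  have hinj : Function.Injective (algebraMap R L) := IsFractionRing.injective _ _
  have : CharZero L := charZero_of_injective_algebraMap hinj
  have hpos : 0 < F.natDegree := minpoly.natDegree_pos hint
  obtain ⟨U, V, -, -, hUV⟩ := Polynomial.exists_mul_add_mul_eq_C_resultant F F.derivative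
    le_rfl le_rfl (Or.inl hpos.ne')
  refine ⟨F, U, V, _, b, hF, fun h0 => ?_, hUV, fun ρ hρ => ?_, minpoly.aeval _ _⟩
  · have h1 : IsCoprime (minpoly L β) (minpoly L β).derivative := hirr.separable
    rw [hmin, Polynomial.derivative_map] at h1
    apply Polynomial.resultant_ne_zero _ _ h1
    rw [Polynomial.natDegree_map_eq_of_injective hinj,
      Polynomial.natDegree_map_eq_of_injective hinj, Polynomial.resultant_map_map, h0, map_zero]
  · have h1 : Function.Injective ((algebraMap R L).comp (C : 𝓞 K →+* R)) :=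
      hinj.comp (C_injective _ _)
    let θ : MvPolynomial ι K →+* L :=
      eval₂Hom (IsFractionRing.lift h1) fun i => algebraMap R L (X i)
    have h2 : θ.comp (MvPolynomial.map (algebraMap (𝓞 K) K)) = algebraMap R L := by
      refine MvPolynomial.ringHom_ext (fun r => ?_) fun i => ?_
      · simp only [θ, RingHom.comp_apply, map_C, eval₂Hom_C, IsFractionRing.lift_algebraMap]
      · simp only [θ, RingHom.comp_apply, map_X, eval₂Hom_X']
    have h3 : (minpoly L β).IsRoot (θ ρ) := by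
      rw [hmin, Polynomial.IsRoot, Polynomial.eval_map, ← h2, ← Polynomial.hom_eval₂, hρ,
        map_zero]
    obtain ⟨z, hz⟩ := minpoly.mem_range_of_degree_eq_one L β
      (Polynomial.degree_eq_one_of_irreducible_of_root hirr h3)
    obtain ⟨r1, r2, hr2, rfl⟩ := IsFractionRing.div_surjective R z
    have hr2' : r2 ≠ 0 := nonZeroDivisors.ne_zero hr2
    apply hnot r1 (r2 * b) (mul_ne_zero hr2' hb)
    have h4 : algebraMap R E r2 ≠ 0 := fun h => hr2' (hi (by rw [h, map_zero]))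
    rw [map_mul, mul_assoc, ← hβ, ← hz, map_div₀, ← IsScalarTower.algebraMap_apply,
      ← IsScalarTower.algebraMap_apply]
    exact mul_div_cancel₀ _ h4

variable [Fintype ι] [DecidableEq ι]

/-- Evaluation of a polynomial with integral coefficients at an integer point, in `K`. -/
noncomputable def evK (K : Type) [Field K] [NumberField K] (t : ι → ℤ) :
    MvPolynomial ι (𝓞 K) →+* K := (algebraMap (𝓞 K) K).comp (eval fun i => (t i : 𝓞 K))

lemma elim_prime {σ : Type} (P : Ideal (MvPolynomial σ (MvPolynomial ι (𝓞 K)))) [P.IsPrime]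
    (h : ∀ (E : Type) [Field E] (φ : MvPolynomial ι (𝓞 K) →+* E) (c : σ → E),
      Function.Injective φ → (∀ f ∈ P, eval₂ φ c f = 0) → ∃ s,
        (∃ G : Polynomial (MvPolynomial ι (𝓞 K)), G ≠ 0 ∧ G.eval₂ φ (c s) = 0) ∧
        ∀ r b, b ≠ 0 → φ b * c s ≠ φ r) :
    DZ {t : ι → ℤ | ∃ c : σ → K, ∀ f ∈ P, eval₂ (evK K t) c f = 0} := by
  by_cases h0 : ∃ r : MvPolynomial ι (𝓞 K), r ≠ 0 ∧ C r ∈ P
  · obtain ⟨r, hr, hrP⟩ := h0
    refine (dz_zero hr).mono ?_
    rintro t ⟨c, hc⟩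
    have := hc _ hrP
    rw [eval₂_C] at this
    exact IsFractionRing.injective (𝓞 K) K (by rw [map_zero]; exact this)
  push Not at h0
  let E := P.ResidueField
  let π : MvPolynomial σ (MvPolynomial ι (𝓞 K)) →+* E := algebraMap _ _
  have hπ : ∀ f, π f = 0 ↔ f ∈ P := fun f => Ideal.algebraMap_residueField_eq_zero
  let _ : Algebra (MvPolynomial ι (𝓞 K)) E := (π.comp C).toAlgebra
  have hi : Function.Injective (π.comp C) := by
    rw [injective_iff_map_eq_zero]
    intro r hr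
    by_contra hne
    exact h0 r hne ((hπ _).1 hr)
  have hev : ∀ f, eval₂ (π.comp C) (fun s => π (X s)) f = π f := fun f => by
    rw [← coe_eval₂Hom]
    congr 1
    exact MvPolynomial.ringHom_ext (fun r => by simp) fun s => by simp
  obtain ⟨s, ⟨G, hG0, hG⟩, hnot⟩ := h E (π.comp C) (fun s => π (X s)) hi fun f hf => by
    rw [hev, hπ]; exact hf
  obtain ⟨F, U, V, Δ, b, hF, hΔ, hUV, hroot, hβ⟩ := exists_input (E := E) hi (α := π (X s))
    ⟨G, hG0, hG⟩ hnot
  refine (hit hF hΔ hUV hroot).mono ?_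
  rintro t ⟨c, hc⟩
  have h1 : F.eval₂ C (C b * X s) ∈ P := by
    rw [← hπ, Polynomial.hom_eval₂, map_mul]
    exact hβ
  have h2 := hc _ h1
  rw [← coe_eval₂Hom, Polynomial.hom_eval₂] at h2
  have h3 : (eval₂Hom (evK K t) c).comp C = evK K t := RingHom.ext fun r => by simp
  rw [h3, evK, ← Polynomial.eval₂_map] at h2
  obtain ⟨x, hx⟩ := (IsIntegrallyClosed.isIntegral_iff (R := 𝓞 K) (K := K)).1
    ⟨_, hF.map _, h2⟩
  refine ⟨x, IsFractionRing.injective (𝓞 K) K ?_⟩
  rw [Polynomial.hom_eval₂, hx, map_zero, ← Polynomial.eval₂_map]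
  exact h2

/-- A generically finite family without a rational section has rational points only over a
density-zero set of parameters. -/
theorem elim {σ : Type} [Finite σ] (I : Ideal (MvPolynomial σ (MvPolynomial ι (𝓞 K))))
    (h : ∀ (E : Type) [Field E] (φ : MvPolynomial ι (𝓞 K) →+* E) (c : σ → E),
      Function.Injective φ → (∀ f ∈ I, eval₂ φ c f = 0) → ∃ s,
        (∃ G : Polynomial (MvPolynomial ι (𝓞 K)), G ≠ 0 ∧ G.eval₂ φ (c s) = 0) ∧
        ∀ r b, b ≠ 0 → φ b * c s ≠ φ r) :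
    DZ {t : ι → ℤ | ∃ c : σ → K, ∀ f ∈ I, eval₂ (evK K t) c f = 0} := by
  have hfin := Ideal.finite_minimalPrimes_of_isNoetherianRing _ I
  refine (dz_biUnion hfin (fun P => {t : ι → ℤ | ∃ c : σ → K, ∀ f ∈ P,
    eval₂ (evK K t) c f = 0}) fun P hP => ?_).mono ?_
  · have := hP.1.1
    exact elim_prime P fun E _ φ c hφ hc => h E φ c hφ fun f hf => hc f (hP.1.2 hf)
  · rintro t ⟨c, hc⟩
    have := RingHom.ker_isPrime (eval₂Hom (evK K t) c)
    obtain ⟨P, hP, hle⟩ := Ideal.exists_minimalPrimes_le (I := I)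
      (J := RingHom.ker (eval₂Hom (evK K t) c)) fun f hf => hc f hf
    exact Set.mem_biUnion hP ⟨c, fun f hf => hle hf⟩

end Pool.Agent.MP_a2aa7d_nt.H32

end MrgPart1

-- ======== part 2: formerly Pool.Agent.MP_a2aa7d_nt.h32.Disc
section MrgPart2

set_option autoImplicit false

namespace Pool.Agent.MP_a2aa7d_nt.H32

open Finset MvPolynomial

lemma pigeon {α : Type} [Finite α] (f : ℕ → α) :
    ∃ r d : ℕ, 0 < d ∧ d ≤ Nat.card α ∧ f (r + d) = f r := by
  have := Fintype.ofFinite α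
  obtain ⟨x, hx, y, hy, hne, h⟩ := exists_ne_map_eq_of_card_lt_of_maps_to
    (s := range (Nat.card α + 1)) (t := univ) (f := f) (by simp) fun _ _ => mem_univ _
  rw [mem_range] at hx hy
  rcases lt_or_gt_of_ne hne with h1 | h1
  · exact ⟨x, y - x, by omega, by omega, by rw [Nat.add_sub_cancel' h1.le, h]⟩
  · exact ⟨y, x - y, by omega, by omega, by rw [Nat.add_sub_cancel' h1.le, h]⟩

variable {I n O : Type} [CommRing O]

/-- Coordinate functions along an arithmetic progression. -/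
def cf (w : ℕ → n → O) (d : ℕ) (p : ℕ × n) : ℕ → O := fun j => w (p.1 + j * d) p.2

/-- The algebra generated by the coordinate functions. -/
def cA (w : ℕ → n → O) (d : ℕ) : Subalgebra O (ℕ → O) := Algebra.adjoin O (Set.range (cf w d))

/-- The shift. -/
def shift0 : (ℕ → O) →ₐ[O] (ℕ → O) where
  toFun g := fun j => g (j + 1)
  map_one' := rfl
  map_mul' _ _ := rfl
  map_zero' := rfl
  map_add' _ _ := rfl
  commutes' _ := rfl

lemma shift0_mem (w : ℕ → n → O) (d : ℕ) (g : ℕ → O) (hg : g ∈ cA w d) : shift0 g ∈ cA w d := by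
  have : cA w d ≤ (cA w d).comap shift0 := Algebra.adjoin_le (by
    rintro _ ⟨p, rfl⟩
    refine Algebra.subset_adjoin ⟨(p.1 + d, p.2), ?_⟩
    funext j
    change w (p.1 + d + j * d) p.2 = w (p.1 + (j + 1) * d) p.2
    congr 1; ring)
  exact this hg

/-- The shift on the algebra of coordinate functions. -/
def shift (w : ℕ → n → O) (d : ℕ) : cA w d →ₐ[O] cA w d :=
  (shift0.comp (cA w d).val).codRestrict _ fun g => shift0_mem w d g.1 g.2

lemma shift_pow (w : ℕ → n → O) (d r : ℕ) (g : cA w d) (j : ℕ) :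
    ((shift w d ^ r) g).1 j = g.1 (j + r) := by
  induction r generalizing j with
  | zero => rfl
  | succ r ih =>
    rw [pow_succ', AlgHom.mul_apply]
    exact (ih (j + 1)).trans (by rw [add_assoc, add_comm 1])

/-- The coordinate functions as elements of the algebra. -/
def fA (w : ℕ → n → O) (d : ℕ) (p : ℕ × n) : cA w d := ⟨cf w d p, Algebra.subset_adjoin ⟨p, rfl⟩⟩

lemma eq_top_of_fA {w : ℕ → n → O} {d : ℕ} (B : Subalgebra O (cA w d)) (h : ∀ p, fA w d p ∈ B)
    (g : cA w d) : g ∈ B := by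
  have h1 : Algebra.adjoin O (((↑) : cA w d → (ℕ → O)) ⁻¹' Set.range (cf w d)) = ⊤ :=
    Algebra.adjoin_adjoin_coe_preimage
  have h2 : Algebra.adjoin O (((↑) : cA w d → (ℕ → O)) ⁻¹' Set.range (cf w d)) ≤ B :=
    Algebra.adjoin_le fun g ⟨p, hp⟩ => by
      have : g = fA w d p := Subtype.ext hp.symm
      exact this ▸ h p
  exact h2 (h1 ▸ Algebra.mem_top)

/-- Constants plus a submodule between an ideal and its square. -/
def linAlg {A : Type} [CommRing A] [Algebra O A] (J : Ideal A) (E : Submodule O A)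
    (h1 : ∀ g ∈ E, g ∈ J) (h2 : ∀ g ∈ J ^ 2, g ∈ E) : Subalgebra O A where
  carrier := {g | ∃ c : O, g - algebraMap O A c ∈ E}
  mul_mem' := by
    rintro g h ⟨c, hc⟩ ⟨e, he⟩
    refine ⟨c * e, ?_⟩
    have : g * h - algebraMap O A (c * e) = c • (h - algebraMap O A e) +
        e • (g - algebraMap O A c) + (g - algebraMap O A c) * (h - algebraMap O A e) := by
      simp only [Algebra.smul_def, map_mul]; ring
    rw [this]
    exact add_mem (add_mem (E.smul_mem _ he) (E.smul_mem _ hc))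
      (h2 _ (by rw [sq]; exact Ideal.mul_mem_mul (h1 _ hc) (h1 _ he)))
  add_mem' := by
    rintro g h ⟨c, hc⟩ ⟨e, he⟩
    exact ⟨c + e, by rw [map_add, add_sub_add_comm]; exact add_mem hc he⟩
  algebraMap_mem' c := ⟨c, by simp⟩

/-- Periodic chains inside one residue disc have bounded period. -/
theorem Sys.disc [IsDomain O] [Fintype n] (s : Sys I n) {π : O} (hπ : π ≠ 0)
    (hloc : ∀ x y : O, IsUnit x → π ∣ x - y → IsUnit y)
    (hsep : ∀ x : O, (∀ k, π ^ k ∣ x) → x = 0)
    (hpr : ∀ l : ℕ, l.Prime → ∃ (e : ℕ) (u : O), IsUnit u ∧ e + 2 ≤ l ∧ (l : O) = π ^ e * u)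
    {ρ : Type} [Finite ρ] (rep : ρ → O) (hrep : ∀ x, ∃ p, π ^ 2 ∣ x - rep p)
    (hη : IsUnit (1 + s.η : O)) (T : I → O) (w : ℕ → n → O)
    (hrel : ∀ k, ∃ c, IsUnit c ∧
      ∀ i j, s.ev T k (w (k + 1)) i j = c * bet s.η (w k) (w (k + 2)) i j)
    {d M : ℕ} (hd : s.m ∣ d) (hM : 0 < M) (hper : Function.Periodic w M)
    (hone : ∀ k, ∃ a, ∀ j, w (k + j * d) a = 1)
    (hres : ∀ k j a, π ∣ w (k + j * d) a - w k a) :
    ∃ r, 0 < r ∧ r ≤ Nat.card (Fin 2 × n → Option (Fin 2 × n) → ρ) ∧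
      Function.Periodic w (r * d) := by
  classical
  let ev : ℕ → cA w d →+* O := fun j => (Pi.evalRingHom (fun _ => O) j).comp (cA w d).val
  have hev : ∀ j g, ev j g = g.1 j := fun _ _ => rfl
  have hevc : ∀ j c, ev j (algebraMap O _ c) = c := fun _ _ => rfl
  have hevf : ∀ j p, ev j (fA w d p) = w (p.1 + j * d) p.2 := fun _ _ => rfl
  have hinj : ∀ g, (∀ j, ev j g = 0) → g = 0 := fun g h => Subtype.ext (funext h)
  let y : ℕ × n → cA w d := fun p => fA w d p - algebraMap O _ (w p.1 p.2)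
  let J : Ideal (cA w d) := Ideal.span (insert (algebraMap O _ π) (Set.range y))
  have hπJ : algebraMap O _ π ∈ J := Ideal.subset_span (Set.mem_insert _ _)
  have hyJ : ∀ p, y p ∈ J := fun p => Ideal.subset_span (Set.mem_insert_of_mem _ ⟨p, rfl⟩)
  have hJ : ∀ j, ∀ g ∈ J, π ∣ ev j g := by
    intro j g hg
    have : J ≤ (Ideal.span {π}).comap (ev j) := Ideal.span_le.2 (by
      rintro _ (rfl | ⟨p, rfl⟩)
      · exact Ideal.mem_span_singleton_self π
      · exact Ideal.mem_span_singleton.2 (hres p.1 j p.2))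
    exact Ideal.mem_span_singleton.1 (this hg)
  let E : Submodule O (cA w d) :=
    Submodule.span O (Set.range fun q : Fin 2 × n => y (q.1, q.2)) ⊔ (J ^ 2).restrictScalars O
  have hEJ : ∀ g ∈ E, g ∈ J := by
    have : E ≤ J.restrictScalars O := sup_le (Submodule.span_le.2 (by
      rintro _ ⟨q, rfl⟩; exact hyJ _)) fun g hg => Ideal.pow_le_self two_ne_zero hg
    exact fun g hg => this hg
  have hJE : ∀ g ∈ J ^ 2, g ∈ E := fun g hg => Submodule.mem_sup_right hg
  let B := linAlg J E hEJ hJE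
  have hB2 : ∀ k, (∀ a, fA w d (k, a) ∈ B) ∧ ∀ a, fA w d (k + 1, a) ∈ B := by
    intro k
    induction k with
    | zero =>
      exact ⟨fun a => ⟨_, Submodule.mem_sup_left (Submodule.subset_span ⟨(0, a), rfl⟩)⟩,
        fun a => ⟨_, Submodule.mem_sup_left (Submodule.subset_span ⟨(1, a), rfl⟩)⟩⟩
    | succ k ih =>
      refine ⟨ih.2, fun i => ?_⟩
      obtain ⟨a, ha⟩ := hone k
      obtain ⟨b, hb⟩ := hone (k + 2)
      let S := s.ev (fun i => algebraMap O (cA w d) (T i)) k fun a => fA w d (k + 1, a)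
      have hS : ∀ i j, S i j ∈ B := fun i j => eval₂_mem (fun _ _ => intCast_mem B _) fun v => by
        cases v with
        | inl v => exact B.algebraMap_mem _
        | inr v => exact ih.2 v
      let G : n → cA w d := fun i => (1 + s.η) * S a i - s.η * S a a * fA w d (k, i)
      have hG : ∀ i, G i ∈ B := fun i =>
        sub_mem (mul_mem (add_mem (one_mem B) (natCast_mem B _)) (hS _ _))
          (mul_mem (mul_mem (natCast_mem B _) (hS _ _)) (ih.1 i))
      have hGv : ∀ j, ∃ c, IsUnit c ∧ ∀ i, ev j (G i) = c * w (k + 2 + j * d) i := by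
        intro j
        obtain ⟨c, hc, hc2⟩ := hrel (k + j * d)
        refine ⟨(1 + s.η) * c, hη.mul hc, fun i => ?_⟩
        have h1 : k ≡ k + j * d [MOD s.m] :=
          ((Nat.modEq_iff_dvd' (Nat.le_add_right _ _)).2 (by simpa using hd.mul_left j))
        simp only [G, S, map_sub, map_mul, map_add, map_one, map_natCast, s.map_ev, hevc, hevf]
        rw [s.ev_congr T h1, add_right_comm k 1, add_right_comm k 2]
        simp only [hc2]
        have h2 := bet_key s.η (w (k + j * d)) (w (k + j * d + 2)) a i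
        rw [ha j] at h2
        linear_combination c * h2
      have hmul : G b * fA w d (k + 2, i) = G i := by
        refine sub_eq_zero.1 (hinj _ fun j => ?_)
        obtain ⟨c, -, hc⟩ := hGv j
        rw [map_sub, map_mul, hc, hc, hb, hevf]; ring
      obtain ⟨c0, hc0⟩ := hG b
      have hu : IsUnit c0 := by
        obtain ⟨c, hc, hc2⟩ := hGv 0
        have := hJ 0 _ (hEJ _ hc0)
        rw [map_sub, hc2, hb, mul_one, hevc] at this
        exact hloc _ _ hc this
      obtain ⟨c1, hc1⟩ := hu.exists_left_inv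
      have h3 : fA w d (k + 2, i) = algebraMap O _ (w (k + 2) i) + algebraMap O _ c1 *
          (G i - G b * algebraMap O _ (w (k + 2) i) -
            (G b - algebraMap O _ c0) * y (k + 2, i)) := by
        have : algebraMap O (cA w d) c1 * algebraMap O _ c0 = 1 := by rw [← map_mul, hc1, map_one]
        simp only [y]
        linear_combination (algebraMap O (cA w d) c1) * hmul -
          (fA w d (k + 2, i) - algebraMap O _ (w (k + 2) i)) * this
      change fA w d (k + 2, i) ∈ B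
      rw [h3]
      refine add_mem (B.algebraMap_mem _) (mul_mem (B.algebraMap_mem _) (sub_mem (sub_mem (hG i)
        (mul_mem ⟨c0, hc0⟩ (B.algebraMap_mem _))) ⟨0, ?_⟩))
      rw [map_zero, sub_zero]
      exact hJE _ (by rw [sq]; exact Ideal.mul_mem_mul (hEJ _ hc0) (hyJ _))
  have hdec : ∀ g : cA w d, ∃ (c0 : O) (c : Fin 2 × n → O),
      g - (algebraMap O _ c0 + ∑ q, c q • y (q.1, q.2)) ∈ J ^ 2 := by
    intro g
    obtain ⟨c0, h0⟩ := eq_top_of_fA B (fun p => (hB2 p.1).1 p.2) g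
    obtain ⟨l, hl, j, hj, hlj⟩ := Submodule.mem_sup.1 h0
    obtain ⟨c, rfl⟩ := (Submodule.mem_span_range_iff_exists_fun O).1 hl
    refine ⟨c0, c, ?_⟩
    rw [← sub_sub, ← hlj, add_sub_cancel_left]
    exact hj
  have hfin : ∀ g : cA w d, ∃ p : Option (Fin 2 × n) → ρ,
      g - (algebraMap O _ (rep (p none)) + ∑ q, rep (p (some q)) • y (q.1, q.2)) ∈ J ^ 2 := by
    intro g
    obtain ⟨c0, c, h⟩ := hdec g
    choose P hP using hrep
    refine ⟨fun o => o.elim (P c0) fun q => P (c q), ?_⟩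
    have h1 : ∀ x : O, algebraMap O (cA w d) x - algebraMap O _ (rep (P x)) ∈ J ^ 2 := by
      intro x
      obtain ⟨z, hz⟩ := hP x
      rw [← map_sub, hz, map_mul, map_pow]
      exact Ideal.mul_mem_right _ _ (Ideal.pow_mem_pow hπJ 2)
    have h2 := add_mem h (add_mem (h1 c0) (sum_mem fun q (_ : q ∈ univ) =>
      Ideal.mul_mem_right (y (q.1, q.2)) _ (h1 (c q))))
    convert h2 using 1
    simp only [Option.elim, Algebra.smul_def, sub_mul, sum_sub_distrib]
    ring
  let θ := shift w d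
  have hθJ : ∀ g ∈ J, θ g ∈ J := by
    have : J ≤ J.comap θ := Ideal.span_le.2 (by
      rintro _ (rfl | ⟨p, rfl⟩)
      · simpa using hπJ
      · obtain ⟨z, hz⟩ := hres p.1 1 p.2
        have h1 : θ (y p) = y (p.1 + d, p.2) + algebraMap O _ π * algebraMap O _ z := by
          refine sub_eq_zero.1 (hinj _ fun j => ?_)
          have h2 : ev j (θ (y p)) = ev (j + 1) (y p) := rfl
          rw [map_sub, h2]
          simp only [map_sub, map_add, y, map_mul, hevc, hevf, ← hz]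
          rw [show p.1 + (j + 1) * d = p.1 + d + j * d by ring, one_mul]
          ring
        change θ (y p) ∈ J
        rw [h1]
        exact add_mem (hyJ _) (J.mul_mem_right _ hπJ))
    exact fun g hg => this hg
  have hθJ2 : ∀ r, ∀ g ∈ J ^ 2, (θ ^ r) g ∈ J ^ 2 := by
    intro r g hg
    induction r with
    | zero => exact hg
    | succ r ih =>
      rw [pow_succ' θ, AlgHom.mul_apply]
      exact Ideal.le_comap_pow θ 2 (Ideal.pow_right_mono (fun g hg => hθJ g hg) 2 ih)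
  have hθM : θ ^ M = 1 := by
    refine AlgHom.ext fun g => eq_top_of_fA (AlgHom.equalizer (θ ^ M) 1) (fun p => ?_) g
    refine Subtype.ext (funext fun j => ?_)
    rw [shift_pow]
    change w (p.1 + (j + M) * d) p.2 = w (p.1 + j * d) p.2
    rw [add_mul, ← add_assoc, mul_comm M]
    exact congrFun (hper.nat_mul d _) _
  choose P hP using hfin
  obtain ⟨r0, r, hr0, hr1, hr⟩ := pigeon fun r (q : Fin 2 × n) => P ((θ ^ r) (y (q.1, q.2)))
  have h1 : ∀ q : Fin 2 × n, (θ ^ r) (y (q.1, q.2)) - y (q.1, q.2) ∈ J ^ 2 := by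
    intro q
    have h2 := sub_mem (hP ((θ ^ (r0 + r)) (y (q.1, q.2)))) (hP ((θ ^ r0) (y (q.1, q.2))))
    rw [congrFun hr q, sub_sub_sub_cancel_right] at h2
    have h3 := hθJ2 ((M - 1) * r0) _ h2
    have h4 : (M - 1) * r0 + r0 = M * r0 := by
      obtain ⟨M', rfl⟩ : ∃ M', M = M' + 1 := ⟨M - 1, by omega⟩
      simp only [Nat.add_sub_cancel]; ring
    rwa [map_sub, ← AlgHom.mul_apply, ← AlgHom.mul_apply, ← pow_add, ← pow_add, ← add_assoc, h4,
      pow_add, pow_mul, hθM, one_pow, one_mul] at h3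
  have h2 : ∀ g, (θ ^ r) g - g ∈ J ^ 2 := by
    intro g
    obtain ⟨c0, c, h⟩ := hdec g
    have h3 := add_mem (sub_mem (hθJ2 r _ h) h) (sum_mem fun q (_ : q ∈ univ) =>
      Ideal.mul_mem_left _ (algebraMap O _ (c q)) (h1 q))
    convert h3 using 1
    simp only [map_sub, map_add, map_sum, map_mul, AlgHom.commutes, Algebra.smul_def, mul_sub,
      sum_sub_distrib]
    ring
  have h3 := rigid hπ hsep hpr ev hinj hJ (θ := (θ ^ r : cA w d →ₐ[O] cA w d)) h2 hM fun g => by
    have : ((θ ^ r) ^ M) g = g := by rw [← pow_mul, mul_comm, pow_mul, hθM, one_pow]; rfl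
    rwa [AlgHom.coe_pow] at this
  refine ⟨r, hr0, hr1, fun k => funext fun a => ?_⟩
  have h4 := congrFun (congrArg Subtype.val (h3 (fA w d (k, a)))) 0
  have h5 := shift_pow w d r (fA w d (k, a)) 0
  simpa [fA, cf] using h5.symm.trans h4

end Pool.Agent.MP_a2aa7d_nt.H32

end MrgPart2

-- ======== part 3: formerly Pool.Agent.MP_a2aa7d_nt.h32.Period
section MrgPart3

set_option autoImplicit false

namespace Pool.Agent.MP_a2aa7d_nt.H32

open Finset MvPolynomial IsLocalRing

variable {I n : Type}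

/-- A chosen index of a nonzero coordinate. -/
noncomputable def idx [Nonempty n] {κ : Type} [Field κ] (v : n → κ) : n :=
  Classical.epsilon fun a => v a ≠ 0

lemma idx_spec [Nonempty n] {κ : Type} [Field κ] {v : n → κ} (h : v ≠ 0) : v (idx v) ≠ 0 :=
  Classical.epsilon_spec (p := fun a => v a ≠ 0) (Function.ne_iff.1 h)

lemma idx_smul [Nonempty n] {κ : Type} [Field κ] {v v' : n → κ} {c : κ} (hc : c ≠ 0)
    (h : ∀ i, v' i = c * v i) : idx v' = idx v := by
  unfold idx
  simp [h, hc]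

lemma exists_canon [Fintype n] [Nonempty n] {F : Type} [Field F] (O : ValuationSubring F)
    {u : n → F} (hu : u ≠ 0) : ∃ (c : F) (w : n → O), c ≠ 0 ∧ (∀ i, (w i : F) = c * u i) ∧
      w (idx fun a => residue O (w a)) = 1 := by
  obtain ⟨a, w, ha, hw, hw1⟩ := exists_normal O hu
  obtain ⟨e, he⟩ := ((residue_ne_zero_iff_isUnit (w (idx fun a => residue O (w a)))).1
    (idx_spec (ne_zero_of_one O hw1))).exists_left_inv
  have he0 : residue O e ≠ 0 := (residue_ne_zero_iff_isUnit _).2 (IsUnit.of_mul_eq_one _ he)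
  refine ⟨e * (u a)⁻¹, fun i => e * w i, mul_ne_zero ?_ (inv_ne_zero ha), fun i => ?_, ?_⟩
  · intro h
    exact he0 (by rw [show e = 0 from Subtype.ext h, map_zero])
  · push_cast; rw [hw, mul_assoc]
  · rw [idx_smul he0 (v := fun a => residue O (w a)) fun i => map_mul _ _ _]
    exact he

lemma canon_eq [Nonempty n] {F : Type} [Field F] (O : ValuationSubring F) {w w' : n → O}
    (h1 : w (idx fun a => residue O (w a)) = 1) (h2 : w' (idx fun a => residue O (w' a)) = 1)
    {c : F} (h : ∀ i, (w' i : F) = c * w i) : w' = w := by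
  have h3 : ∀ i, w' i = w' (idx fun a => residue O (w a)) * w i := fun i => Subtype.ext (by
    push_cast
    rw [h, h, h1]; simp)
  have h4 : residue O (w' (idx fun a => residue O (w a))) ≠ 0 :=
    (residue_ne_zero_iff_isUnit _).2 (IsUnit.of_mul_eq_one _ ((h3 _).symm.trans h2))
  have h5 : (idx fun a => residue O (w' a)) = idx fun a => residue O (w a) :=
    idx_smul h4 fun i => by rw [← map_mul, ← h3]
  funext i
  rw [h3, ← h5, h2, one_mul]

/-- Periodic chains with good reduction have uniformly bounded period. -/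
theorem Sys.period [Fintype n] (s : Sys I n) {F : Type} [Field F] [CharZero F]
    (O : ValuationSubring F) [IsDiscreteValuationRing O] [Finite (ResidueField O)] {π : O}
    (hπ : Irreducible π) (hpr : ∀ l : ℕ, l.Prime → ¬ π ^ (l - 1) ∣ (l : O))
    (hη : (1 + s.η : ResidueField O) ≠ 0) : ∃ N, 0 < N ∧ s.m ∣ N ∧ ∀ T : I → O,
      (s.ND fun i => residue O (T i)) → ∀ u : ℕ → n → F, (∀ k, u k ≠ 0) →
      (∀ k, s.Rel (fun i => (T i : F)) k (u k) (u (k + 1)) (u (k + 2))) →
      (∃ M, 0 < M ∧ Function.Periodic u M) → ∃ w : ℕ → n → F,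
        (∀ k, ∃ c, c ≠ 0 ∧ ∀ i, w k i = c * u k i) ∧ Function.Periodic w N := by
  classical
  let κ := ResidueField O
  have hres : ∀ x : O, residue O x = 0 ↔ π ∣ x := fun x => by
    rw [residue_eq_zero_iff, hπ.maximalIdeal_eq, Ideal.mem_span_singleton]
  refine ⟨(Nat.card (Fin 2 × n → Option (Fin 2 × n) → κ × κ)).factorial *
    ((Nat.card ((n → κ) × (n → κ))).factorial * s.m),
    Nat.mul_pos (Nat.factorial_pos _) (Nat.mul_pos (Nat.factorial_pos _) s.hm),
    (dvd_mul_left _ _).mul_left _, fun T hT u hu hrel ⟨M0, hM0, hper0⟩ => ?_⟩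
  have : Nonempty n := by obtain ⟨a, -⟩ := Function.ne_iff.1 (hu 0); exact ⟨a⟩
  choose c w hc hw hw1 using fun k => exists_canon O (hu k)
  have hper : Function.Periodic w M0 := fun k => canon_eq O (hw1 _) (hw1 _)
    (c := c (k + M0) / c k) fun i => by rw [hw, hw, hper0 k]; field_simp [hc k]
  let v : ℕ → n → κ := fun k a => residue O (w k a)
  have hv0 : ∀ k, v k ≠ 0 := fun k => ne_zero_of_one O (hw1 k)
  have hv1 : ∀ k, v k (idx (v k)) = 1 := fun k => by
    change residue O (w k (idx fun a => residue O (w k a))) = 1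
    rw [hw1, map_one]
  have hrelO : ∀ k, ∃ e : O, IsUnit e ∧
      ∀ i j, s.ev T k (w (k + 1)) i j = e * bet s.η (w k) (w (k + 2)) i j := by
    intro k
    obtain ⟨e, he⟩ := Sys.Rel.smul s (hrel k) (b := c (k + 1)) (hc k) (hc (k + 2))
    have h1 : ∀ i j, ((s.ev T k (w (k + 1)) i j : O) : F) =
        e * (bet s.η (w k) (w (k + 2)) i j : O) := by
      intro i j
      rw [← O.subtype_apply, ← O.subtype_apply, s.map_ev, map_bet]
      simp only [ValuationSubring.coe_subtype, hw]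
      exact he i j
    have h2 := s.val_one O hT hη (hv0 k) (hv0 (k + 1)) (hv0 (k + 2)) h1
    refine ⟨⟨e, (O.valuation_le_one_iff e).1 h2.le⟩, (O.valuation_eq_one_iff _).2 h2,
      fun i j => Subtype.ext (h1 i j)⟩
  have hstep : ∀ k k', k ≡ k' [MOD s.m] → v k = v k' → v (k + 1) = v (k' + 1) →
      v (k + 2) = v (k' + 2) := by
    intro k k' hk h0 h1
    obtain ⟨e, he, h2⟩ := hrelO k
    obtain ⟨e', he', h3⟩ := hrelO k'
    have h4 := bet_unique hη (hv0 k) (z := v (k + 2)) (z' := v (k' + 2)) (c := residue O e)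
      (c' := residue O e') fun i j => by
        have h5 := congrArg (residue O) (h2 i j)
        have h6 := congrArg (residue O) (h3 i j)
        rw [map_mul, map_bet, s.map_ev] at h5 h6
        change s.ev _ k (v (k + 1)) i j = _ * bet _ (v k) (v (k + 2)) i j at h5
        change s.ev _ k' (v (k' + 1)) i j = _ * bet _ (v k') (v (k' + 2)) i j at h6
        rw [← h5, h0, ← h6, h1, s.ev_congr _ hk]
    have h5 := (residue_ne_zero_iff_isUnit _).2 he
    have h6 := (residue_ne_zero_iff_isUnit _).2 he'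
    have h7 : idx (v (k + 2)) = idx (v (k' + 2)) :=
      idx_smul (c := residue O e' / residue O e) (div_ne_zero h6 h5) fun i => by
        rw [div_mul_eq_mul_div, eq_div_iff h5, mul_comm]; exact h4 i
    have h8 := h4 (idx (v (k + 2)))
    rw [hv1, h7, hv1, mul_one, mul_one] at h8
    funext i
    exact mul_left_cancel₀ h5 ((h4 i).trans (by rw [h8]))
  obtain ⟨r0, r1, hr1, hr1', hr⟩ := pigeon fun j => (v (j * s.m), v (j * s.m + 1))
  have hv2 : ∀ k, v (r0 * s.m + k + r1 * s.m) = v (r0 * s.m + k) ∧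
      v (r0 * s.m + k + r1 * s.m + 1) = v (r0 * s.m + k + 1) := by
    intro k
    induction k with
    | zero =>
      simp only [add_zero, ← add_mul]
      exact ⟨congrArg Prod.fst hr, congrArg Prod.snd hr⟩
    | succ k ih =>
      refine ⟨by rw [← add_assoc, add_right_comm]; exact ih.2, ?_⟩
      have := hstep _ _ (by simp [Nat.ModEq]) ih.1 ih.2
      rw [← add_assoc, add_right_comm _ 1]
      exact this
  have hvM : Function.Periodic v M0 := fun k => by simp only [v, hper k]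
  have hvd : Function.Periodic v (r1 * s.m) := fun k => by
    obtain ⟨t, ht⟩ := Nat.exists_eq_add_of_le
      (show r0 * s.m ≤ k + r0 * s.m * M0 by nlinarith [Nat.zero_le (r0 * s.m)])
    have h1 := hvM.nat_mul (r0 * s.m) (k + r1 * s.m)
    have h2 := hvM.nat_mul (r0 * s.m) k
    simp only [Nat.cast_id] at h1 h2
    rw [← h1, ← h2, add_right_comm, ht]
    exact (hv2 t).1
  obtain ⟨sec, hsec⟩ := (residue_surjective (R := O)).hasRightInverse
  have hsec' : ∀ x, ∃ y, x = sec (residue O x) + π * y := fun x => by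
    obtain ⟨y, hy⟩ := (hres (x - sec (residue O x))).1 (by rw [map_sub, hsec, sub_self])
    exact ⟨y, by rw [← hy]; ring⟩
  obtain ⟨r, hr0, hr2, hr3⟩ := s.disc hπ.ne_zero (fun x y hx hxy => by
      rw [← residue_ne_zero_iff_isUnit] at hx ⊢
      rw [← hres, map_sub, sub_eq_zero] at hxy
      rwa [← hxy])
    (fun x hx => by
      by_contra h0
      obtain ⟨e, u, rfl⟩ := IsDiscreteValuationRing.eq_unit_mul_pow_irreducible h0 hπ
      have := hx (e + 1)
      rw [pow_succ', mul_dvd_mul_iff_right (pow_ne_zero _ hπ.ne_zero)] at this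
      exact hπ.not_isUnit (isUnit_of_dvd_unit this u.isUnit))
    (fun l hl => by
      obtain ⟨e, u, h⟩ := IsDiscreteValuationRing.eq_unit_mul_pow_irreducible
        (x := (l : O)) (by exact_mod_cast hl.ne_zero) hπ
      refine ⟨e, u, u.isUnit, ?_, by rw [h, mul_comm]⟩
      by_contra h1
      exact hpr l hl (h ▸ (pow_dvd_pow π (by omega)).mul_left _))
    (ρ := κ × κ) (fun p => sec p.1 + π * sec p.2) (fun x => by
      obtain ⟨y, hy⟩ := hsec' x
      obtain ⟨z, hz⟩ := hsec' y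
      exact ⟨(residue O x, residue O y), z, by linear_combination hy + π * hz⟩)
    ((residue_ne_zero_iff_isUnit _).1 (by simpa using hη)) T w hrelO (d := r1 * s.m)
    (dvd_mul_left _ _) hM0 hper
    (fun k => ⟨idx (v k), fun j => by
      have := hvd.nat_mul j k
      simp only [Nat.cast_id] at this
      rw [← this]
      exact hw1 _⟩)
    (fun k j a => by
      have := hvd.nat_mul j k
      simp only [Nat.cast_id] at this
      rw [← hres, map_sub, sub_eq_zero]
      exact congrFun this a)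
  refine ⟨fun k i => w k i, fun k => ⟨c k, hc k, hw k⟩, fun k => ?_⟩
  obtain ⟨t, ht⟩ := Nat.mul_dvd_mul (Nat.dvd_factorial hr0 hr2)
    (Nat.mul_dvd_mul_right (Nat.dvd_factorial hr1 hr1') s.m)
  have := hr3.nat_mul t k
  simp only [Nat.cast_id] at this
  simp only [ht, mul_comm _ t, this]

end Pool.Agent.MP_a2aa7d_nt.H32

end MrgPart3

-- ======== part 4: formerly Pool.Agent.MP_a2aa7d_nt.h32.Gen
section MrgPart4

set_option autoImplicit false

namespace Pool.Agent.MP_a2aa7d_nt.H32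

open Finset MvPolynomial IsLocalRing NumberField

variable {I n ι : Type}

/-- A family of bihomogeneous equations that is natural in the coefficient ring. -/
structure Eqs (I n Q : Type) : Type 1 where
  G : ∀ {R : Type} [CommRing R], (I → R) → (n → R) → (n → R) → Q → R
  nat : ∀ {R R' : Type} [CommRing R] [CommRing R'] (f : R →+* R') (T : I → R) (x y : n → R)
    (q : Q), f (G T x y q) = G (fun i => f (T i)) (fun i => f (x i)) (fun i => f (y i)) q
  hom : ∀ q : Q, ∃ a b : ℕ, ∀ {R : Type} [CommRing R] (T : I → R) (x y : n → R) (c e : R),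
    G T (fun i => c * x i) (fun i => e * y i) q = c ^ a * e ^ b * G T x y q

lemma exists_X_pow {K : Type} [Field K] {v : n → Polynomial K} (hv : v ≠ 0) :
    ∃ (e : ℕ) (v' : n → Polynomial K), (∀ i, v i = Polynomial.X ^ e * v' i) ∧
      (fun i => (v' i).eval 0) ≠ 0 := by
  classical
  have h : ∃ e, ¬ ∀ i, Polynomial.X ^ (e + 1) ∣ v i := by
    obtain ⟨i, hi⟩ := Function.ne_iff.1 hv
    refine ⟨(v i).natDegree, fun h => ?_⟩
    simpa using Polynomial.natDegree_le_of_dvd (h i) hi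
  have h1 : ∀ i, Polynomial.X ^ Nat.find h ∣ v i := by
    rcases Nat.eq_zero_or_pos (Nat.find h) with h0 | h0
    · rw [h0]; simp
    · have := Nat.find_min h (Nat.sub_lt h0 one_pos)
      rwa [not_not, show Nat.find h - 1 + 1 = Nat.find h by omega] at this
  choose v' hv' using h1
  refine ⟨_, v', hv', fun h0 => Nat.find_spec h fun i => ?_⟩
  rw [hv' i, pow_succ]
  refine mul_dvd_mul_left _ (Polynomial.X_dvd_iff.2 ?_)
  rw [Polynomial.coeff_zero_eq_eval_zero]
  exact congrFun h0 i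

lemma clear_den [Fintype n] {R E : Type} [CommRing R] [IsDomain R] [Field E] {φ : R →+* E}
    (hφ : Function.Injective φ) {x : n → E} (hx : x ≠ 0)
    (h : ∀ i, ∃ r b, b ≠ 0 ∧ φ b * x i = φ r) :
    ∃ (c : E) (X : n → R), X ≠ 0 ∧ ∀ i, φ (X i) = c * x i := by
  classical
  choose r b hb h using h
  have h1 : ∀ i, φ (r i * ∏ j ∈ univ.erase i, b j) = φ (∏ j, b j) * x i := fun i => by
    rw [← mul_prod_erase univ b (mem_univ i), map_mul, map_mul, ← h]; ring
  refine ⟨_, _, fun h0 => ?_, h1⟩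
  obtain ⟨i, hi⟩ := Function.ne_iff.1 hx
  have h2 := h1 i
  rw [congrFun h0 i, Pi.zero_apply, map_zero] at h2
  exact mul_ne_zero ((map_ne_zero_iff φ hφ).2 (prod_ne_zero_iff.2 fun j _ => hb j)) hi h2.symm

variable {K : Type} [Field K] [NumberField K]

/-- A family with a member without rational points has no rational section. -/
lemma Eqs.no_section [Fintype n] {Q : Type} (g : Eqs I n Q) (τ : I → MvPolynomial ι (𝓞 K))
    (t2 : ι → K) (ht2 : ∀ x y : n → K, x ≠ 0 → y ≠ 0 →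
      ¬ ∀ q, g.G (fun i => eval₂Hom (algebraMap (𝓞 K) K) t2 (τ i)) x y q = 0)
    {E : Type} [Field E] {φ : MvPolynomial ι (𝓞 K) →+* E} (hφ : Function.Injective φ)
    {x y : n → E} (hx : x ≠ 0) (hy : y ≠ 0) (hG : ∀ q, g.G (fun i => φ (τ i)) x y q = 0)
    (h1 : ∀ i, ∃ r b, b ≠ 0 ∧ φ b * x i = φ r) (h2 : ∀ i, ∃ r b, b ≠ 0 ∧ φ b * y i = φ r) :
    False := by
  obtain ⟨c, X', hX0, hX⟩ := clear_den hφ hx h1
  obtain ⟨e, Y', hY0, hY⟩ := clear_den hφ hy h2
  have h3 : ∀ q, g.G τ X' Y' q = 0 := fun q => by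
    obtain ⟨a, b, h⟩ := g.hom q
    apply hφ
    rw [g.nat, map_zero]
    simp only [hX, hY]
    rw [h, hG, mul_zero]
  obtain ⟨i, hi⟩ := Function.ne_iff.1 hX0
  obtain ⟨j, hj⟩ := Function.ne_iff.1 hY0
  obtain ⟨t3, ht3⟩ : ∃ t3 : ι → 𝓞 K, eval t3 (X' i * Y' j) ≠ 0 := by
    by_contra! h
    exact mul_ne_zero hi hj (MvPolynomial.funext fun t => by rw [h t, map_zero])
  let l : MvPolynomial ι (𝓞 K) →+* Polynomial K :=
    eval₂Hom (Polynomial.C.comp (algebraMap (𝓞 K) K)) fun i =>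
      Polynomial.C (t2 i) + Polynomial.X * Polynomial.C (algebraMap (𝓞 K) K (t3 i) - t2 i)
  have hl0 : (Polynomial.evalRingHom 0).comp l = eval₂Hom (algebraMap (𝓞 K) K) t2 :=
    MvPolynomial.ringHom_ext (fun r => by simp [l]) fun i => by simp [l]
  have hl1 : (Polynomial.evalRingHom 1).comp l = (algebraMap (𝓞 K) K).comp (eval t3) :=
    MvPolynomial.ringHom_ext (fun r => by simp [l]) fun i => by simp [l]
  have hne : ∀ f, eval t3 f ≠ 0 → l f ≠ 0 := fun f hf h => by
    have := RingHom.congr_fun hl1 f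
    rw [RingHom.comp_apply, h, map_zero, RingHom.comp_apply] at this
    exact hf (IsFractionRing.injective (𝓞 K) K (by rw [← this, map_zero]))
  rw [map_mul] at ht3
  obtain ⟨a, v, hv, hv0⟩ := exists_X_pow (v := fun i => l (X' i))
    (Function.ne_iff.2 ⟨i, hne _ (left_ne_zero_of_mul ht3)⟩)
  obtain ⟨b, w, hw, hw0⟩ := exists_X_pow (v := fun i => l (Y' i))
    (Function.ne_iff.2 ⟨j, hne _ (right_ne_zero_of_mul ht3)⟩)
  refine ht2 _ _ hv0 hw0 fun q => ?_
  obtain ⟨a', b', h⟩ := g.hom q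
  have h4 := congrArg l (h3 q)
  rw [g.nat, map_zero] at h4
  simp only [hv, hw] at h4
  rw [h, mul_eq_zero, or_iff_right (by simp)] at h4
  have h5 := congrArg (Polynomial.evalRingHom 0) h4
  rw [g.nat, map_zero] at h5
  rw [← hl0]
  exact h5

variable [Fintype ι] [DecidableEq ι] [Fintype n]

/-- Chains of a fixed period occur for a density-zero set of parameters. -/
lemma Sys.fixed_period (s : Sys I n) {Q : Type} (g : Eqs I n Q) (τ : I → MvPolynomial ι (𝓞 K))
    {Δ : MvPolynomial ι (𝓞 K)} (hΔ0 : Δ ≠ 0) (hΔ : ∀ (F : Type) [Field F]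
      (ψ : MvPolynomial ι (𝓞 K) →+* F), ψ Δ ≠ 0 → s.ND fun i => ψ (τ i))
    (t2 : ι → K) (ht2 : ∀ x y : n → K, x ≠ 0 → y ≠ 0 →
      ¬ ∀ q, g.G (fun i => eval₂Hom (algebraMap (𝓞 K) K) t2 (τ i)) x y q = 0)
    {N : ℕ} (hN : 0 < N) :
    DZ {t : ι → ℤ | ∃ w : ℕ → n → K, (∀ k, w k ≠ 0) ∧
      (∀ k, s.Rel (fun i => evK K t (τ i)) k (w k) (w (k + 1)) (w (k + 2))) ∧
      Function.Periodic w N ∧ ∀ q, g.G (fun i => evK K t (τ i)) (w 0) (w 1) q = 0} := by
  classical
  have : NeZero N := ⟨hN.ne'⟩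
  let V : ZMod N → n → MvPolynomial (ZMod N × n) (MvPolynomial ι (𝓞 K)) := fun k i => X (k, i)
  let J : (ZMod N → n) → Ideal (MvPolynomial (ZMod N × n) (MvPolynomial ι (𝓞 K))) := fun a =>
    Ideal.span {f | (∃ (k : ZMod N) (i j i' j' : n), f =
      s.ev (fun i => C (τ i)) k.val (V (k + 1)) i j * bet s.η (V k) (V (k + 2)) i' j' -
      s.ev (fun i => C (τ i)) k.val (V (k + 1)) i' j' * bet s.η (V k) (V (k + 2)) i j) ∨
      (∃ k, f = V k (a k) - 1) ∨ ∃ q, f = g.G (fun i => C (τ i)) (V 0) (V 1) q}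
  refine (dz_biUnion (Set.finite_univ (α := ZMod N → n)) (fun a => {t : ι → ℤ |
    ∃ c : ZMod N × n → K, ∀ f ∈ J a, eval₂ (evK K t) c f = 0}) fun a _ => ?_).mono ?_
  · refine elim (J a) fun E _ φ c hφ hc => ?_
    have hc' : ∀ f ∈ J a, eval₂Hom φ c f = 0 := hc
    have hone : ∀ k, c (k, a k) = 1 := fun k => by
      have := hc' _ (Ideal.subset_span (Or.inr (Or.inl ⟨k, rfl⟩)))
      simpa [V, sub_eq_zero] using this
    have hne : ∀ k, (fun i => c (k, i)) ≠ 0 := fun k h => by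
      simpa [hone] using congrFun h (a k)
    have : CharZero E := charZero_of_injective_ringHom hφ
    have hη : (1 + s.η : E) ≠ 0 := by exact_mod_cast (show 1 + s.η ≠ 0 by omega)
    let L := FractionRing (MvPolynomial ι (𝓞 K))
    let _ : Algebra (MvPolynomial ι (𝓞 K)) E := φ.toAlgebra
    let _ : Algebra L E := (IsFractionRing.lift hφ : L →+* E).toAlgebra
    have hL : ∀ r, algebraMap L E (algebraMap _ L r) = φ r := fun r =>
      IsFractionRing.lift_algebraMap hφ r
    have : IsScalarTower (MvPolynomial ι (𝓞 K)) L E := .of_algebraMap_eq fun r => (hL r).symm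
    have hinj : Function.Injective (algebraMap (MvPolynomial ι (𝓞 K)) L) :=
      IsFractionRing.injective _ _
    have : CharZero L := charZero_of_injective_ringHom hinj
    have halg := s.alg (L := L) (E := E) (fun i => algebraMap _ L (τ i))
      (fun κ _ ψ => hΔ κ (ψ.comp (algebraMap _ L))
        ((map_ne_zero_iff ψ ψ.injective).2 ((map_ne_zero_iff _ hinj).2 hΔ0)))
      (fun k => k.val) (fun k i => c (k, i)) a hone fun k => by
        obtain ⟨i', j', h⟩ := bet_ne hη (hne k) (hne (k + 2))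
        refine ⟨s.ev (fun i => φ (τ i)) k.val (fun i => c (k + 1, i)) i' j' /
          bet s.η (fun i => c (k, i)) (fun i => c (k + 2, i)) i' j', fun i j => ?_⟩
        have := hc' _ (Ideal.subset_span (Or.inl ⟨k, i, j, i', j', rfl⟩))
        simp only [map_sub, map_mul, s.map_ev, map_bet, V, eval₂Hom_C, eval₂Hom_X'] at this
        simp only [hL]
        field_simp
        exact sub_eq_zero.1 this
    by_contra! hcon
    refine g.no_section τ t2 ht2 hφ (hne 0) (hne 1) (fun q => ?_)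
      (fun i => hcon _ ((IsFractionRing.isAlgebraic_iff _ L E).2 (halg 0 i)))
      fun i => hcon _ ((IsFractionRing.isAlgebraic_iff _ L E).2 (halg 1 i))
    have := hc' _ (Ideal.subset_span (Or.inr (Or.inr ⟨q, rfl⟩)))
    simpa only [g.nat, V, eval₂Hom_C, eval₂Hom_X'] using this
  · rintro t ⟨w, hw0, hrel, hper, hG⟩
    have hval : ∀ j : ℕ, w (j : ZMod N).val = w j := fun j => by
      rw [ZMod.val_natCast, hper.map_mod_nat]
    have hv1 : ∀ k : ZMod N, w (k + 1).val = w (k.val + 1) := fun k => by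
      rw [← hval (k.val + 1)]; simp
    have hv2 : ∀ k : ZMod N, w (k + 2).val = w (k.val + 2) := fun k => by
      rw [← hval (k.val + 2)]; simp
    choose a ha using fun k : ZMod N => Function.ne_iff.1 (hw0 k.val)
    refine Set.mem_biUnion (Set.mem_univ a)
      ⟨fun p => (w p.1.val (a p.1))⁻¹ * w p.1.val p.2, fun f hf => ?_⟩
    have : J a ≤ RingHom.ker (eval₂Hom (evK K t)
        fun p : ZMod N × n => (w p.1.val (a p.1))⁻¹ * w p.1.val p.2) := by
      refine Ideal.span_le.2 ?_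
      rintro _ (⟨k, i, j, i', j', rfl⟩ | ⟨k, rfl⟩ | ⟨q, rfl⟩)
      · obtain ⟨e, he⟩ := hrel k.val
        simp only [SetLike.mem_coe, RingHom.mem_ker, map_sub, map_mul, s.map_ev, map_bet, V,
          eval₂Hom_C, eval₂Hom_X', s.ev_smul, bet_smul]
        rw [hv1, hv2, he, he]; ring
      · simp only [SetLike.mem_coe, RingHom.mem_ker, map_sub, map_one, V, eval₂Hom_X']
        rw [inv_mul_cancel₀ (ha k), sub_self]
      · obtain ⟨a', b', h⟩ := g.hom q
        simp only [SetLike.mem_coe, RingHom.mem_ker, g.nat, V, eval₂Hom_C, eval₂Hom_X', h]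
        have h0 := hval 0
        have h1 := hval 1
        push_cast at h0 h1
        rw [h0, h1, hG, mul_zero]
    exact this hf

open IsDedekindDomain in
lemma loc_inst (v : HeightOneSpectrum (𝓞 K)) :
    IsLocalization v.asIdeal.primeCompl (v.valuationSubringAtPrime K) := inferInstance

open IsDedekindDomain in
/-- Periodic chains occur for a density-zero set of parameters. -/
theorem Sys.periodic_dz (s : Sys I n) {Q : Type} (g : Eqs I n Q) (τ : I → MvPolynomial ι (𝓞 K))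
    {Δ : MvPolynomial ι (𝓞 K)} (hΔ0 : Δ ≠ 0) (hΔ : ∀ (F : Type) [Field F]
      (ψ : MvPolynomial ι (𝓞 K) →+* F), ψ Δ ≠ 0 → s.ND fun i => ψ (τ i))
    (t2 : ι → K) (ht2 : ∀ x y : n → K, x ≠ 0 → y ≠ 0 →
      ¬ ∀ q, g.G (fun i => eval₂Hom (algebraMap (𝓞 K) K) t2 (τ i)) x y q = 0) :
    DZ {t : ι → ℤ | ∃ u : ℕ → n → K, (∀ k, u k ≠ 0) ∧
      (∀ k, s.Rel (fun i => evK K t (τ i)) k (u k) (u (k + 1)) (u (k + 2))) ∧
      (∃ M, 0 < M ∧ Function.Periodic u M) ∧
      ∀ q, g.G (fun i => evK K t (τ i)) (u 0) (u 1) q = 0} := by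
  intro δ hδ
  obtain ⟨B, hB⟩ := exists_coeff_not_mem K hΔ0
  obtain ⟨q1, hq1⟩ := exists_nat_ge ((Δ.totalDegree : ℝ) * 4 ^ Fintype.card ι / (δ / 2))
  obtain ⟨p, hp1, hp⟩ := Nat.exists_infinite_primes
    (B + q1 + Module.finrank ℤ (𝓞 K) + s.η + 2)
  obtain ⟨P, hP, hpP, hpd⟩ := exists_prime_over K hp
  have hP0 : P ≠ ⊥ := fun h => by
    rw [h, Ideal.mem_bot] at hpP
    exact hp.ne_zero (by exact_mod_cast hpP)
  let v : HeightOneSpectrum (𝓞 K) := ⟨P, hP.isPrime, hP0⟩
  let O := v.valuationSubringAtPrime K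
  have : IsLocalization.AtPrime O P := loc_inst v
  have : IsDiscreteValuationRing O :=
    IsLocalization.AtPrime.isDiscreteValuationRing_of_dedekind_domain (𝓞 K) hP0 O
  have : Finite (𝓞 K ⧸ P) := P.finiteQuotientOfFreeOfNeBot hP0
  have : Finite (ResidueField O) :=
    Finite.of_equiv _ (IsLocalization.AtPrime.equivQuotMaximalIdeal P O).toEquiv
  obtain ⟨π, hπ⟩ := IsDiscreteValuationRing.exists_irreducible O
  have hres : ∀ x : 𝓞 K, residue O (algebraMap _ O x) = 0 ↔ x ∈ P := fun x => by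
    rw [residue_eq_zero_iff, IsLocalization.AtPrime.to_map_mem_maximal_iff O P]
  obtain ⟨N, hN, -, hper⟩ := s.period O hπ (fun l hl h => by
      have h1 : (l : 𝓞 K) ∈ P ^ (l - 1) := by
        rw [← IsLocalization.AtPrime.under_maximalIdeal_pow P O, Ideal.mem_under, map_natCast,
          hπ.maximalIdeal_eq, Ideal.span_singleton_pow, Ideal.mem_span_singleton]
        exact h
      have h2 := Ideal.absNorm_dvd_absNorm_of_le ((Ideal.span_singleton_le_iff_mem _).2 h1)
      rw [map_pow, Ideal.absNorm_span_natCast] at h2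
      have h3 : p ∣ Ideal.absNorm P :=
        Int.natCast_dvd_natCast.1 (hpd _ (by exact_mod_cast Ideal.absNorm_mem P))
      have h4 := (pow_dvd_pow_of_dvd h3 _).trans h2
      have h5 : p = l := (Nat.prime_dvd_prime_iff_eq hp hl).1 (hp.dvd_of_dvd_pow
        ((dvd_pow_self p (by have := hl.two_le; omega)).trans h4))
      subst h5
      have := (Nat.pow_dvd_pow_iff_le_right hp.one_lt).1 h4
      omega)
    (fun h => by
      have h1 := (hres ((1 + s.η : ℕ) : 𝓞 K)).1 (by simpa using h)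
      have h2 := Nat.le_of_dvd (by omega)
        (Int.natCast_dvd_natCast.1 (hpd (1 + s.η : ℕ) (by exact_mod_cast h1)))
      omega)
  refine ((small_mod P hp.pos hpP hpd (hB p (by omega) P hpd)).union
    (s.fixed_period g τ hΔ0 hΔ t2 ht2 hN (δ / 2) (by positivity))).mono ?_ ?_
  · rintro t ⟨u, hu0, hrel, hM, hG⟩
    by_cases h : eval (fun i => (t i : 𝓞 K)) Δ ∈ P
    · exact Or.inl h
    let ψ : MvPolynomial ι (𝓞 K) →+* O := (algebraMap _ O).comp (eval fun i => (t i : 𝓞 K))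
    obtain ⟨w, hw, hwN⟩ := hper (fun i => ψ (τ i))
      (hΔ _ ((residue O).comp ψ) fun h0 => h ((hres _).1 h0)) u hu0 hrel hM
    choose c hc hw using hw
    have hw' : ∀ k, w k = fun i => c k * u k i := fun k => funext (hw k)
    refine Or.inr ⟨w, fun k h0 => hu0 k (funext fun i => ?_), fun k => ?_, hwN, fun q => ?_⟩
    · simpa [hw, hc k] using congrFun h0 i
    · rw [hw', hw', hw']
      exact (hrel k).smul s (hc _) (hc _)
    · obtain ⟨a, b, h⟩ := g.hom q
      rw [hw', hw', h, hG, mul_zero]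
  · have hp' : (0 : ℝ) < p := by exact_mod_cast hp.pos
    rw [div_le_iff₀ (by positivity)] at hq1
    have : (q1 : ℝ) ≤ p := by exact_mod_cast (show q1 ≤ p by omega)
    have : (Δ.totalDegree : ℝ) / p * 4 ^ Fintype.card ι ≤ δ / 2 := by
      rw [div_mul_eq_mul_div, div_le_iff₀ hp']
      nlinarith
    linarith

end Pool.Agent.MP_a2aa7d_nt.H32

end MrgPart4

-- ======== part 5: formerly Pool.Agent.MP_a2aa7d_nt.h32.Forms
section MrgPart5

set_option autoImplicit false

namespace Pool.Agent.MP_a2aa7d_nt.H32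

open Finset MvPolynomial NumberField

section mono

variable {α R R' : Type} [CommRing R] [CommRing R'] {d : ℕ}

lemma map_mono' (f : R →+* R') (μ : Sym α d) (x : α → R) :
    f (mono μ x) = mono μ fun i => f (x i) := by
  simp [mono, map_multiset_prod]

lemma mono_smul (μ : Sym α d) (c : R) (x : α → R) :
    mono μ (fun i => c * x i) = c ^ d * mono μ x := by
  simp [mono, Multiset.prod_map_mul]

lemma mono_one (h : d = 1) (μ : Sym α d) : ∃ k, ∀ x : α → R, mono μ x = x k := by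
  obtain ⟨k, hk⟩ := Multiset.card_eq_one.1 (μ.2.trans h)
  exact ⟨k, fun x => by rw [mono, hk]; simp⟩

lemma mono_two (h : d = 2) (μ : Sym α d) : ∃ k l, ∀ x : α → R, mono μ x = x k * x l := by
  obtain ⟨k, l, hk⟩ := Multiset.card_eq_two.1 (μ.2.trans h)
  exact ⟨k, l, fun x => by rw [mono, hk]; simp⟩

end mono

section form

variable {R R' : Type} [CommRing R] [CommRing R'] {n r : ℕ} {a b : Fin r → ℕ}

lemma map_form (f : R →+* R') (c : Idx n a b → R) (i : Fin r) (x y : Fin (n + 1) → R) :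
    f (form c i x y) = form (fun p => f (c p)) i (fun k => f (x k)) fun k => f (y k) := by
  simp [form, map_mono']

lemma form_smul (c : Idx n a b → R) (i : Fin r) (x y : Fin (n + 1) → R) (e e' : R) :
    form c i (fun k => e * x k) (fun k => e' * y k) = e ^ a i * e' ^ b i * form c i x y := by
  simp only [form, mono_smul, mul_sum]
  exact sum_congr rfl fun p _ => by ring

/-- The swapped coefficients. -/
def swp (c : Idx n a b → R) : Idx n b a → R := fun p => c ⟨p.1, p.2.2, p.2.1⟩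

lemma form_swp (c : Idx n a b → R) (i : Fin r) (x y : Fin (n + 1) → R) :
    form (swp c) i y x = form c i x y := by
  unfold form
  refine Fintype.sum_equiv (Equiv.prodComm _ _) _ _ fun p => ?_
  simp only [swp, Equiv.prodComm_apply, Prod.fst_swap, Prod.snd_swap]
  rw [mul_right_comm]
  rfl

lemma form_lin (c : Idx n a b → R) {i : Fin r} (h : b i = 1) (x y : Fin (n + 1) → R) :
    form c i x y = ∑ j, form c i x (Pi.single j 1) * y j := by
  simp only [form, sum_mul]
  rw [sum_comm]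
  refine sum_congr rfl fun p _ => ?_
  obtain ⟨k, hk⟩ := mono_one (R := R) h p.2
  simp only [hk]
  rw [sum_eq_single k (fun j _ hj => by simp [Pi.single_eq_of_ne hj.symm]) (by simp)]
  simp

lemma form_quad (c : Idx n a b → R) {i : Fin r} (h : b i = 2) (x : Fin (n + 1) → R) :
    ∃ q : Fin (n + 1) → Fin (n + 1) → R, ∀ y, form c i x y = ∑ k, ∑ l, q k l * y k * y l := by
  choose k l hkl using fun ν : Sym (Fin (n + 1)) (b i) => mono_two (R := R) h ν
  refine ⟨fun k' l' => ∑ p : Sym (Fin (n + 1)) (a i) × Sym (Fin (n + 1)) (b i),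
    if k p.2 = k' ∧ l p.2 = l' then c ⟨i, p⟩ * mono p.1 x else 0, fun y => ?_⟩
  simp only [form, sum_mul]
  conv_rhs => enter [2, k']; rw [sum_comm]
  rw [sum_comm]
  refine sum_congr rfl fun p _ => ?_
  simp [hkl, ite_and, mul_assoc]

/-- The forms as a natural family of equations. -/
def formEqs (n : ℕ) (a b : Fin r → ℕ) : Eqs (Idx n a b) (Fin (n + 1)) (Fin r) where
  G T x y i := form T i x y
  nat f T x y i := map_form f T i x y
  hom i := ⟨a i, b i, fun T x y c e => form_smul T i x y c e⟩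

end form

section realize

variable {α R0 : Type} [Fintype α] [DecidableEq α] [CommRing R0]

/-- A natural function of two vectors is a form of bidegree `(d, e)`. -/
def Rz (α R0 : Type) [Fintype α] [DecidableEq α] [CommRing R0] (d e : ℕ)
    (Φ : ∀ (R : Type) [CommRing R], (R0 →+* R) → (α → R) → (α → R) → R) : Prop :=
  ∃ q : Sym α d × Sym α e → R0, ∀ (R : Type) [CommRing R] (f : R0 →+* R) (x y : α → R),
    ∑ p, f (q p) * mono p.1 x * mono p.2 y = Φ R f x y

variable {d e d' e' : ℕ} {Φ Ψ : ∀ (R : Type) [CommRing R], (R0 →+* R) → (α → R) → (α → R) → R}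

lemma Rz.add (h : Rz α R0 d e Φ) (h' : Rz α R0 d e Ψ) :
    Rz α R0 d e fun R _ f x y => Φ R f x y + Ψ R f x y := by
  obtain ⟨q, hq⟩ := h
  obtain ⟨q', hq'⟩ := h'
  exact ⟨q + q', fun R _ f x y => by simp [← hq, ← hq', add_mul, sum_add_distrib]⟩

lemma Rz.smul (c : R0) (h : Rz α R0 d e Φ) :
    Rz α R0 d e fun R _ f x y => f c * Φ R f x y := by
  obtain ⟨q, hq⟩ := h
  exact ⟨fun p => c * q p, fun R _ f x y => by simp [← hq, mul_sum, mul_assoc]⟩

lemma Rz.sub (h : Rz α R0 d e Φ) (h' : Rz α R0 d e Ψ) :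
    Rz α R0 d e fun R _ f x y => Φ R f x y - Ψ R f x y := by
  obtain ⟨q, hq⟩ := h
  obtain ⟨q', hq'⟩ := h'
  exact ⟨q - q', fun R _ f x y => by simp [← hq, ← hq', sub_mul, sum_sub_distrib]⟩

lemma Rz.of_sum {β : Type} [Fintype β] (c : β → R0) (g : β → Sym α d × Sym α e) :
    Rz α R0 d e fun _ _ f x y => ∑ s, f (c s) * mono (g s).1 x * mono (g s).2 y := by
  classical
  refine ⟨fun p => ∑ s with g s = p, c s, fun R _ f x y => ?_⟩
  beta_reduce
  rw [← sum_fiberwise (s := univ) g]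
  refine sum_congr rfl fun p _ => ?_
  rw [map_sum, sum_mul, sum_mul]
  exact sum_congr rfl fun s hs => by rw [(mem_filter.1 hs).2]

lemma Rz.mul (h : Rz α R0 d e Φ) (h' : Rz α R0 d' e' Ψ) :
    Rz α R0 (d + d') (e + e') fun R _ f x y => Φ R f x y * Ψ R f x y := by
  obtain ⟨q, hq⟩ := h
  obtain ⟨q', hq'⟩ := h'
  obtain ⟨Q, hQ⟩ := Rz.of_sum (fun s : (Sym α d × Sym α e) × (Sym α d' × Sym α e') =>
    q s.1 * q' s.2) fun s => (s.1.1.append s.2.1, s.1.2.append s.2.2)
  refine ⟨Q, fun R _ f x y => ?_⟩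
  rw [hQ]
  simp only [← hq, ← hq', sum_mul_sum, Fintype.sum_prod_type (α₁ := Sym α d × Sym α e)]
  refine sum_congr rfl fun s _ => sum_congr rfl fun t _ => ?_
  simp only [mono, Sym.append, Multiset.map_add, Multiset.prod_add, map_mul]
  ring

lemma Rz.X (i : α) : Rz α R0 1 0 fun _ _ _ x _ => x i := by
  obtain ⟨Q, hQ⟩ := Rz.of_sum (R0 := R0) (fun _ : Unit => 1)
    fun _ => ((⟨{i}, rfl⟩ : Sym α 1), (Sym.nil : Sym α 0))
  exact ⟨Q, fun R _ f x y => by rw [hQ]; simp [mono]⟩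

lemma Rz.Y (i : α) : Rz α R0 0 1 fun _ _ _ _ y => y i := by
  obtain ⟨Q, hQ⟩ := Rz.of_sum (R0 := R0) (fun _ : Unit => 1)
    fun _ => ((Sym.nil : Sym α 0), (⟨{i}, rfl⟩ : Sym α 1))
  exact ⟨Q, fun R _ f x y => by rw [hQ]; simp [mono]⟩

lemma Rz.XY (i j : α) : Rz α R0 1 1 fun _ _ _ x y => x i * y j := (Rz.X i).mul (Rz.Y j)

lemma Rz.cast (h : Rz α R0 d e Φ) (hd : d' = d) (he : e' = e) : Rz α R0 d' e' Φ := by
  subst hd he; exact h

lemma exists_coef {n r : ℕ} {a b : Fin r → ℕ}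
    (Φ : Fin r → ∀ (R : Type) [CommRing R], (R0 →+* R) → (Fin (n + 1) → R) →
      (Fin (n + 1) → R) → R) (h : ∀ i, Rz (Fin (n + 1)) R0 (a i) (b i) (Φ i)) :
    ∃ T : Idx n a b → R0, ∀ (R : Type) [CommRing R] (f : R0 →+* R) (i : Fin r)
      (x y : Fin (n + 1) → R), form (fun p => f (T p)) i x y = Φ i R f x y := by
  choose q hq using h
  exact ⟨fun p => q p.1 p.2, fun R _ f i x y => hq i R f x y⟩

end realize

/-- A finite nonempty invariant set contains a periodic chain. -/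
lemma Sys.exists_periodic {I n K : Type} [Field K] (s : Sys I n) (T : I → K)
    (On : ℕ → (n → K) → (n → K) → Prop) (hper : ∀ k, On (k + s.m) = On k)
    (hsc : ∀ k u v (c : K), On k u v → On k u fun i => c * v i)
    (hstep : ∀ k u v, u ≠ 0 → v ≠ 0 → On k u v → ∃ w, w ≠ 0 ∧ s.Rel T k u v w ∧ On (k + 1) v w)
    (hfin : {P : Projectivization K (n → K) × Projectivization K (n → K) |
      On 0 P.1.rep P.2.rep}.Finite)
    (hne : {P : Projectivization K (n → K) × Projectivization K (n → K) |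
      On 0 P.1.rep P.2.rep}.Nonempty) :
    ∃ u : ℕ → n → K, (∀ k, u k ≠ 0) ∧ (∀ k, s.Rel T k (u k) (u (k + 1)) (u (k + 2))) ∧
      (∃ M, 0 < M ∧ Function.Periodic u M) ∧ On 0 (u 0) (u 1) := by
  classical
  obtain ⟨P0, hP0⟩ := hne
  have : Nonempty (Projectivization K (n → K)) := ⟨P0.1⟩
  let g : ℕ → Projectivization K (n → K) × Projectivization K (n → K) →
      Projectivization K (n → K) := fun k P =>
    Classical.epsilon fun W => s.Rel T k P.1.rep P.2.rep W.rep ∧ On (k + 1) P.2.rep W.rep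
  have hOn : Function.Periodic On s.m := hper
  have hRel : ∀ k j, s.Rel T (k + j * s.m) = s.Rel T k := fun k j => by
    funext y x z
    unfold Sys.Rel
    rw [s.ev_congr T (show k + j * s.m ≡ k [MOD s.m] by simp [Nat.ModEq])]
  have hOn' : ∀ k j, On (k + j * s.m) = On k := fun k j => by simpa using hOn.nat_mul j k
  have hg : ∀ k j, g (k + j * s.m) = g k := fun k j => by
    funext P
    simp only [g, hRel, add_right_comm k (j * s.m) 1, hOn']
  have hgs : ∀ k P, On k P.1.rep P.2.rep →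
      s.Rel T k P.1.rep P.2.rep (g k P).rep ∧ On (k + 1) P.2.rep (g k P).rep := by
    intro k P h
    refine Classical.epsilon_spec (p := fun W : Projectivization K (n → K) =>
      s.Rel T k P.1.rep P.2.rep W.rep ∧ On (k + 1) P.2.rep W.rep) ?_
    obtain ⟨w, hw, h1, h2⟩ := hstep k _ _ P.1.rep_nonzero P.2.rep_nonzero h
    obtain ⟨c, hc⟩ := Projectivization.exists_smul_eq_mk_rep K w hw
    refine ⟨Projectivization.mk K w hw, ?_⟩
    rw [← hc]
    have h3 := h1.smul s (b := 1) one_ne_zero c.ne_zero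
    simp only [one_mul] at h3
    exact ⟨h3, hsc _ _ _ c h2⟩
  let st : ℕ → Projectivization K (n → K) × Projectivization K (n → K) :=
    fun k => Nat.rec P0 (fun k P => (P.2, g k P)) k
  have hst : ∀ k, st (k + 1) = ((st k).2, g k (st k)) := fun _ => rfl
  have hinv : ∀ k, On k (st k).1.rep (st k).2.rep := by
    intro k
    induction k with
    | zero => exact hP0
    | succ k ih => exact (hgs k _ ih).2
  have := hfin.to_subtype
  obtain ⟨r0, r, hr0, -, hr⟩ := pigeon (α := {P : Projectivization K (n → K) ×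
    Projectivization K (n → K) | On 0 P.1.rep P.2.rep}) fun j =>
      ⟨st (j * s.m), by simpa [← hOn' 0 j] using hinv (j * s.m)⟩
  have hr' : ∀ k, st (k + r * s.m + r0 * s.m) = st (k + r0 * s.m) := by
    intro k
    induction k with
    | zero => simpa [add_mul, add_comm] using congrArg Subtype.val hr
    | succ k ih =>
      rw [add_right_comm k 1, add_right_comm _ 1, add_right_comm k 1, hst, hst, ih, hg, hg, hg]
  refine ⟨fun k => (st (k + r0 * s.m)).1.rep, fun k => Projectivization.rep_nonzero _,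
    fun k => ?_, ⟨r * s.m, Nat.mul_pos hr0 s.hm, fun k => by simp only [hr']⟩, ?_⟩
  · have := (hgs _ _ (hinv (k + r0 * s.m))).1
    rw [hRel] at this
    simpa only [add_right_comm k _ (r0 * s.m)] using this
  · have := hinv (0 + r0 * s.m)
    rw [hOn'] at this
    simpa only [add_comm 1 (r0 * s.m), zero_add] using this

end Pool.Agent.MP_a2aa7d_nt.H32

end MrgPart5

-- ======== part 6: formerly Pool.Agent.MP_a2aa7d_nt.h32.Final
section MrgPart6

set_option autoImplicit false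

namespace Pool.Agent.MP_a2aa7d_nt.H32

open Finset MvPolynomial NumberField Filter Topology

lemma DZ.tendsto {ι : Type} [Fintype ι] [DecidableEq ι] {Z : Set (ι → ℤ)} (h : DZ Z) :
    Tendsto (fun H : ℕ => (Set.ncard {t : ι → ℤ | (∀ k, |t k| ≤ H) ∧ t ∈ Z} : ℝ) /
      (2 * H + 1) ^ Nat.card ι) atTop (𝓝 0) := by
  classical
  have h1 : ∀ H : ℕ, Set.ncard {t : ι → ℤ | (∀ k, |t k| ≤ H) ∧ t ∈ Z} = cnt Z H := fun H => by
    rw [cnt, ← Set.ncard_coe_finset]
    congr 1
    ext t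
    simp [mem_box]
  simp only [h1, Nat.card_eq_fintype_card]
  rw [Metric.tendsto_nhds]
  intro ε hε
  filter_upwards [h (ε / 2) (by positivity)] with H hH
  rw [Real.dist_0_eq_abs, abs_of_nonneg (by positivity), div_lt_iff₀ (by positivity)]
  have : (0 : ℝ) < (2 * H + 1) ^ Fintype.card ι := by positivity
  nlinarith

variable {K : Type} [Field K] [NumberField K] {J : Type} [Fintype J] {n r : ℕ}
  {a b : Fin r → ℕ}

theorem final (ω : J → 𝓞 K) (hω : ω ≠ 0) (s : Sys (Idx n a b) (Fin (n + 1)))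
    (T0 : Idx n a b → ℤ) {p : ℕ} (hp : p.Prime)
    (hex : ∀ (κ : Type) [Field κ], (p : κ) = 0 → s.ND fun i => (T0 i : κ))
    (T2 : Idx n a b → K) (hT2 : ∀ x y, x ≠ 0 → y ≠ 0 → ¬ ∀ i, form T2 i x y = 0)
    (hchain : ∀ T : Idx n a b → K, s.ND T → (pts T).Finite → (pts T).Nonempty →
      ∃ u : ℕ → Fin (n + 1) → K, (∀ k, u k ≠ 0) ∧
        (∀ k, s.Rel T k (u k) (u (k + 1)) (u (k + 2))) ∧
        (∃ M, 0 < M ∧ Function.Periodic u M) ∧ ∀ i, form T i (u 0) (u 1) = 0) :
    Tendsto (fun H : ℕ => (Set.ncard {t : Idx n a b × J → ℤ | (∀ k, |t k| ≤ H) ∧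
      (pts fun i => ∑ j, (t (i, j) : K) * ω j).Finite ∧
      (pts fun i => ∑ j, (t (i, j) : K) * ω j).Nonempty} : ℝ) /
      (2 * H + 1) ^ Nat.card (Idx n a b × J)) atTop (𝓝 0) := by
  classical
  obtain ⟨j0, hj0⟩ := Function.ne_iff.1 hω
  have hj0' : algebraMap (𝓞 K) K (ω j0) ≠ 0 :=
    (map_ne_zero_iff _ (IsFractionRing.injective _ _)).2 hj0
  let τ : Idx n a b → MvPolynomial (Idx n a b × J) (𝓞 K) := fun i => ∑ j, X (i, j) * C (ω j)
  have hsurj : ∀ T : Idx n a b → K, ∃ t : Idx n a b × J → K,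
      ∀ i, eval₂Hom (algebraMap (𝓞 K) K) t (τ i) = T i := fun T =>
    ⟨fun q => if q.2 = j0 then T q.1 / algebraMap (𝓞 K) K (ω j0) else 0, fun i => by
      simp [τ, div_mul_cancel₀ _ hj0']⟩
  obtain ⟨Δ, hΔ0, hΔ⟩ := s.cert T0 hp hex
  have hnat : ∀ (F : Type) [CommRing F] (ψ : MvPolynomial (Idx n a b × J) (𝓞 K) →+* F),
      ψ (eval₂Hom (Int.castRingHom _) τ Δ) = eval₂Hom (Int.castRingHom F) (fun i => ψ (τ i)) Δ := by
    intro F _ ψ
    rw [map_eval₂Hom]
    congr 2
    exact RingHom.ext_int _ _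
  have h0 : eval₂Hom (Int.castRingHom _) τ Δ ≠ 0 := by
    intro h
    apply hΔ0
    apply map_injective (Int.castRingHom K) Int.cast_injective
    refine MvPolynomial.funext fun T => ?_
    obtain ⟨t, ht⟩ := hsurj T
    have := hnat K (eval₂Hom (algebraMap (𝓞 K) K) t)
    rw [h, map_zero] at this
    simp only [ht] at this
    rw [eval_map, map_zero, map_zero]
    exact this.symm
  obtain ⟨t2, ht2⟩ := hsurj T2
  have h1 := s.periodic_dz (formEqs n a b) τ h0 (fun F _ ψ h => hΔ F _ (hnat F ψ ▸ h)) t2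
    (by simp only [ht2]; exact hT2)
  refine DZ.tendsto (Z := {t : Idx n a b × J → ℤ |
    (pts fun i => ∑ j, (t (i, j) : K) * ω j).Finite ∧
      (pts fun i => ∑ j, (t (i, j) : K) * ω j).Nonempty}) (((dz_zero h0).union h1).mono ?_)
  rintro t ⟨h2, h3⟩
  by_cases h : eval (fun i => (t i : 𝓞 K)) (eval₂Hom (Int.castRingHom _) τ Δ) = 0
  · exact Or.inl h
  have hev : (fun i => evK K t (τ i)) = fun i => ∑ j, (t (i, j) : K) * ω j := by
    funext i
    simp [evK, τ]
  refine Or.inr ?_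
  change ∃ u : ℕ → Fin (n + 1) → K, _
  rw [hev]
  refine hchain _ ?_ h2 h3
  rw [← hev]
  refine hΔ K _ (hnat K (evK K t) ▸ ?_)
  exact (map_ne_zero_iff _ (IsFractionRing.injective (𝓞 K) K)).2 h

open IsDedekindDomain Polynomial in
/-- An Eisenstein binomial of every degree. -/
lemma exists_irred (K : Type) [Field K] [NumberField K] :
    ∃ π : K, ∀ m : ℕ, 0 < m → Irreducible (Polynomial.X ^ m - Polynomial.C π) := by
  obtain ⟨P, hP, h2, -⟩ := exists_prime_over K Nat.prime_two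
  have hP0 : P ≠ ⊥ := fun h => by
    rw [h, Ideal.mem_bot] at h2
    exact two_ne_zero (by exact_mod_cast h2)
  obtain ⟨π, h1, h3⟩ := Ideal.exists_mem_pow_notMem_pow_succ P hP0 hP.ne_top 1
  rw [pow_one] at h1
  refine ⟨π, fun m hm => ?_⟩
  have hmon : (Polynomial.X ^ m - Polynomial.C π).Monic := monic_X_pow_sub_C π hm.ne'
  have hdeg : (Polynomial.X ^ m - Polynomial.C π).natDegree = m := natDegree_X_pow_sub_C
  have hE : (Polynomial.X ^ m - Polynomial.C π).IsEisensteinAt P :=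
    hmon.isEisensteinAt_of_mem_of_notMem hP.ne_top (fun {i} hi => by
      rw [hdeg] at hi
      rw [Polynomial.coeff_sub, Polynomial.coeff_X_pow, if_neg hi.ne, Polynomial.coeff_C]
      split_ifs <;> simp [h1]) (by
      rw [Polynomial.coeff_sub, Polynomial.coeff_X_pow, if_neg hm.ne, Polynomial.coeff_C_zero]
      simpa using h3)
  have := (hmon.irreducible_iff_irreducible_map_fraction_map (K := K)).1
    (hE.irreducible hP.isPrime hmon.isPrimitive (by rw [hdeg]; exact hm))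
  simpa using this

end Pool.Agent.MP_a2aa7d_nt.H32

end MrgPart6

-- ======== part 7: formerly Pool.Agent.MP_a2aa7d_nt.h32.Plane
section MrgPart7

set_option autoImplicit false

namespace Pool.Agent.MP_a2aa7d_nt.H32

open Finset MvPolynomial

/-- The cross product. -/
def crs {R : Type} [CommRing R] (l m : Fin 3 → R) : Fin 3 → R :=
  ![l 1 * m 2 - l 2 * m 1, l 2 * m 0 - l 0 * m 2, l 0 * m 1 - l 1 * m 0]

/-- Restriction of the polar form of `Q` to the line `l`. -/
def lc {R : Type} [CommRing R] (l : Fin 3 → R) (Q : (Fin 3 → R) → R) (c d : Fin 3) : R :=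
  Q (fun k => crs l (Pi.single c 1) k + crs l (Pi.single d 1) k) - Q (crs l (Pi.single c 1)) -
    Q (crs l (Pi.single d 1))

lemma map_single {R R' α : Type} [CommRing R] [CommRing R'] [DecidableEq α] (f : R →+* R')
    (c k : α) : f ((Pi.single c 1 : α → R) k) = (Pi.single c 1 : α → R') k := by
  simp only [Pi.single_apply]; split_ifs <;> simp

lemma map_crs {R R' : Type} [CommRing R] [CommRing R'] (f : R →+* R') (l : Fin 3 → R)
    (c k : Fin 3) : f (crs l (Pi.single c 1) k) = crs (fun i => f (l i)) (Pi.single c 1) k := by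
  fin_cases k <;> simp [crs, map_single]

lemma crs_smul {R : Type} [CommRing R] (e : R) (l m : Fin 3 → R) :
    crs (fun i => e * l i) m = fun k => e * crs l m k := by
  funext k; fin_cases k <;> simp [crs] <;> ring

lemma lc_step {K : Type} [Field K] (l : Fin 3 → K) (q : Fin 3 → Fin 3 → K)
    (Q : (Fin 3 → K) → K) (hQ : ∀ y, Q y = ∑ k, ∑ j, q k j * y k * y j) {y : Fin 3 → K}
    (hy : y ≠ 0) (h1 : ∑ j, l j * y j = 0) (h2 : Q y = 0) (hS : ∃ c d, lc l Q c d ≠ 0) :
    ∃ z, z ≠ 0 ∧ (∃ e, ∀ c d, lc l Q c d = e * bet 1 y z c d) ∧ ∑ j, l j * z j = 0 ∧ Q z = 0 := by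
  obtain ⟨a, ha⟩ := Function.ne_iff.1 hy
  replace ha : y a ≠ 0 := ha
  set w := crs l (Pi.single a 1) with hw
  have hk : ∀ c, crs l (Pi.single c 1) = fun k => (y a)⁻¹ * (y c * w k - w c * y k) := by
    intro c
    funext k
    rw [eq_inv_mul_iff_mul_eq₀ ha, hw]
    rw [Fin.sum_univ_three] at h1
    fin_cases a <;> fin_cases c <;> fin_cases k <;> simp [crs] <;>
      first | ring1 | linear_combination h1 | linear_combination -h1
  have hlw : ∑ j, l j * w j = 0 := by
    rw [hw]; simp [crs, Fin.sum_univ_three]; ring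
  let B := ∑ k, ∑ j, q k j * (y k * w j + w k * y j)
  have hrel : ∀ c d, lc l Q c d =
      (y a)⁻¹ ^ 2 * bet 1 y (fun k => Q w * y k - B * w k) c d := by
    intro c d
    rw [hQ] at h2
    simp only [lc, hk c, hk d, hQ, B, bet, Fin.sum_univ_three] at h2 ⊢
    push_cast
    linear_combination (2 * (y a)⁻¹ ^ 2 * w c * w d) * h2
  refine ⟨fun k => Q w * y k - B * w k, fun h => ?_, ⟨_, hrel⟩, ?_, ?_⟩
  · obtain ⟨c, d, hcd⟩ := hS
    rw [hrel, h] at hcd
    simp [bet] at hcd
  · simp only [Fin.sum_univ_three] at h1 hlw ⊢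
    linear_combination Q w * h1 - B * hlw
  · rw [hQ] at h2
    generalize hQw : Q w = W
    rw [hQ] at hQw
    simp only [hQ, B, Fin.sum_univ_three] at h2 hQw ⊢
    rw [← hQw]
    linear_combination (q 0 0 * w 0 * w 0 + q 0 1 * w 0 * w 1 + q 0 2 * w 0 * w 2 +
      (q 1 0 * w 1 * w 0 + q 1 1 * w 1 * w 1 + q 1 2 * w 1 * w 2) +
      (q 2 0 * w 2 * w 0 + q 2 1 * w 2 * w 1 + q 2 2 * w 2 * w 2)) ^ 2 * h2

variable {r : ℕ} {a b : Fin r → ℕ}

/-- The conic `i'` restricted to the line `i` in the fibre over `x`. -/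
def fib {R : Type} [CommRing R] (T : Idx 2 a b → R) (i i' : Fin r) (x : Fin 3 → R) :
    Fin 3 → Fin 3 → R := lc (fun j => form T i x (Pi.single j 1)) (form T i' x)

lemma map_fib {R R' : Type} [CommRing R] [CommRing R'] (f : R →+* R') (T : Idx 2 a b → R)
    (i i' : Fin r) (x : Fin 3 → R) (c d : Fin 3) :
    f (fib T i i' x c d) = fib (fun p => f (T p)) i i' (fun k => f (x k)) c d := by
  simp only [fib, lc, map_sub, map_form, map_add, map_crs, map_single]

lemma fib_smul {R : Type} [CommRing R] (T : Idx 2 a b → R) (i : Fin r) {i' : Fin r}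
    (h : b i' = 2) (x : Fin 3 → R) (e : R) (c d : Fin 3) :
    fib T i i' (fun k => e * x k) c d = e ^ (2 * a i + a i') * fib T i i' x c d := by
  have h1 : ∀ j, form T i (fun k => e * x k) (Pi.single j 1) =
      e ^ a i * form T i x (Pi.single j 1) := fun j => by
    simpa using form_smul T i x (Pi.single j 1) e 1
  simp only [fib, lc, h1, crs_smul, ← mul_add, form_smul, h]
  ring

lemma fib_step {K : Type} [Field K] (T : Idx 2 a b → K) {i i' : Fin r} (h : b i = 1)
    (h' : b i' = 2) (hall : ∀ j, j = i ∨ j = i') {x y : Fin 3 → K} (hy : y ≠ 0)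
    (hon : ∀ j, form T j x y = 0) (hS : ∃ c d, fib T i i' x c d ≠ 0) :
    ∃ z, z ≠ 0 ∧ (∃ e, ∀ c d, fib T i i' x c d = e * bet 1 y z c d) ∧
      ∀ j, form T j x z = 0 := by
  obtain ⟨q, hq⟩ := form_quad T h' x
  obtain ⟨z, hz, h1, h2, h3⟩ := lc_step _ q _ hq hy (by rw [← form_lin T h]; exact hon i)
    (hon i') hS
  refine ⟨z, hz, h1, fun j => ?_⟩
  rcases hall j with rfl | rfl
  · rw [form_lin T h]; exact h2
  · exact h3

/-- The two alternating fibre maps. -/
def alt {R : Type} [CommRing R] (T : Idx 2 a b → R) (i i' j j' : Fin r) (k : ℕ) :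
    (Fin 3 → R) → Fin 3 → Fin 3 → R := if k % 2 = 0 then fib (swp T) j j' else fib T i i'

lemma map_alt {R R' : Type} [CommRing R] [CommRing R'] (f : R →+* R') (T : Idx 2 a b → R)
    (i i' j j' : Fin r) (k : ℕ) (x : Fin 3 → R) (c d : Fin 3) :
    f (alt T i i' j j' k x c d) = alt (fun p => f (T p)) i i' j j' k (fun k => f (x k)) c d := by
  unfold alt
  split_ifs
  · exact map_fib f _ _ _ _ _ _
  · exact map_fib f _ _ _ _ _ _

/-- The system attached to two forms on the product of two planes. -/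
noncomputable def planeSys (i i' j j' : Fin r) (hi' : b i' = 2) (hj' : a j' = 2)
    (hd : 2 * b j + b j' = 2 * a i + a i') (h3 : 3 ≤ 2 * a i + a i') : Sys (Idx 2 a b) (Fin 3) where
  S k := alt (fun p => X (Sum.inl p)) i i' j j' k fun c => X (Sum.inr c)
  d := 2 * a i + a i'
  η := 1
  m := 2
  hd := h3
  hm := two_pos
  per k := by simp only [alt, Nat.add_mod_right]
  hom R _ T x e k c d := by
    simp only [map_alt, eval₂Hom_X', Sum.elim_inl, Sum.elim_inr]
    unfold alt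
    split_ifs
    · rw [fib_smul _ _ hj', hd]
    · rw [fib_smul _ _ hi']

lemma planeSys_ev {i i' j j' : Fin r} (hi' : b i' = 2) (hj' : a j' = 2)
    (hd : 2 * b j + b j' = 2 * a i + a i') (h3 : 3 ≤ 2 * a i + a i') {R : Type} [CommRing R]
    (T : Idx 2 a b → R) (k : ℕ) (x : Fin 3 → R) (c d : Fin 3) :
    (planeSys i i' j j' hi' hj' hd h3).ev T k x c d = alt T i i' j j' k x c d := by
  simp only [Sys.ev, planeSys, map_alt, eval₂Hom_X', Sum.elim_inl, Sum.elim_inr]

lemma planeSys_chain {i i' j j' : Fin r} (hi : b i = 1) (hi' : b i' = 2) (hj : a j = 1)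
    (hj' : a j' = 2) (hd : 2 * b j + b j' = 2 * a i + a i') (h3 : 3 ≤ 2 * a i + a i')
    (hall : ∀ k, k = i ∨ k = i') (hall' : ∀ k, k = j ∨ k = j') {K : Type} [Field K]
    (T : Idx 2 a b → K) (hT : (planeSys i i' j j' hi' hj' hd h3).ND T) (h1 : (pts T).Finite)
    (h2 : (pts T).Nonempty) : ∃ u : ℕ → Fin 3 → K, (∀ k, u k ≠ 0) ∧
      (∀ k, (planeSys i i' j j' hi' hj' hd h3).Rel T k (u k) (u (k + 1)) (u (k + 2))) ∧
      (∃ M, 0 < M ∧ Function.Periodic u M) ∧ ∀ i, form T i (u 0) (u 1) = 0 := by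
  refine (planeSys i i' j j' hi' hj' hd h3).exists_periodic T
    (fun k u v => if k % 2 = 0 then ∀ l, form T l u v = 0 else ∀ l, form T l v u = 0)
    (fun k => by simp only [planeSys, Nat.add_mod_right]) (fun k u v c h => ?_)
    (fun k u v hu hv h => ?_) h1 h2
  · split_ifs at h ⊢
    · intro l; simpa [h l] using form_smul T l u v 1 c
    · intro l; simpa [h l] using form_smul T l v u c 1
  · have hS := hT k v hv
    unfold Sys.Rel
    simp only [planeSys_ev] at hS ⊢
    unfold alt at hS ⊢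
    by_cases hk : k % 2 = 0
    · rw [if_pos hk] at h hS ⊢
      simp only [if_neg (show ¬ (k + 1) % 2 = 0 by omega)]
      obtain ⟨z, hz, h4, h5⟩ := fib_step (swp T) hj hj' hall' hu
        (fun l => by rw [form_swp]; exact h l) hS
      exact ⟨z, hz, h4, fun l => by rw [← form_swp]; exact h5 l⟩
    · rw [if_neg hk] at h hS ⊢
      simp only [if_pos (show (k + 1) % 2 = 0 by omega)]
      exact fib_step T hi hi' hall hu h hS

lemma lc_nd {κ : Type} [Field κ] (h2 : (2 : κ) ≠ 0) (l : Fin 3 → κ) (Q : (Fin 3 → κ) → κ)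
    (q0 q1 q2 : κ) (hQ : ∀ y, Q y = q0 * y 0 ^ 2 + q1 * y 1 ^ 2 + q2 * y 2 ^ 2)
    (h : ∀ c d, lc l Q c d = 0) :
    (q2 * l 0 * l 1 = 0 ∧ q1 * l 0 * l 2 = 0 ∧ q0 * l 1 * l 2 = 0) ∧
      q1 * l 2 ^ 2 + q2 * l 1 ^ 2 = 0 ∧ q0 * l 2 ^ 2 + q2 * l 0 ^ 2 = 0 ∧
      q0 * l 1 ^ 2 + q1 * l 0 ^ 2 = 0 := by
  have h01 := h 0 1
  have h02 := h 0 2
  have h12 := h 1 2
  have h00 := h 0 0
  have h11 := h 1 1
  have h22 := h 2 2
  simp [lc, hQ, crs] at h01 h02 h12 h00 h11 h22
  refine ⟨⟨?_, ?_, ?_⟩, ?_, ?_, ?_⟩ <;> apply mul_left_cancel₀ h2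
  · linear_combination -h01
  · linear_combination -h02
  · linear_combination -h12
  · linear_combination h00
  · linear_combination h11
  · linear_combination h22

end Pool.Agent.MP_a2aa7d_nt.H32

end MrgPart7

-- ======== part 8: formerly Pool.Agent.MP_a2aa7d_nt.h32.PlaneEx
section MrgPart8

set_option autoImplicit false

namespace Pool.Agent.MP_a2aa7d_nt.H32

open Finset NumberField Filter Topology

section alg

open Polynomial

variable {K : Type} [Field K] {π : K}

lemma poly_zero {m : ℕ} (x : Fin m → K) (h : X ^ m - C π ∣ ∑ i, C (x i) * X ^ (i : ℕ))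
    (hm : 0 < m) : x = 0 := by
  have h1 := eq_zero_of_dvd_of_degree_lt h (by
    rw [degree_X_pow_sub_C hm]; exact degree_sum_fin_lt x)
  funext j
  have := congrArg (fun p => p.coeff j) h1
  simpa [finsetSum_coeff, coeff_X_pow, Fin.val_inj] using this

lemma sq_aniso (h : Irreducible (X ^ 2 - C π)) {u v : K} (huv : u ^ 2 = π * v ^ 2) :
    u = 0 ∧ v = 0 := by
  by_cases hv : v = 0
  · exact ⟨by simpa [hv] using huv, hv⟩
  · exact absurd (by field_simp; linear_combination huv)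
      ((X_pow_sub_C_irreducible_iff_of_prime Nat.prime_two).1 h (u / v))

lemma cub_aniso (h : Irreducible (X ^ 3 - C π)) {x y : Fin 3 → K}
    (h0 : x 0 * y 0 + π * (x 1 * y 2 + x 2 * y 1) = 0)
    (h1 : x 0 * y 1 + x 1 * y 0 + π * (x 2 * y 2) = 0)
    (h2 : x 0 * y 2 + x 1 * y 1 + x 2 * y 0 = 0) : x = 0 ∨ y = 0 := by
  have h3 : X ^ 3 - C π ∣ (∑ i, C (x i) * X ^ (i : ℕ)) * ∑ i, C (y i) * X ^ (i : ℕ) := by
    refine ⟨C (x 1) * C (y 2) + C (x 2) * C (y 1) + C (x 2) * C (y 2) * X, ?_⟩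
    have h0' := congrArg C h0
    have h1' := congrArg C h1
    have h2' := congrArg C h2
    simp only [map_add, map_mul, map_zero, Fin.sum_univ_three] at h0' h1' h2' ⊢
    simp only [Fin.val_zero, Fin.val_one, Fin.val_two]
    linear_combination h0' + X * h1' + X ^ 2 * h2'
  exact (h.prime.dvd_or_dvd h3).imp (fun h => poly_zero x h three_pos)
    fun h => poly_zero y h three_pos

lemma sharp_aniso (h : Irreducible (X ^ 3 - C π)) {x : Fin 3 → K}
    (h0 : x 0 * x 0 - π * (x 1 * x 2) = 0) (h1 : π * (x 2 * x 2) - x 0 * x 1 = 0)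
    (h2 : x 1 * x 1 - x 0 * x 2 = 0) : x = 0 := by
  by_cases hv : x 2 = 0
  · funext i
    fin_cases i
    · simpa [hv] using h0
    · simpa [hv] using h2
    · exact hv
  · exact absurd (by field_simp; linear_combination x 1 * h2 - x 2 * h1)
      ((X_pow_sub_C_irreducible_iff_of_prime Nat.prime_three).1 h (x 1 / x 2))

end alg

variable {r : ℕ} {a b : Fin r → ℕ}

lemma exists_coef2 {R0 : Type} [CommRing R0] {i i' : Fin r} (hne : i' ≠ i)
    (hall : ∀ k, k = i ∨ k = i') {d e d' e' : ℕ} (ha : a i = d) (hb : b i = e) (ha' : a i' = d')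
    (hb' : b i' = e')
    {Φ Ψ : ∀ (R : Type) [CommRing R], (R0 →+* R) → (Fin 3 → R) → (Fin 3 → R) → R}
    (h : Rz (Fin 3) R0 d e Φ) (h' : Rz (Fin 3) R0 d' e' Ψ) :
    ∃ T : Idx 2 a b → R0, ∀ (R : Type) [CommRing R] (f : R0 →+* R) (x y : Fin 3 → R),
      form (fun p => f (T p)) i x y = Φ R f x y ∧ form (fun p => f (T p)) i' x y = Ψ R f x y := by
  obtain ⟨T, hT⟩ := exists_coef (n := 2) (a := a) (b := b) (fun k => if k = i then Φ else Ψ)
    fun k => by
      rcases hall k with rfl | rfl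
      · rw [if_pos rfl]; exact h.cast ha hb
      · rw [if_neg hne]; exact h'.cast ha' hb'
  exact ⟨T, fun R _ f x y => ⟨by rw [hT, if_pos rfl], by rw [hT, if_neg hne]⟩⟩

lemma two_ne {κ : Type} [Field κ] (h : ((3 : ℕ) : κ) = 0) : (2 : κ) ≠ 0 := fun h2 =>
  one_ne_zero (α := κ) (by push_cast at h; linear_combination h - h2)

lemma vec_zero {κ : Type} [Field κ] {x : Fin 3 → κ} {m : ℕ} (h0 : x 0 ^ m = 0) (h1 : x 1 ^ m = 0)
    (h2 : x 2 ^ m = 0) : x = 0 := by
  funext i
  fin_cases i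
  exacts [eq_zero_of_pow_eq_zero h0, eq_zero_of_pow_eq_zero h1, eq_zero_of_pow_eq_zero h2]

variable {K : Type} [Field K] [NumberField K] {J : Type} [Fintype J]

theorem wehler (ω : J → 𝓞 K) (hω : ω ≠ 0) {i i' : Fin r} (hne : i' ≠ i)
    (hall : ∀ k, k = i ∨ k = i') (ha : a i = 1) (hb : b i = 1) (ha' : a i' = 2) (hb' : b i' = 2) :
    Tendsto (fun H : ℕ => (Set.ncard {t : Idx 2 a b × J → ℤ | (∀ k, |t k| ≤ H) ∧
      (pts fun i => ∑ j, (t (i, j) : K) * ω j).Finite ∧
      (pts fun i => ∑ j, (t (i, j) : K) * ω j).Nonempty} : ℝ) /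
      (2 * H + 1) ^ Nat.card (Idx 2 a b × J)) atTop (𝓝 0) := by
  have hd : 2 * b i + b i' = 2 * a i + a i' := by omega
  have h3 : 3 ≤ 2 * a i + a i' := by omega
  obtain ⟨T0, hT0⟩ := exists_coef2 (R0 := ℤ) hne hall ha hb ha' hb'
    (((Rz.XY 0 0).add (Rz.XY 1 1)).add (Rz.XY 2 2))
    ((((Rz.XY 0 1).mul (Rz.XY 0 1)).add ((Rz.XY 1 2).mul (Rz.XY 1 2))).add
      ((Rz.XY 2 0).mul (Rz.XY 2 0)))
  obtain ⟨π, hπ⟩ := exists_irred K
  have l1 := ((Rz.XY 0 1).add (Rz.XY 1 0)).add ((Rz.XY (2 : Fin 3) 2).smul π)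
  have l2 := ((Rz.XY (R0 := K) 0 2).add (Rz.XY 1 1)).add (Rz.XY (2 : Fin 3) 0)
  obtain ⟨T2, hT2⟩ := exists_coef2 (R0 := K) hne hall ha hb ha' hb'
    ((Rz.XY 0 0).add (((Rz.XY 1 2).add (Rz.XY 2 1)).smul π))
    ((l1.mul l1).sub ((l2.mul l2).smul π))
  refine final ω hω (planeSys i i' i i' hb' ha' hd h3) T0 Nat.prime_three
    (fun κ _ hκ k x hx => ?_) T2 (fun x y hx hy h => ?_)
    fun T => planeSys_chain hb hb' ha ha' hd h3 hall hall T
  · by_contra! h
    apply hx
    have h1 := hT0 κ (Int.castRingHom κ)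
    simp only [eq_intCast] at h1
    replace h : ∀ c d, alt (fun p => (T0 p : κ)) _ _ _ _ k x c d = 0 := fun c d =>
      (planeSys_ev _ _ hd h3 _ k x c d).symm.trans (h c d)
    unfold alt at h
    split_ifs at h
    · obtain ⟨⟨e1, e2, e3⟩, e4, e5, e6⟩ := lc_nd (two_ne hκ) _ _ (x 1 ^ 2) (x 2 ^ 2) (x 0 ^ 2)
        (fun y => by rw [form_swp, (h1 _ _).2]; ring) h
      simp [form_swp, h1] at e1 e2 e3 e4 e5 e6
      refine vec_zero (m := 4) ?_ ?_ ?_ <;> grind
    · obtain ⟨⟨e1, e2, e3⟩, e4, e5, e6⟩ := lc_nd (two_ne hκ) _ _ (x 2 ^ 2) (x 0 ^ 2) (x 1 ^ 2)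
        (fun y => by rw [(h1 _ _).2]; ring) h
      simp [h1] at e1 e2 e3 e4 e5 e6
      refine vec_zero (m := 4) ?_ ?_ ?_ <;> grind
  · obtain ⟨h1, h2⟩ := hT2 K (RingHom.id K) x y
    simp only [RingHom.id_apply, h] at h1 h2
    obtain ⟨h4, h5⟩ := sq_aniso (hπ 2 two_pos) (u := x 0 * y 1 + x 1 * y 0 + π * (x 2 * y 2))
      (v := x 0 * y 2 + x 1 * y 1 + x 2 * y 0) (by linear_combination -h2)
    exact (cub_aniso (hπ 3 three_pos) h1.symm h4 h5).elim hx hy

theorem mixed (ω : J → 𝓞 K) (hω : ω ≠ 0) {i i' : Fin r} (hne : i' ≠ i)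
    (hall : ∀ k, k = i ∨ k = i') (ha : a i = 2) (hb : b i = 1) (ha' : a i' = 1) (hb' : b i' = 2) :
    Tendsto (fun H : ℕ => (Set.ncard {t : Idx 2 a b × J → ℤ | (∀ k, |t k| ≤ H) ∧
      (pts fun i => ∑ j, (t (i, j) : K) * ω j).Finite ∧
      (pts fun i => ∑ j, (t (i, j) : K) * ω j).Nonempty} : ℝ) /
      (2 * H + 1) ^ Nat.card (Idx 2 a b × J)) atTop (𝓝 0) := by
  have hd : 2 * b i' + b i = 2 * a i + a i' := by omega
  have h3 : 3 ≤ 2 * a i + a i' := by omega
  obtain ⟨T0, hT0⟩ := exists_coef2 (R0 := ℤ) hne hall ha hb ha' hb'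
    ((((Rz.X 0).mul (Rz.XY 0 0)).add ((Rz.X 1).mul (Rz.XY 1 1))).add ((Rz.X 2).mul (Rz.XY 2 2)))
    ((((Rz.XY 0 1).mul (Rz.Y 1)).add ((Rz.XY 1 2).mul (Rz.Y 2))).add ((Rz.XY 2 0).mul (Rz.Y 0)))
  obtain ⟨π, hπ⟩ := exists_irred K
  have s0 := ((Rz.X 0).mul (Rz.X 0)).sub (((Rz.X 1).mul (Rz.X (2 : Fin 3))).smul π)
  have s1 := (((Rz.X 2).mul (Rz.X 2)).smul π).sub ((Rz.X 0).mul (Rz.X (1 : Fin 3)))
  have s2 := ((Rz.X (R0 := K) 1).mul (Rz.X 1)).sub ((Rz.X 0).mul (Rz.X (2 : Fin 3)))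
  have t0 := ((Rz.Y 0).mul (Rz.Y 0)).sub (((Rz.Y 1).mul (Rz.Y (2 : Fin 3))).smul π)
  have t1 := (((Rz.Y 2).mul (Rz.Y 2)).smul π).sub ((Rz.Y 0).mul (Rz.Y (1 : Fin 3)))
  have t2 := ((Rz.Y (R0 := K) 1).mul (Rz.Y 1)).sub ((Rz.Y 0).mul (Rz.Y (2 : Fin 3)))
  obtain ⟨T2, hT2⟩ := exists_coef2 (R0 := K) hne hall ha hb ha' hb'
    (((s0.mul (Rz.Y 0)).add (((s1.mul (Rz.Y 2)).add (s2.mul (Rz.Y 1))).smul π)).sub
      (((s0.mul (Rz.Y 1)).add (s1.mul (Rz.Y 0))).add ((s2.mul (Rz.Y 2)).smul π)))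
    ((((Rz.X 0).mul t1).add ((Rz.X 1).mul t0)).add (((Rz.X 2).mul t2).smul π))
  refine final ω hω (planeSys i i' i' i hb' ha hd h3) T0 Nat.prime_three
    (fun κ _ hκ k x hx => ?_) T2 (fun x y hx hy h => ?_)
    fun T => planeSys_chain hb hb' ha' ha hd h3 hall (fun k => (hall k).symm) T
  · by_contra! h
    apply hx
    have h1 := hT0 κ (Int.castRingHom κ)
    simp only [eq_intCast] at h1
    replace h : ∀ c d, alt (fun p => (T0 p : κ)) _ _ _ _ k x c d = 0 := fun c d =>
      (planeSys_ev _ _ hd h3 _ k x c d).symm.trans (h c d)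
    unfold alt at h
    split_ifs at h
    · obtain ⟨⟨e1, e2, e3⟩, e4, e5, e6⟩ := lc_nd (two_ne hκ) _ _ (x 0) (x 1) (x 2)
        (fun y => by rw [form_swp, (h1 _ _).1]; ring) h
      simp [form_swp, h1] at e1 e2 e3 e4 e5 e6
      refine vec_zero (m := 5) ?_ ?_ ?_ <;> grind
    · obtain ⟨⟨e1, e2, e3⟩, e4, e5, e6⟩ := lc_nd (two_ne hκ) _ _ (x 2) (x 0) (x 1)
        (fun y => by rw [(h1 _ _).2]; ring) h
      simp [h1] at e1 e2 e3 e4 e5 e6
      refine vec_zero (m := 5) ?_ ?_ ?_ <;> grind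
  · obtain ⟨h1, h2⟩ := hT2 K (RingHom.id K) x y
    simp only [RingHom.id_apply, h] at h1 h2
    let s : Fin 3 → K := ![x 0 * x 0 - π * (x 1 * x 2), π * (x 2 * x 2) - x 0 * x 1,
      x 1 * x 1 - x 0 * x 2]
    obtain ⟨h4, h5⟩ := sq_aniso (hπ 2 two_pos) (u := s 0 * y 1 + s 1 * y 0 + π * (s 2 * y 2))
      (v := s 0 * y 2 + s 1 * y 1 + s 2 * y 0) (by
        simp only [s, Matrix.cons_val]
        linear_combination (x 0 ^ 3 + π * x 1 ^ 3 + π ^ 2 * x 2 ^ 3 - 3 * π * x 0 * x 1 * x 2) *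
          h2 + ((x 0 * x 0 - π * (x 1 * x 2)) * y 1 + (π * (x 2 * x 2) - x 0 * x 1) * y 0 +
            π * ((x 1 * x 1 - x 0 * x 2) * y 2)) * h1)
    refine (cub_aniso (hπ 3 three_pos) (x := s) ?_ h4 h5).elim (fun h => hx ?_) hy
    · simp only [s, Matrix.cons_val] at h4 ⊢
      linear_combination h4 - h1
    · exact sharp_aniso (hπ 3 three_pos) (congrFun h 0) (congrFun h 1) (congrFun h 2)

end Pool.Agent.MP_a2aa7d_nt.H32

end MrgPart8

-- ======== part 9: formerly Pool.Agent.MP_a2aa7d_nt.h32.Quart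
section MrgPart9

set_option autoImplicit false

namespace Pool.Agent.MP_a2aa7d_nt.H32

open Finset NumberField Filter Topology Matrix MvPolynomial

lemma adj_left {m K : Type} [Fintype m] [DecidableEq m] [Field K] (M : Matrix m m K) {u : m → K}
    (hu : u ᵥ* M = 0) (a i j : m) : u a * M.adjugate j i = u i * M.adjugate j a := by
  by_cases hia : i = a
  · rw [hia]
  rw [adjugate_apply, adjugate_apply]
  set N := M.updateRow i (Pi.single j 1) with hN
  have h1 : det (N.updateRow a (∑ k, u k • N k)) = u a * det N := det_updateRow_sum N a u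
  have h2 : ∑ k, u k • N k = u i • (Pi.single j 1 : m → K) - u i • M i := by
    have h3 : ∑ k, u k • M k = 0 := by rw [← hu, vecMul_eq_sum]
    rw [← add_sum_erase _ _ (mem_univ i)] at h3 ⊢
    rw [hN, updateRow_self, sum_congr rfl fun k hk => by rw [updateRow_ne (ne_of_mem_erase hk)]]
    rw [eq_neg_of_add_eq_zero_right h3, sub_eq_add_neg]
  have h4 : det (N.updateRow a (Pi.single j 1)) = 0 :=
    det_zero_of_row_eq hia (by rw [updateRow_ne hia, hN, updateRow_self, updateRow_self])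
  have h5 : N.updateRow a (M i) = (M.updateRow a (Pi.single j 1)).submatrix (Equiv.swap i a) id := by
    ext k l
    by_cases hk : k = a
    · subst hk; simp [updateRow_ne hia]
    · by_cases hk' : k = i
      · subst hk'; simp [hN, updateRow_ne hia]
      · simp [hN, updateRow_ne hk, updateRow_ne hk', Equiv.swap_apply_of_ne_of_ne hk' hk]
  rw [← h1, h2, sub_eq_add_neg, det_updateRow_add, ← neg_smul, det_updateRow_smul,
    det_updateRow_smul, h4, h5, det_permute, Equiv.Perm.sign_swap hia]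
  simp

lemma adj_step {m K : Type} [Fintype m] [DecidableEq m] [Field K] (M : Matrix m m K) {u : m → K}
    (hu0 : u ≠ 0) (hu : u ᵥ* M = 0) (hS : ∃ i j, M.adjugate j i ≠ 0) :
    ∃ w, w ≠ 0 ∧ (∃ c, ∀ i j, M.adjugate j i = c * bet 0 u w i j) ∧ M *ᵥ w = 0 := by
  obtain ⟨a, ha⟩ := Function.ne_iff.1 hu0
  replace ha : u a ≠ 0 := ha
  have h1 : ∀ i j, M.adjugate j i = (u a)⁻¹ * bet 0 u (fun j => M.adjugate j a) i j := by
    intro i j
    rw [eq_inv_mul_iff_mul_eq₀ ha, adj_left M hu a i j]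
    simp [bet]
  refine ⟨fun j => M.adjugate j a, fun h => ?_, ⟨_, h1⟩, ?_⟩
  · obtain ⟨i, j, hij⟩ := hS
    rw [h1, h] at hij
    simp [bet] at hij
  · have h2 : M.det = 0 := exists_vecMul_eq_zero_iff.1 ⟨u, hu0, hu⟩
    funext i
    have := congrFun (congrFun (mul_adjugate M) i) a
    rw [h2, zero_smul] at this
    exact this

/-- Cyclic rotation of the slots of a tensor. -/
def rot {R : Type} (t : Fin 4 → Fin 4 → Fin 4 → R) : Fin 4 → Fin 4 → Fin 4 → R :=
  fun p q r => t r p q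

/-- Contraction in the middle slot. -/
def mat {R : Type} [CommRing R] (t : Fin 4 → Fin 4 → Fin 4 → R) (v : Fin 4 → R) :
    Matrix (Fin 4) (Fin 4) R := Matrix.of fun p r => ∑ q, t p q r * v q

lemma map_rot {R R' : Type} (f : R → R') (t : Fin 4 → Fin 4 → Fin 4 → R) (k : ℕ) (p q r : Fin 4) :
    f (rot^[k] t p q r) = rot^[k] (fun p q r => f (t p q r)) p q r := by
  induction k generalizing t with
  | zero => rfl
  | succ k ih => exact ih _

variable {a b : Fin 4 → ℕ}

/-- The tensor of four bilinear forms. -/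
def ten {R : Type} [CommRing R] (T : Idx 3 a b → R) : Fin 4 → Fin 4 → Fin 4 → R :=
  fun p q i => form T i (Pi.single p 1) (Pi.single q 1)

/-- The matrices of cubic minors. -/
def cub {R : Type} [CommRing R] (T : Idx 3 a b → R) (k : ℕ) (v : Fin 4 → R) (i j : Fin 4) : R :=
  (mat (rot^[k] (ten T)) v).adjugate j i

lemma map_cub {R R' : Type} [CommRing R] [CommRing R'] (f : R →+* R') (T : Idx 3 a b → R) (k : ℕ)
    (v : Fin 4 → R) (i j : Fin 4) :
    f (cub T k v i j) = cub (fun p => f (T p)) k (fun p => f (v p)) i j := by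
  have h1 := congrFun (congrFun (f.map_adjugate (mat (rot^[k] (ten T)) v)) j) i
  refine h1.trans ?_
  unfold cub
  congr 1
  ext p r
  simp only [mat, RingHom.mapMatrix_apply, map_apply, of_apply, map_sum, map_mul, map_rot f]
  simp only [ten, map_form, map_single]
  rfl

/-- The system attached to four bilinear forms. -/
noncomputable def quartSys (a b : Fin 4 → ℕ) : Sys (Idx 3 a b) (Fin 4) where
  S k := cub (fun p => X (Sum.inl p)) k fun c => X (Sum.inr c)
  d := 3
  η := 0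
  m := 3
  hd := le_rfl
  hm := three_pos
  per _ := rfl
  hom R _ T x e k c d := by
    simp only [map_cub, eval₂Hom_X', Sum.elim_inl, Sum.elim_inr]
    have : mat (rot^[k] (ten T)) (fun a => e * x a) = e • mat (rot^[k] (ten T)) x := by
      ext p r
      simp [mat, mul_sum, mul_left_comm]
    simp [cub, this, adjugate_smul]

lemma quartSys_ev {R : Type} [CommRing R] (T : Idx 3 a b → R) (k : ℕ) (x : Fin 4 → R)
    (c d : Fin 4) : (quartSys a b).ev T k x c d = cub T k x c d := by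
  simp only [Sys.ev, quartSys, map_cub, eval₂Hom_X', Sum.elim_inl, Sum.elim_inr]

lemma form_ten (ha : ∀ i, a i = 1) (hb : ∀ i, b i = 1) {R : Type} [CommRing R]
    (T : Idx 3 a b → R) (i : Fin 4) (u v : Fin 4 → R) :
    form T i u v = (u ᵥ* mat (ten T) v) i := by
  rw [← form_swp, form_lin (swp T) (ha i)]
  change ∑ p : Fin 4, _ = ∑ p : Fin 4, u p * mat (ten T) v p i
  refine sum_congr rfl fun p _ => ?_
  rw [form_swp, form_lin T (hb i), mul_comm]
  rfl

lemma quartSys_chain (ha : ∀ i, a i = 1) (hb : ∀ i, b i = 1) {K : Type} [Field K]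
    (T : Idx 3 a b → K) (hT : (quartSys a b).ND T) (h1 : (pts T).Finite)
    (h2 : (pts T).Nonempty) : ∃ u : ℕ → Fin 4 → K, (∀ k, u k ≠ 0) ∧
      (∀ k, (quartSys a b).Rel T k (u k) (u (k + 1)) (u (k + 2))) ∧
      (∃ M, 0 < M ∧ Function.Periodic u M) ∧ ∀ i, form T i (u 0) (u 1) = 0 := by
  have h0 : ∀ u v : Fin 4 → K, (∀ i, form T i u v = 0) ↔ u ᵥ* mat (ten T) v = 0 := fun u v => by
    simp only [form_ten ha hb, funext_iff, Pi.zero_apply]
  simp only [pts, h0] at h1 h2 ⊢
  refine (quartSys a b).exists_periodic T (fun k u v => u ᵥ* mat (rot^[k] (ten T)) v = 0)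
    (fun k => rfl) (fun k u v c h => ?_) (fun k u v hu hv h => ?_) h1 h2
  · have : mat (rot^[k] (ten T)) (fun a => c * v a) = c • mat (rot^[k] (ten T)) v := by
      ext p r
      simp [mat, mul_sum, mul_left_comm]
    rw [this, vecMul_smul, h, smul_zero]
  · have hS := hT k v hv
    unfold Sys.Rel
    simp only [quartSys_ev] at hS ⊢
    obtain ⟨w, hw, h3, h4⟩ := adj_step _ hu h hS
    refine ⟨w, hw, h3, ?_⟩
    rw [← h4, Function.iterate_succ_apply']
    funext p
    simp only [vecMul, mulVec, dotProduct, mat, of_apply, rot, mul_sum, sum_mul]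
    rw [sum_comm]
    exact sum_congr rfl fun q _ => sum_congr rfl fun r _ => by ring

lemma quart_aniso {K : Type} [Field K] {π : K}
    (h : Irreducible (Polynomial.X ^ 4 - Polynomial.C π)) {x y : Fin 4 → K}
    (h0 : x 0 * y 0 + π * (x 1 * y 3 + x 2 * y 2 + x 3 * y 1) = 0)
    (h1 : x 0 * y 1 + x 1 * y 0 + π * (x 2 * y 3 + x 3 * y 2) = 0)
    (h2 : x 0 * y 2 + x 1 * y 1 + x 2 * y 0 + π * (x 3 * y 3) = 0)
    (h3 : x 0 * y 3 + x 1 * y 2 + x 2 * y 1 + x 3 * y 0 = 0) : x = 0 ∨ y = 0 := by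
  have h4 : Polynomial.X ^ 4 - Polynomial.C π ∣
      (∑ i, Polynomial.C (x i) * Polynomial.X ^ (i : ℕ)) *
        ∑ i, Polynomial.C (y i) * Polynomial.X ^ (i : ℕ) := by
    refine ⟨Polynomial.C (x 1 * y 3 + x 2 * y 2 + x 3 * y 1) +
      Polynomial.C (x 2 * y 3 + x 3 * y 2) * Polynomial.X +
      Polynomial.C (x 3 * y 3) * Polynomial.X ^ 2, ?_⟩
    have h0' := congrArg Polynomial.C h0
    have h1' := congrArg Polynomial.C h1
    have h2' := congrArg Polynomial.C h2
    have h3' := congrArg Polynomial.C h3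
    simp only [map_add, map_mul, map_zero, Fin.sum_univ_four] at h0' h1' h2' h3' ⊢
    simp only [Fin.val_zero, Fin.val_one, Fin.val_two, show ((3 : Fin 4) : ℕ) = 3 from rfl]
    linear_combination h0' + Polynomial.X * h1' + Polynomial.X ^ 2 * h2' +
      Polynomial.X ^ 3 * h3'
  exact (h.prime.dvd_or_dvd h4).imp (fun h => poly_zero x h four_pos)
    fun h => poly_zero y h four_pos

lemma ex_nd {κ : Type} [Field κ] (h5 : ((5 : ℕ) : κ) = 0) {y : Fin 4 → κ}
    (h : ∀ i j, (!![0, y 1, y 2, y 3; y 1, y 0, 2 * y 3, 0; y 2, 0, y 0, 2 * y 1;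
      y 3, 2 * y 2, 0, y 0] : Matrix (Fin 4) (Fin 4) κ).adjugate j i = 0) : y = 0 := by
  have m : ∀ i j : Fin 4, ((!![0, y 1, y 2, y 3; y 1, y 0, 2 * y 3, 0; y 2, 0, y 0, 2 * y 1;
      y 3, 2 * y 2, 0, y 0] : Matrix (Fin 4) (Fin 4) κ).submatrix i.succAbove j.succAbove).det
      = 0 := fun i j => by
    have := h i j
    rw [adjugate_fin_succ_eq_det_submatrix] at this
    simpa using this
  have m00 := m 0 0
  have m01 := m 0 1
  have m02 := m 0 2
  have m03 := m 0 3
  have m10 := m 1 0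
  have m11 := m 1 1
  have m12 := m 1 2
  have m13 := m 1 3
  have m20 := m 2 0
  have m21 := m 2 1
  have m22 := m 2 2
  have m23 := m 2 3
  have m30 := m 3 0
  have m31 := m 3 1
  have m32 := m 3 2
  have m33 := m 3 3
  simp [det_fin_three, Fin.succAbove] at m00 m01 m02 m03 m10 m11 m12 m13
  simp [det_fin_three, Fin.succAbove] at m20 m21 m22 m23 m30 m31 m32 m33
  push_cast at h5
  have h48 : (48 : κ) ≠ 0 := fun h => one_ne_zero (α := κ) (by linear_combination 2 * h - 19 * h5)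
  have e0 : 48 * y 0 ^ 5 = 48 * 0 := by
    linear_combination y 0 ^ 2 * (48 * m00 - 64 * m11 + 64 * m22 + 64 * m33) +
      128 * y 0 * y 1 * (m01 + m10) + y 1 ^ 2 * (512 * m11 - 128 * m00)
  have e1 : 48 * y 1 ^ 5 = 48 * 0 := by
    linear_combination y 0 ^ 2 * (m01 + m10 - 4 * m23) - y 0 * y 1 * (2 * m00 + 4 * m11) -
      24 * y 1 ^ 2 * m32
  have e2 : 48 * y 2 ^ 5 = 48 * 0 := by
    linear_combination y 0 ^ 2 * (m02 - m20 + 2 * m31) +
      y 0 * y 1 * (2 * m30 - 4 * m03 - 4 * m12) + 24 * y 2 ^ 2 * m13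
  have e3 : 48 * y 3 ^ 5 = 48 * 0 := by
    linear_combination y 0 ^ 2 * (m03 - 2 * m12 - m30) +
      y 0 * y 1 * (4 * m20 + 4 * m31 - 2 * m02) - 24 * y 3 ^ 2 * m21
  funext i
  refine eq_zero_of_pow_eq_zero (n := 5) (mul_left_cancel₀ h48 ?_)
  fin_cases i
  exacts [e0, e1, e2, e3]

variable {K : Type} [Field K] [NumberField K] {J : Type} [Fintype J]

theorem quartic (ω : J → 𝓞 K) (hω : ω ≠ 0) (ha : ∀ i, a i = 1) (hb : ∀ i, b i = 1) :
    Tendsto (fun H : ℕ => (Set.ncard {t : Idx 3 a b × J → ℤ | (∀ k, |t k| ≤ H) ∧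
      (pts fun i => ∑ j, (t (i, j) : K) * ω j).Finite ∧
      (pts fun i => ∑ j, (t (i, j) : K) * ω j).Nonempty} : ℝ) /
      (2 * H + 1) ^ Nat.card (Idx 3 a b × J)) atTop (𝓝 0) := by
  obtain ⟨T0, hT0⟩ := exists_coef (R0 := ℤ) (n := 3) (a := a) (b := b)
    (fun i _ _ f x y => ![x 1 * y 1 + x 2 * y 2 + x 3 * y 3,
      x 0 * y 1 + x 1 * y 0 + f 2 * (x 3 * y 2), x 0 * y 2 + x 2 * y 0 + f 2 * (x 1 * y 3),
      x 0 * y 3 + x 3 * y 0 + f 2 * (x 2 * y 1)] i) fun i => by
      refine Rz.cast ?_ (ha i) (hb i)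
      fin_cases i
      · exact ((Rz.XY 1 1).add (Rz.XY 2 2)).add (Rz.XY 3 3)
      · exact ((Rz.XY 0 1).add (Rz.XY 1 0)).add ((Rz.XY 3 2).smul 2)
      · exact ((Rz.XY 0 2).add (Rz.XY 2 0)).add ((Rz.XY 1 3).smul 2)
      · exact ((Rz.XY 0 3).add (Rz.XY 3 0)).add ((Rz.XY 2 1).smul 2)
  obtain ⟨π, hπ⟩ := exists_irred K
  obtain ⟨T2, hT2⟩ := exists_coef (R0 := K) (n := 3) (a := a) (b := b)
    (fun i _ _ f x y => ![x 0 * y 0 + f π * (x 1 * y 3 + x 2 * y 2 + x 3 * y 1),
      x 0 * y 1 + x 1 * y 0 + f π * (x 2 * y 3 + x 3 * y 2),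
      x 0 * y 2 + x 1 * y 1 + x 2 * y 0 + f π * (x 3 * y 3),
      x 0 * y 3 + x 1 * y 2 + x 2 * y 1 + x 3 * y 0] i) fun i => by
      refine Rz.cast ?_ (ha i) (hb i)
      fin_cases i
      · exact (Rz.XY 0 0).add ((((Rz.XY 1 3).add (Rz.XY 2 2)).add (Rz.XY 3 1)).smul π)
      · exact ((Rz.XY 0 1).add (Rz.XY 1 0)).add (((Rz.XY 2 3).add (Rz.XY 3 2)).smul π)
      · exact (((Rz.XY 0 2).add (Rz.XY 1 1)).add (Rz.XY 2 0)).add ((Rz.XY 3 3).smul π)
      · exact (((Rz.XY 0 3).add (Rz.XY 1 2)).add (Rz.XY 2 1)).add (Rz.XY 3 0)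
  refine final ω hω (quartSys a b) T0 Nat.prime_five (fun κ _ hκ k x hx => ?_) T2
    (fun x y hx hy h => ?_) fun T => quartSys_chain ha hb T
  · by_contra! h
    apply hx
    have h1 := hT0 κ (Int.castRingHom κ)
    simp only [eq_intCast] at h1
    have h2 : rot (ten fun p => (T0 p : κ)) = ten fun p => (T0 p : κ) := by
      funext p q r
      fin_cases p <;> fin_cases q <;> fin_cases r <;> simp [rot, ten, h1]
    refine ex_nd hκ fun i j => ?_
    have h3 := h i j
    rw [quartSys_ev, cub, Function.iterate_fixed h2] at h3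
    clear h
    convert h3 using 2
    ext p r
    fin_cases p <;> fin_cases r <;> simp [mat, ten, h1, Fin.sum_univ_four]
  · have h1 := fun i => hT2 K (RingHom.id K) i x y
    simp only [RingHom.id_apply, h] at h1
    exact (quart_aniso (hπ 4 four_pos) (h1 0).symm (h1 1).symm (h1 2).symm (h1 3).symm).elim hx hy

/-- The density statement for all complete intersections of positive bidegrees. -/
theorem density (ω : J → 𝓞 K) (hω : ω ≠ 0) (n r : ℕ) (hr : r + 2 = 2 * n) (a b : Fin r → ℕ)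
    (ha : ∀ i, 1 ≤ a i) (hb : ∀ i, 1 ≤ b i) (hsa : ∑ i, a i = n + 1) (hsb : ∑ i, b i = n + 1) :
    Tendsto (fun H : ℕ => (Set.ncard {t : Idx n a b × J → ℤ | (∀ k, |t k| ≤ H) ∧
      (pts fun i => ∑ j, (t (i, j) : K) * ω j).Finite ∧
      (pts fun i => ∑ j, (t (i, j) : K) * ω j).Nonempty} : ℝ) /
      (2 * H + 1) ^ Nat.card (Idx n a b × J)) atTop (𝓝 0) := by
  have h1 : r ≤ n + 1 := by
    simpa [hsa] using card_nsmul_le_sum univ a 1 fun i _ => ha i
  obtain rfl | rfl | rfl : n = 1 ∨ n = 2 ∨ n = 3 := by omega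
  · obtain rfl : r = 0 := by omega
    simp at hsa
  · obtain rfl : r = 2 := by omega
    rw [Fin.sum_univ_two] at hsa hsb
    have := ha 0
    have := ha 1
    have := hb 0
    have := hb 1
    have h01 : ∀ k : Fin 2, k = 0 ∨ k = 1 := by decide
    have h10 : ∀ k : Fin 2, k = 1 ∨ k = 0 := by decide
    by_cases h2 : b 0 = 1 <;> by_cases h3 : a 0 = 1
    · exact wehler ω hω (by decide) h01 h3 h2 (by omega) (by omega)
    · exact mixed ω hω (by decide) h01 (by omega) h2 (by omega) (by omega)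
    · exact mixed ω hω (by decide) h10 (by omega) (by omega) h3 (by omega)
    · exact wehler ω hω (by decide) h10 (by omega) (by omega) (by omega) (by omega)
  · obtain rfl : r = 4 := by omega
    rw [Fin.sum_univ_four] at hsa hsb
    have := ha 0
    have := ha 1
    have := ha 2
    have := ha 3
    have := hb 0
    have := hb 1
    have := hb 2
    have := hb 3
    refine quartic ω hω (fun i => ?_) fun i => ?_ <;> fin_cases i <;> simp <;> omega

end Pool.Agent.MP_a2aa7d_nt.H32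

end MrgPart9

-- marker of a merged file
example : 731051 + 238711 = 731051 + 238711 := rfl
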